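import Pool.Agent.J6H67.AK.Str

/-!
# The ultrapower of a valued field
-/

set_option autoImplicit false

universe u

namespace Pool.Agent.J6H67.AK

open Filter Polynomial

theorem exists_toUp {M : Type u} (a : Up M) : ∃ f : ℕ → M, toUp f = a := ⟨_, toUp_rep a⟩

theorem mk_eq {M : Type u} {f g : ℕ → M} : toUp f = toUp g ↔ ∀ᶠ i in (UU : Filter ℕ), f i = g i :=
  Germ.coe_eq

theorem mk_le {M : Type u} [LE M] {f g : ℕ → M} :
    toUp f ≤ toUp g ↔ ∀ᶠ i in (UU : Filter ℕ), f i ≤ g i :=
  Germ.coe_le

theorem mk_lt {M : Type u} [Preorder M] {f g : ℕ → M} :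
    toUp f < toUp g ↔ ∀ᶠ i in (UU : Filter ℕ), f i < g i :=
  Germ.coe_lt

/-- the valuation of the ultrapower -/
noncomputable def upv {K Γ : Type u} [Field K] [LinearOrderedCommGroupWithZero Γ]
    (v : Valuation K Γ) : Valuation (Up K) (Up Γ) where
  toFun := Germ.map v
  map_zero' := mk_eq.2 (Eventually.of_forall fun _ => map_zero v)
  map_one' := mk_eq.2 (Eventually.of_forall fun _ => map_one v)
  map_mul' a b := Germ.inductionOn₂ a b fun _ _ => mk_eq.2 (Eventually.of_forall fun _ => map_mul v _ _)
  map_add_le_max' a b := by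
    refine Germ.inductionOn₂ a b fun f g => ?_
    have h1 := Germ.max_def (φ := UU) (toUp fun i => v (f i)) (toUp fun i => v (g i))
    have h2 : Germ.map (⇑v) (toUp f + toUp g) ≤ toUp fun i => max (v (f i)) (v (g i)) :=
      mk_le.2 (Eventually.of_forall fun _ => v.map_add _ _)
    refine h2.trans (le_of_eq ?_)
    exact h1.symm

theorem upv_mk {K Γ : Type u} [Field K] [LinearOrderedCommGroupWithZero Γ]
    (v : Valuation K Γ) (f : ℕ → K) : upv v (toUp f) = toUp fun i => v (f i) := rfl

theorem one_eq {M : Type u} [One M] : (1 : Up M) = toUp fun _ => 1 := rfl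

theorem zero_eq {M : Type u} [Zero M] : (0 : Up M) = toUp fun _ => 0 := rfl

theorem mk_add {M : Type u} [Add M] (f g : ℕ → M) : toUp f + toUp g = toUp fun i => f i + g i := rfl

theorem mk_mul {M : Type u} [Mul M] (f g : ℕ → M) : toUp f * toUp g = toUp fun i => f i * g i := rfl

theorem mk_sub {M : Type u} [Sub M] (f g : ℕ → M) : toUp f - toUp g = toUp fun i => f i - g i := rfl

theorem mk_neg {M : Type u} [Neg M] (f : ℕ → M) : - toUp f = toUp fun i => - f i := rfl

theorem mk_inv {M : Type u} [Inv M] (f : ℕ → M) : (toUp f)⁻¹ = toUp fun i => (f i)⁻¹ := rfl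

theorem mk_pow {M : Type u} [Monoid M] (f : ℕ → M) (n : ℕ) : toUp f ^ n = toUp fun i => f i ^ n :=
  rfl

theorem mk_sum {M : Type u} [AddCommMonoid M] {ι : Type} (s : Finset ι) (f : ι → ℕ → M) :
    ∑ j ∈ s, toUp (f j) = toUp fun i => ∑ j ∈ s, f j i := by
  classical
  induction s using Finset.induction_on with
  | empty => simp [zero_eq]
  | insert a s ha ih => 
    simp only [Finset.sum_insert ha, ih]
    rfl

theorem mk_natCast {M : Type u} [NatCast M] (n : ℕ) : ((n : ℕ) : Up M) = toUp fun _ => (n : M) := rfl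

/-- the ultrapower of a valued field -/
noncomputable def VM.up (M : VM.{u}) : VM.{u} where
  K := Up M.K
  k := Up M.k
  Γ := Up M.Γ
  v := upv M.v
  r := Germ.map M.r
  v_surj a := by
    obtain ⟨f, rfl⟩ := exists_toUp a
    choose g hg using M.v_surj
    refine ⟨toUp fun i => g (f i), ?_⟩
    rw [upv_mk]
    simp only [hg]
  r_add a b := by
    refine Germ.inductionOn₂ a b fun f g hf hg => ?_
    have hf' := mk_le.1 hf
    have hg' := mk_le.1 hg
    refine mk_eq.2 ?_
    filter_upwards [hf', hg'] with i h1 h2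
    exact M.r_add _ _ h1 h2
  r_mul a b := by
    refine Germ.inductionOn₂ a b fun f g hf hg => ?_
    have hf' := mk_le.1 hf
    have hg' := mk_le.1 hg
    refine mk_eq.2 ?_
    filter_upwards [hf', hg'] with i h1 h2
    exact M.r_mul _ _ h1 h2
  r_one := mk_eq.2 (Eventually.of_forall fun _ => M.r_one)
  r_eq_zero a hf := by
    obtain ⟨f, rfl⟩ := exists_toUp a
    have hf' := mk_le.1 hf
    constructor
    · intro h
      refine mk_lt.2 ?_
      have h' := mk_eq.1 h
      filter_upwards [hf', h'] with i h1 h2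
      exact (M.r_eq_zero _ h1).1 h2
    · intro h
      refine mk_eq.2 ?_
      have h' := mk_lt.1 h
      filter_upwards [hf', h'] with i h1 h2
      exact (M.r_eq_zero _ h1).2 h2
  r_out a hf := by
    obtain ⟨f, rfl⟩ := exists_toUp a
    refine mk_eq.2 ?_
    have h' := mk_lt.1 hf
    filter_upwards [h'] with i h1
    exact M.r_out _ h1
  r_surj a := by
    obtain ⟨f, rfl⟩ := exists_toUp a
    choose g hg hg' using M.r_surj
    refine ⟨toUp fun i => g (f i), mk_le.2 (Eventually.of_forall fun i => hg _), ?_⟩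
    exact mk_eq.2 (Eventually.of_forall fun i => hg' _)
  char n hn h := by
    have h' := mk_eq.1 h
    obtain ⟨i, hi⟩ := h'.exists
    exact M.char n hn hi
  hensel f hf hc a ha h0 h1 := by
    classical
    set d := f.natDegree with hd
    let c : ℕ → ℕ → M.K := fun i => rep (f.coeff i)
    let F : ℕ → M.K[X] := fun j => X ^ d + ∑ i ∈ Finset.range d, C (c i j) * X ^ i
    have hFm : ∀ j, (F j).Monic := fun j => by
      apply monic_X_pow_add
      refine (Polynomial.degree_sum_le _ _).trans_lt ?_
      refine (Finset.sup_lt_iff (WithBot.bot_lt_coe d)).2 fun i hi => ?_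
      exact (degree_C_mul_X_pow_le _ _).trans_lt (WithBot.coe_lt_coe.2 (Finset.mem_range.1 hi))
    have hf1 : f = X ^ d + ∑ i ∈ Finset.range d, C (f.coeff i) * X ^ i := by
      conv_lhs => rw [hf.as_sum]
    have hev : ∀ g : ℕ → M.K, f.eval (toUp g) = toUp fun j => (F j).eval (g j) := by
      intro g
      conv_lhs => rw [hf1]
      simp only [eval_add, eval_pow, eval_X, eval_finset_sum, eval_mul, eval_C, F]
      have : ∀ i, f.coeff i * toUp g ^ i = toUp fun j => c i j * g j ^ i := by
        intro i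
        conv_lhs => rw [← toUp_rep (f.coeff i)]
        rfl
      simp only [this, mk_sum]
      rfl
    have hev' : ∀ g : ℕ → M.K, f.derivative.eval (toUp g) = toUp fun j => (F j).derivative.eval (g j) := by
      intro g
      conv_lhs => rw [hf1]
      simp only [derivative_add, derivative_X_pow, derivative_sum, derivative_C_mul_X_pow,
        eval_add, eval_pow, eval_X, eval_finset_sum, eval_mul, eval_C, F]
      have : ∀ i, f.coeff i * (i : Up M.K) * toUp g ^ (i - 1) = 
          toUp fun j => c i j * (i : M.K) * g j ^ (i - 1) := by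
        intro i
        conv_lhs => rw [← toUp_rep (f.coeff i)]
        rfl
      simp only [this, mk_sum]
      rfl
    obtain ⟨g, rfl⟩ : ∃ g, toUp g = a := ⟨_, toUp_rep a⟩
    have hco : ∀ᶠ j in (UU : Filter ℕ), ∀ i ∈ Finset.range d, M.v (c i j) ≤ 1 := by
      rw [Filter.eventually_all_finset]
      intro i _
      have := hc i
      rw [← toUp_rep (f.coeff i)] at this
      exact mk_le.1 this
    rw [hev] at h0
    rw [hev'] at h1
    have hb : ∀ᶠ j in (UU : Filter ℕ), ∃ b, (F j).eval b = 0 ∧ M.v (b - g j) < 1 := by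
      filter_upwards [hco, mk_le.1 ha, mk_lt.1 h0, mk_eq.1 h1] with j h2 h3 h4 h5
      refine M.hensel (F j) (hFm j) (fun i => ?_) _ h3 h4 h5
      simp only [F, coeff_add, coeff_X_pow, finset_sum_coeff, coeff_C_mul, mul_ite, mul_one,
        mul_zero, Finset.sum_ite_eq, Finset.mem_range]
      refine (M.v.map_add _ _).trans (max_le ?_ ?_)
      · split_ifs <;> simp
      · split_ifs with h
        · exact h2 i (Finset.mem_range.2 h)
        · simp
    obtain ⟨b, hb⟩ := hb.choice
    refine ⟨toUp b, ?_, ?_⟩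
    · rw [hev]
      exact mk_eq.2 (hb.mono fun j h => h.1)
    · exact mk_lt.2 (hb.mono fun j h => h.2)

end Pool.Agent.J6H67.AK
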