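import Pool.Agent.J6H67.AK.StepI
import Pool.Agent.J6H67.AK.Upw

/-!
# Saturation and cross-sections of ultrapowers
-/

set_option autoImplicit false

universe u

namespace Pool.Agent.J6H67.AK

open Filter

/-- homomorphic lifts of finitely many elements of a torsion-free quotient -/
theorem lift_lemma {U G : Type u} [CommGroup U] [CommGroup G] (V : U →* G)
    (hV : Function.Surjective V) (Δ : Subgroup G)
    (hΔ : ∀ g : G, ∀ n : ℕ, n ≠ 0 → g ^ n ∈ Δ → g ∈ Δ) (F : Set G) (hF : F.Finite) :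
    ∃ f : G → U, (∀ g ∈ F, V (f g) * g⁻¹ ∈ Δ) ∧
      (∀ g ∈ F, ∀ g' ∈ F, ∀ h ∈ F, g * g' * h⁻¹ ∈ Δ → f h = f g * f g') := by
  classical
  let q : G → Additive (G ⧸ Δ) := fun g => Additive.ofMul (QuotientGroup.mk g)
  let P : Submodule ℤ (Additive (G ⧸ Δ)) := Submodule.span ℤ (q '' F)
  let φ : Additive U →ₗ[ℤ] Additive (G ⧸ Δ) :=
    (MonoidHom.toAdditive ((QuotientGroup.mk' Δ).comp V)).toIntLinearMap
  have hφ : Function.Surjective φ := by
    intro b
    obtain ⟨g, hg⟩ := QuotientGroup.mk_surjective (Additive.toMul b)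
    obtain ⟨x, hx⟩ := hV g
    refine ⟨Additive.ofMul x, ?_⟩
    show Additive.ofMul (QuotientGroup.mk (V x)) = b
    rw [hx, hg]; rfl
  haveI : Module.Finite ℤ P := Module.Finite.span_of_finite ℤ (hF.image q)
  haveI : Module.IsTorsionFree ℤ P := by
    apply Module.IsTorsionFree.of_smul_eq_zero
    intro r m h
    by_contra hc
    push Not at hc
    obtain ⟨hr, hm⟩ := hc
    apply hm
    apply Subtype.ext
    obtain ⟨g, hg⟩ := QuotientGroup.mk_surjective (Additive.toMul (m : Additive (G ⧸ Δ)))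
    have h1 : r • (m : Additive (G ⧸ Δ)) = 0 := by
      have := congrArg Subtype.val h
      exact this
    have h2 : (r.natAbs : ℤ) • (m : Additive (G ⧸ Δ)) = 0 := by
      rcases Int.natAbs_eq r with h' | h'
      · rw [← h']; exact h1
      · have : (r.natAbs : ℤ) = -r := by omega
        rw [this, neg_smul, h1, neg_zero]
    have h3 : (QuotientGroup.mk (g ^ r.natAbs) : G ⧸ Δ) = 1 := by
      rw [QuotientGroup.mk_pow, hg]
      have := congrArg Additive.toMul h2
      rw [natCast_zsmul] at this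
      exact this
    rw [QuotientGroup.eq_one_iff] at h3
    have h4 := hΔ g _ (Int.natAbs_ne_zero.2 hr) h3
    have h5 : (QuotientGroup.mk g : G ⧸ Δ) = 1 := (QuotientGroup.eq_one_iff g).2 h4
    rw [hg] at h5
    exact h5
  haveI : Module.Free ℤ P := Module.free_of_finite_type_torsion_free'
  obtain ⟨h, hh⟩ := Module.projective_lifting_property φ P.subtype hφ
  let f : G → U := fun g => if hg : q g ∈ P then Additive.toMul (h ⟨q g, hg⟩) else 1
  have hqF : ∀ g ∈ F, q g ∈ P := fun g hg => Submodule.subset_span (Set.mem_image_of_mem q hg)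
  have hf : ∀ g (hg : q g ∈ P), f g = Additive.toMul (h ⟨q g, hg⟩) := fun g hg => dif_pos hg
  refine ⟨f, fun g hg => ?_, fun g hg g' hg' k hk hgk => ?_⟩
  · rw [hf g (hqF g hg)]
    have h1 : φ (h ⟨q g, hqF g hg⟩) = q g := by
      have := congrArg (fun l : P →ₗ[ℤ] Additive (G ⧸ Δ) => l ⟨q g, hqF g hg⟩) hh
      exact this
    have h2 : (QuotientGroup.mk (V (Additive.toMul (h ⟨q g, hqF g hg⟩))) : G ⧸ Δ) =
        QuotientGroup.mk g := congrArg Additive.toMul h1
    rw [← QuotientGroup.eq_one_iff, QuotientGroup.mk_mul, QuotientGroup.mk_inv, h2, mul_inv_cancel]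
  · rw [hf g (hqF g hg), hf g' (hqF g' hg'), hf k (hqF k hk), ← toMul_add, ← map_add]
    congr 2
    apply Subtype.ext
    have h1 : (QuotientGroup.mk (g * g' * k⁻¹) : G ⧸ Δ) = 1 := (QuotientGroup.eq_one_iff _).2 hgk
    rw [QuotientGroup.mk_mul, QuotientGroup.mk_inv, mul_inv_eq_one, QuotientGroup.mk_mul] at h1
    exact (congrArg Additive.ofMul h1).symm

/-- elements of the ultrapower -/
noncomputable def VM.tK (M₀ : VM.{u}) (f : ℕ → M₀.K) : M₀.up.K := toUp f

/-- saturation for distances -/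
theorem up_pcSat (M₀ : VM.{u}) : PcSat M₀.up := by
  intro c hc
  let A : ℕ → ℕ → Set M₀.K := fun j i => {y | M₀.v (y - rep (c j).1 i) = rep (c j).2 i}
  have hA : ∀ (y : ℕ → M₀.K) (j : ℕ), (M₀.up.v (M₀.tK y - (c j).1) = (c j).2) ↔
      ∀ᶠ i in (UU : Filter ℕ), y i ∈ A j i := by
    intro y j
    have h1 : (c j).1 = M₀.tK (rep (c j).1) := (toUp_rep _).symm
    have h2 : (c j).2 = toUp (rep (c j).2) := (toUp_rep _).symm
    have h3 : M₀.up.v (M₀.tK y - M₀.tK (rep (c j).1)) =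
      toUp fun i => M₀.v (y i - rep (c j).1 i) := rfl
    constructor
    · intro h
      rw [h1, h3] at h
      rw [h2] at h
      exact mk_eq.1 h
    · intro h
      rw [h1, h3, h2]
      exact mk_eq.2 h
  obtain ⟨y, hy⟩ := sat A (by
    intro m
    obtain ⟨y, hy⟩ := hc m
    obtain ⟨y, rfl⟩ := exists_toUp y
    have hy : ∀ j < m, M₀.up.v (M₀.tK y - (c j).1) = (c j).2 := hy
    have : ∀ᶠ i in (UU : Filter ℕ), ∀ j ∈ Finset.range m, y i ∈ A j i := by
      rw [Filter.eventually_all_finset]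
      intro j hj
      exact (hA y j).1 (hy j (Finset.mem_range.1 hj))
    filter_upwards [this] with i hi
    exact ⟨y i, fun j hj => hi j (Finset.mem_range.2 hj)⟩)
  exact ⟨toUp y, fun j => (hA y j).2 (hy j)⟩

/-- saturation for sequences with given values and multiplicative relations -/
def SeqSat (M : VM.{u}) : Prop :=
  ∀ (γ : ℕ → M.Γ) (rel : ℕ → Option (ℕ × ℕ × ℕ × M.K)),
    (∀ m, ∃ x : ℕ → M.K, ∀ j < m, M.v (x j) = γ j ∧
      ∀ r, rel j = some r → x r.2.2.1 = x r.1 * x r.2.1 * r.2.2.2) →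
    ∃ x : ℕ → M.K, ∀ j, M.v (x j) = γ j ∧
      ∀ r, rel j = some r → x r.2.2.1 = x r.1 * x r.2.1 * r.2.2.2

theorem up_seqSat (M₀ : VM.{u}) : SeqSat M₀.up := by
  intro γ rel h
  let A : ℕ → ℕ → Set (ℕ → M₀.K) := fun j i => {x | M₀.v (x j) = rep (γ j) i ∧
    ∀ r, rel j = some r → x r.2.2.1 = x r.1 * x r.2.1 * rep r.2.2.2 i}
  have hA : ∀ (x : ℕ → ℕ → M₀.K) (j : ℕ), (M₀.up.v (M₀.tK (x j)) = γ j ∧
      ∀ r, rel j = some r → M₀.tK (x r.2.2.1) = M₀.tK (x r.1) * M₀.tK (x r.2.1) * r.2.2.2) ↔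
      ∀ᶠ i in (UU : Filter ℕ), (fun k => x k i) ∈ A j i := by
    intro x j
    have h1 : (M₀.up.v (M₀.tK (x j)) = γ j) ↔
        ∀ᶠ i in (UU : Filter ℕ), M₀.v (x j i) = rep (γ j) i := by
      have h2 : γ j = toUp (rep (γ j)) := (toUp_rep _).symm
      constructor
      · intro h; rw [h2] at h; exact mk_eq.1 h
      · intro h; rw [h2]; exact mk_eq.2 h
    rw [h1]
    have h3 : (∀ r, rel j = some r →
        M₀.tK (x r.2.2.1) = M₀.tK (x r.1) * M₀.tK (x r.2.1) * r.2.2.2) ↔
        ∀ᶠ i in (UU : Filter ℕ), ∀ r, rel j = some r →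
          x r.2.2.1 i = x r.1 i * x r.2.1 i * rep r.2.2.2 i := by
      rcases hr : rel j with _ | r₀
      · simp
      · simp only [Option.some.injEq, forall_eq']
        have h4 : r₀.2.2.2 = M₀.tK (rep r₀.2.2.2) := (toUp_rep _).symm
        constructor
        · intro h; rw [h4] at h; exact mk_eq.1 h
        · intro h; rw [h4]; exact mk_eq.2 h
    rw [h3, ← Filter.eventually_and]
    exact Iff.rfl
  obtain ⟨x, hx⟩ := sat A (by
    intro m
    obtain ⟨x, hx⟩ := h m
    have hxx : x = fun k => M₀.tK (rep (x k)) := funext fun k => (toUp_rep _).symm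
    rw [hxx] at hx
    have : ∀ᶠ i in (UU : Filter ℕ), ∀ j ∈ Finset.range m, (fun k => rep (x k) i) ∈ A j i := by
      rw [Filter.eventually_all_finset]
      intro j hj
      exact (hA (fun k => rep (x k)) j).1 (hx j (Finset.mem_range.1 hj))
    filter_upwards [this] with i hi
    exact ⟨fun k => rep (x k) i, fun j hj => hi j (Finset.mem_range.2 hj)⟩)
  exact ⟨fun k => M₀.tK fun i => x i k, fun j => (hA (fun k i => x i k) j).2 (hx j)⟩

end Pool.Agent.J6H67.AK
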