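import Pool.Agent.J6H67.AK.Cross

/-!
# Cross-sections of ultrapowers
-/

set_option autoImplicit false

universe u

namespace Pool.Agent.J6H67.AK

open Filter

/-- the valuation on units -/
noncomputable def VM.V (M : VM.{u}) : M.Kˣ →* M.Γˣ := Units.map (M.v : M.K →* M.Γ)

theorem VM.V_coe (M : VM.{u}) (x : M.Kˣ) : ((M.V x : M.Γˣ) : M.Γ) = M.v (x : M.K) := rfl

theorem VM.V_surj (M : VM.{u}) : Function.Surjective M.V := by
  intro g
  obtain ⟨x, hx⟩ := M.v_surj (g : M.Γ)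
  have hx0 : x ≠ 0 := fun h => g.ne_zero (by rw [← hx, h, map_zero])
  exact ⟨Units.mk0 x hx0, Units.ext hx⟩

/-- partial cross-sections with pure image -/
structure PS (M : VM.{u}) (T : Subgroup M.Kˣ) : Prop where
  inj : ∀ t ∈ T, M.V t = 1 → t = 1
  pure : ∀ g : M.Γˣ, ∀ n : ℕ, n ≠ 0 → g ^ n ∈ T.map M.V → g ∈ T.map M.V

theorem PS.eq {M : VM.{u}} {T : Subgroup M.Kˣ} (h : PS M T) {s t : M.Kˣ} (hs : s ∈ T) (ht : t ∈ T)
    (e : M.V s = M.V t) : s = t := by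
  have := h.inj (s * t⁻¹) (T.mul_mem hs (T.inv_mem ht)) (by rw [map_mul, map_inv, e, mul_inv_cancel])
  exact mul_inv_eq_one.1 this

/-- the pure closure of the group generated by a subgroup and an element -/
def pcl {G : Type u} [CommGroup G] (Δ : Subgroup G) (g₀ : G) : Subgroup G where
  carrier := {δ | ∃ (n : ℕ) (m : ℤ), δ ^ (n + 1) * g₀ ^ m ∈ Δ}
  one_mem' := ⟨0, 0, by simp⟩
  mul_mem' := by
    rintro a b ⟨n, m, h⟩ ⟨n', m', h'⟩
    refine ⟨(n + 1) * (n' + 1) - 1, m * (n' + 1) + m' * (n + 1), ?_⟩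
    have e1 : (n + 1) * (n' + 1) - 1 + 1 = (n + 1) * (n' + 1) :=
      Nat.sub_add_cancel (Nat.mul_pos (Nat.succ_pos _) (Nat.succ_pos _))
    have e2 : (a * b) ^ ((n + 1) * (n' + 1) - 1 + 1) * g₀ ^ (m * (n' + 1) + m' * (n + 1)) =
        (a ^ (n + 1) * g₀ ^ m) ^ (n' + 1) * (b ^ (n' + 1) * g₀ ^ m') ^ (n + 1) := by
      rw [e1, mul_pow, mul_pow, mul_pow, ← pow_mul, ← pow_mul, zpow_add]
      have e3 : g₀ ^ (m * ((n' : ℤ) + 1)) = (g₀ ^ m) ^ (n' + 1) := by
        rw [zpow_mul]; norm_cast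
      have e4 : g₀ ^ (m' * ((n : ℤ) + 1)) = (g₀ ^ m') ^ (n + 1) := by
        rw [zpow_mul]; norm_cast
      rw [e3, e4, Nat.mul_comm (n' + 1) (n + 1)]
      exact mul_mul_mul_comm _ _ _ _
    rw [e2]
    exact Δ.mul_mem (Δ.pow_mem h _) (Δ.pow_mem h' _)
  inv_mem' := by
    rintro a ⟨n, m, h⟩
    refine ⟨n, -m, ?_⟩
    have : a⁻¹ ^ (n + 1) * g₀ ^ (-m) = (a ^ (n + 1) * g₀ ^ m)⁻¹ := by
      rw [mul_inv, zpow_neg, inv_pow]
    rw [this]
    exact Δ.inv_mem h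

theorem mem_pcl {G : Type u} [CommGroup G] {Δ : Subgroup G} {g₀ δ : G} :
    δ ∈ pcl Δ g₀ ↔ ∃ (n : ℕ) (m : ℤ), δ ^ (n + 1) * g₀ ^ m ∈ Δ := Iff.rfl

theorem le_pcl {G : Type u} [CommGroup G] (Δ : Subgroup G) (g₀ : G) : Δ ≤ pcl Δ g₀ :=
  fun δ h => ⟨0, 0, by simpa using h⟩

theorem self_mem_pcl {G : Type u} [CommGroup G] (Δ : Subgroup G) (g₀ : G) : g₀ ∈ pcl Δ g₀ :=
  ⟨0, -1, by simp [Δ.one_mem]⟩

theorem pcl_pure {G : Type u} [CommGroup G] (Δ : Subgroup G) (g₀ : G) (g : G) (n : ℕ)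
    (hn : n ≠ 0) (h : g ^ n ∈ pcl Δ g₀) : g ∈ pcl Δ g₀ := by
  obtain ⟨k, m, h⟩ := h
  refine ⟨n * (k + 1) - 1, m, ?_⟩
  rw [Nat.sub_add_cancel (Nat.mul_pos (Nat.pos_of_ne_zero hn) (Nat.succ_pos _)), pow_mul]
  exact h

/-- a countable family of representatives -/
theorem exists_reps {G : Type u} [CommGroup G] (Δ : Subgroup G) (g₀ : G)
    (hΔ : ∀ g : G, ∀ n : ℕ, n ≠ 0 → g ^ n ∈ Δ → g ∈ Δ) :
    ∃ D : ℕ → G, (∀ i, D i ∈ pcl Δ g₀) ∧ ∀ δ ∈ pcl Δ g₀, ∃ i, δ * (D i)⁻¹ ∈ Δ := by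
  classical
  let D : ℕ × ℤ → G := fun a =>
    if h : ∃ δ : G, δ ^ (a.1 + 1) * g₀ ^ a.2 ∈ Δ then Classical.choose h else 1
  have hD1 : ∀ a, (∃ δ : G, δ ^ (a.1 + 1) * g₀ ^ a.2 ∈ Δ) → D a ^ (a.1 + 1) * g₀ ^ a.2 ∈ Δ := by
    intro a h
    simp only [D]
    rw [dif_pos h]
    exact Classical.choose_spec h
  refine ⟨fun i => D ((Denumerable.eqv (ℕ × ℤ)).symm i), fun i => ?_, fun δ hδ => ?_⟩
  · set a := (Denumerable.eqv (ℕ × ℤ)).symm i
    by_cases h : ∃ δ : G, δ ^ (a.1 + 1) * g₀ ^ a.2 ∈ Δ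
    · exact ⟨a.1, a.2, hD1 a h⟩
    · have : D a = 1 := by simp only [D]; rw [dif_neg h]
      show D a ∈ _
      rw [this]; exact (pcl Δ g₀).one_mem
  · obtain ⟨n, m, h⟩ := hδ
    refine ⟨(Denumerable.eqv (ℕ × ℤ)) (n, m), ?_⟩
    simp only [Equiv.symm_apply_apply]
    apply hΔ _ (n + 1) (Nat.succ_ne_zero n)
    have h2 := hD1 (n, m) ⟨δ, h⟩
    have : (δ * (D (n, m))⁻¹) ^ (n + 1) = (δ ^ (n + 1) * g₀ ^ m) * (D (n, m) ^ (n + 1) * g₀ ^ m)⁻¹ := by
      rw [mul_pow, inv_pow, mul_inv]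
      have : ∀ a b c : G, a * b * (c⁻¹ * b⁻¹) = a * c⁻¹ := by
        intro a b c
        rw [mul_comm c⁻¹ b⁻¹, mul_assoc, ← mul_assoc b, mul_inv_cancel, one_mul]
      exact (this _ _ _).symm
    rw [this]
    exact Δ.mul_mem h (Δ.inv_mem h2)

/-- extension of partial cross-sections of the ultrapower -/
theorem ps_extend (M : VM.{u}) (hM : SeqSat M) (T : Subgroup M.Kˣ) (hT : PS M T) (g₀ : M.Γˣ) :
    ∃ T' : Subgroup M.Kˣ, T ≤ T' ∧ PS M T' ∧ g₀ ∈ T'.map M.V := by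
  classical
  set Δ := T.map M.V with hΔ
  obtain ⟨D, hD1, hD2⟩ := exists_reps Δ g₀ hT.pure
  -- the relations
  let e₂ : ℕ ≃ ℕ × ℕ × ℕ := (Denumerable.eqv (ℕ × ℕ × ℕ)).symm
  let C : ℕ → Prop := fun a =>
    ∃ t ∈ T, D (e₂ a).2.2 = D (e₂ a).1 * D (e₂ a).2.1 * M.V t
  let rel : ℕ → Option (ℕ × ℕ × ℕ × M.K) := fun a =>
    if h : C a then some ((e₂ a).1, (e₂ a).2.1, (e₂ a).2.2, ((Classical.choose h : M.Kˣ) : M.K))
    else none
  obtain ⟨x, hx⟩ := hM (fun i => (D i : M.Γ)) rel (by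
    intro m
    -- a finite set of indices
    let I : Finset ℕ := Finset.range m ∪ ((Finset.range m).image fun a => (e₂ a).1) ∪
      ((Finset.range m).image fun a => (e₂ a).2.1) ∪ ((Finset.range m).image fun a => (e₂ a).2.2)
    obtain ⟨f, hf1, hf2⟩ := lift_lemma M.V M.V_surj Δ hT.pure (D '' (I : Set ℕ))
      (I.finite_toSet.image D)
    have ht : ∀ i, ∃ t : M.Kˣ, t ∈ T ∧ (i ∈ I → M.V (f (D i) * t) = D i) := by
      intro i
      by_cases hi : i ∈ I
      · obtain ⟨t, ht, hte⟩ := hf1 (D i) ⟨i, hi, rfl⟩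
        refine ⟨t⁻¹, T.inv_mem ht, fun _ => ?_⟩
        rw [map_mul, map_inv, hte, mul_inv, inv_inv, ← mul_assoc, mul_inv_cancel, one_mul]
      · exact ⟨1, T.one_mem, fun h => absurd h hi⟩
    choose t htT htV using ht
    refine ⟨fun i => ((f (D i) * t i : M.Kˣ) : M.K), fun j hj => ⟨?_, ?_⟩⟩
    · have hjI : j ∈ I := by simp [I, hj]
      have := htV j hjI
      exact congrArg Units.val this
    · intro r hr
      by_cases hC : C j
      · have hr' : r = ((e₂ j).1, (e₂ j).2.1, (e₂ j).2.2, ((Classical.choose hC : M.Kˣ) : M.K)) := by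
          have : rel j = some _ := dif_pos hC
          rw [this] at hr
          exact (Option.some.inj hr).symm
        obtain ⟨hs, hse⟩ := Classical.choose_spec hC
        set s := Classical.choose hC
        set i := (e₂ j).1 with hi
        set i' := (e₂ j).2.1 with hi'
        set l := (e₂ j).2.2 with hl
        have hiI : i ∈ I := by
          simp only [I, Finset.mem_union, Finset.mem_image, Finset.mem_range]
          exact Or.inl (Or.inl (Or.inr ⟨j, hj, rfl⟩))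
        have hi'I : i' ∈ I := by
          simp only [I, Finset.mem_union, Finset.mem_image, Finset.mem_range]
          exact Or.inl (Or.inr ⟨j, hj, rfl⟩)
        have hlI : l ∈ I := by
          simp only [I, Finset.mem_union, Finset.mem_image, Finset.mem_range]
          exact Or.inr ⟨j, hj, rfl⟩
        rw [hr']
        show ((f (D l) * t l : M.Kˣ) : M.K) =
          ((f (D i) * t i : M.Kˣ) : M.K) * ((f (D i') * t i' : M.Kˣ) : M.K) * (s : M.K)
        have h1 : f (D l) = f (D i) * f (D i') := by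
          refine hf2 _ ⟨i, hiI, rfl⟩ _ ⟨i', hi'I, rfl⟩ _ ⟨l, hlI, rfl⟩ ?_
          refine ⟨s⁻¹, T.inv_mem hs, ?_⟩
          rw [hse, map_inv, mul_inv, ← mul_assoc, mul_inv_cancel, one_mul]
        have h2 : t l = t i * t i' * s := by
          apply hT.eq (htT l) (T.mul_mem (T.mul_mem (htT i) (htT i')) hs)
          have a1 := htV l hlI
          have a2 := htV i hiI
          have a3 := htV i' hi'I
          rw [map_mul] at a1 a2 a3
          have b1 : M.V (t l) = (M.V (f (D l)))⁻¹ * D l := eq_inv_mul_of_mul_eq a1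
          have b2 : M.V (t i) = (M.V (f (D i)))⁻¹ * D i := eq_inv_mul_of_mul_eq a2
          have b3 : M.V (t i') = (M.V (f (D i')))⁻¹ * D i' := eq_inv_mul_of_mul_eq a3
          rw [map_mul, map_mul, b1, b2, b3, h1, hse, map_mul, mul_inv]
          have : ∀ a b c d e : M.Γˣ, a * b * (c * d * e) = a * c * (b * d) * e := by
            intro a b c d e
            rw [← mul_assoc, ← mul_assoc, mul_assoc a b c, mul_comm b c, ← mul_assoc,
              mul_assoc (a * c)]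
          exact this _ _ _ _ _
        rw [← Units.val_mul, ← Units.val_mul, h1, h2]
        congr 1
        have : ∀ a b c d e : M.Kˣ, a * b * (c * d * e) = a * c * (b * d) * e := by
          intro a b c d e
          rw [← mul_assoc, ← mul_assoc, mul_assoc a b c, mul_comm b c, ← mul_assoc,
            mul_assoc (a * c)]
        exact this _ _ _ _ _
      · have : rel j = none := dif_neg hC
        rw [this] at hr
        exact absurd hr (by simp))
  have hx0 : ∀ i, x i ≠ 0 := by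
    intro i h
    have h1 := (hx i).1
    rw [h, map_zero] at h1
    exact (D i).ne_zero h1.symm
  let X : ℕ → M.Kˣ := fun i => Units.mk0 (x i) (hx0 i)
  have hXV : ∀ i, M.V (X i) = D i := fun i => Units.ext (hx i).1
  have hrel : ∀ i j l, ∀ t ∈ T, D l = D i * D j * M.V t → X l = X i * X j * t := by
    intro i j l t ht hD
    set a := e₂.symm (i, j, l) with ha
    have hea : e₂ a = (i, j, l) := by rw [ha, Equiv.apply_symm_apply]
    have hC : C a := ⟨t, ht, by rw [hea]; exact hD⟩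
    obtain ⟨hs, hse⟩ := Classical.choose_spec hC
    have hst : Classical.choose hC = t := by
      obtain ⟨c, hc⟩ : ∃ c, c = Classical.choose hC := ⟨_, rfl⟩
      rw [← hc] at hs hse ⊢
      apply hT.eq hs ht
      rw [hea] at hse
      have h3 : D i * D j * M.V c = D i * D j * M.V t := by
        rw [← hD]; exact hse.symm
      exact mul_left_cancel h3
    have h2 := (hx a).2 _ (dif_pos hC)
    rw [hst, hea] at h2
    exact Units.ext h2
  have hXT : ∀ i, D i ∈ Δ → X i ∈ T := by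
    rintro i ⟨t, ht, hte⟩
    have h1 := hrel i i i t⁻¹ (T.inv_mem ht) (by rw [map_inv, hte]; simp)
    have h2 : X i = t := by
      have h3 : X i * (X i * t⁻¹) = X i * 1 := by rw [← mul_assoc, ← h1, mul_one]
      have h4 := mul_left_cancel h3
      exact mul_inv_eq_one.1 h4
    rw [h2]; exact ht
  obtain ⟨o, ho⟩ := hD2 1 (pcl Δ g₀).one_mem
  have hoΔ : D o ∈ Δ := by
    rw [one_mul] at ho
    have := Δ.inv_mem ho
    rwa [inv_inv] at this
  have hoT := hXT o hoΔ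
  have hmul : ∀ i j, ∃ l, ∃ t ∈ T, X i * X j = X l * t := by
    intro i j
    obtain ⟨l, t, ht, hte⟩ := hD2 (D i * D j) ((pcl Δ g₀).mul_mem (hD1 i) (hD1 j))
    refine ⟨l, t, ht, ?_⟩
    have h1 := hrel i j l t⁻¹ (T.inv_mem ht) (by
      rw [map_inv, hte, mul_inv, inv_inv, ← mul_assoc, mul_inv_cancel, one_mul])
    rw [h1, inv_mul_cancel_right]
  have hinv : ∀ i, ∃ l, ∃ t ∈ T, (X i)⁻¹ = X l * t := by
    intro i
    obtain ⟨j, hj⟩ := hD2 (D i)⁻¹ ((pcl Δ g₀).inv_mem (hD1 i))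
    have h1 : D i * D j ∈ Δ := by
      have := Δ.inv_mem hj
      rwa [mul_inv, inv_inv, inv_inv] at this
    obtain ⟨t, ht, hte⟩ := Δ.mul_mem hoΔ (Δ.inv_mem h1)
    have h2 := hrel i j o t ht (by
      rw [hte, mul_comm (D o), ← mul_assoc, mul_inv_cancel, one_mul])
    refine ⟨j, t * (X o)⁻¹, T.mul_mem ht (T.inv_mem hoT), ?_⟩
    rw [h2]
    have : ∀ a b c : M.Kˣ, a⁻¹ = b * (c * (a * b * c)⁻¹) := by
      intro a b c
      rw [mul_inv, mul_inv, ← mul_assoc, mul_comm (a⁻¹ * b⁻¹) c⁻¹, ← mul_assoc, mul_assoc b c,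
        mul_inv_cancel, mul_one, ← mul_assoc, mul_comm b a⁻¹, mul_assoc, mul_inv_cancel, mul_one]
    exact this _ _ _
  let T' : Subgroup M.Kˣ :=
    { carrier := {y | ∃ i, ∃ t ∈ T, y = X i * t}
      mul_mem' := by
        rintro _ _ ⟨i, t, ht, rfl⟩ ⟨j, s, hs, rfl⟩
        obtain ⟨l, r, hr, hlr⟩ := hmul i j
        refine ⟨l, r * (t * s), T.mul_mem hr (T.mul_mem ht hs), ?_⟩
        rw [mul_mul_mul_comm, hlr, mul_assoc]
      one_mem' := ⟨o, (X o)⁻¹, T.inv_mem hoT, by rw [mul_inv_cancel]⟩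
      inv_mem' := by
        rintro _ ⟨i, t, ht, rfl⟩
        obtain ⟨l, r, hr, hlr⟩ := hinv i
        exact ⟨l, r * t⁻¹, T.mul_mem hr (T.inv_mem ht), by rw [mul_inv, hlr, mul_assoc]⟩ }
  have hTT' : T ≤ T' := fun t ht =>
    ⟨o, (X o)⁻¹ * t, T.mul_mem (T.inv_mem hoT) ht, by rw [← mul_assoc, mul_inv_cancel, one_mul]⟩
  have hmap : T'.map M.V = pcl Δ g₀ := by
    ext δ
    constructor
    · rintro ⟨_, ⟨i, t, ht, rfl⟩, rfl⟩
      rw [map_mul, hXV]
      exact (pcl Δ g₀).mul_mem (hD1 i) (le_pcl Δ g₀ ⟨t, ht, rfl⟩)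
    · intro hδ
      obtain ⟨i, t, ht, hte⟩ := hD2 δ hδ
      refine ⟨X i * t, ⟨i, t, ht, rfl⟩, ?_⟩
      rw [map_mul, hXV, hte, mul_comm δ, ← mul_assoc, mul_inv_cancel, one_mul]
  refine ⟨T', hTT', ⟨?_, ?_⟩, ?_⟩
  · rintro _ ⟨i, t, ht, rfl⟩ h
    rw [map_mul, hXV] at h
    have h1 : D i ∈ Δ := by
      refine ⟨t⁻¹, T.inv_mem ht, ?_⟩
      rw [map_inv]
      exact (eq_inv_of_mul_eq_one_left h).symm
    exact hT.inj _ (T.mul_mem (hXT i h1) ht) (by rw [map_mul, hXV]; exact h)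
  · intro g n hn h
    rw [hmap] at h ⊢
    exact pcl_pure Δ g₀ g n hn h
  · rw [hmap]; exact self_mem_pcl Δ g₀

/-- the ultrapower has a cross-section -/
theorem exists_CS (M : VM.{u}) (hM : SeqSat M) : Nonempty (CS M) := by
  classical
  have hbot : PS M ⊥ := by
    refine ⟨fun t ht _ => Subgroup.mem_bot.1 ht, fun g n hn h => ?_⟩
    rw [Subgroup.map_bot, Subgroup.mem_bot] at h ⊢
    exact (pow_eq_one_iff.1 h).resolve_right hn
  obtain ⟨T, -, hT⟩ := zorn_le_nonempty₀ {T : Subgroup M.Kˣ | PS M T} (by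
    intro c hc hchain T₀ hT₀
    have hdir : DirectedOn (· ≤ ·) c := hchain.directedOn
    refine ⟨sSup c, ⟨fun t ht h => ?_, fun g n hn h => ?_⟩, fun z hz => le_sSup hz⟩
    · obtain ⟨s, hs, hts⟩ := (Subgroup.mem_sSup_of_directedOn ⟨T₀, hT₀⟩ hdir).1 ht
      exact (hc hs).inj t hts h
    · obtain ⟨t, ht, hte⟩ := h
      obtain ⟨s, hs, hts⟩ := (Subgroup.mem_sSup_of_directedOn ⟨T₀, hT₀⟩ hdir).1 ht
      exact Subgroup.map_mono (le_sSup hs) ((hc hs).pure g n hn ⟨t, hts, hte⟩)) ⊥ hbot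
  have hPS : PS M T := hT.prop
  have htop : ∀ g : M.Γˣ, ∃ t ∈ T, M.V t = g := by
    intro g
    obtain ⟨T', h1, h2, h3⟩ := ps_extend M hM T hPS g
    have : T' ≤ T := hT.le_of_ge h2 h1
    obtain ⟨t, ht, hte⟩ := h3
    exact ⟨t, this ht, hte⟩
  choose s hs hse using htop
  have hmul : ∀ g h, s (g * h) = s g * s h := fun g h =>
    hPS.eq (hs _) (T.mul_mem (hs g) (hs h)) (by rw [map_mul, hse, hse, hse])
  have hone : s 1 = 1 := hPS.eq (hs 1) T.one_mem (by rw [hse, map_one])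
  refine ⟨⟨⟨⟨fun γ => if h : γ = 0 then 0 else (s (Units.mk0 γ h) : M.K), ?_⟩, ?_, ?_⟩, ?_⟩⟩
  · simp
  · have h1 : (1 : M.Γ) ≠ 0 := one_ne_zero
    show (if h : (1 : M.Γ) = 0 then (0 : M.K) else (s (Units.mk0 1 h) : M.K)) = 1
    rw [dif_neg h1, Units.mk0_one, hone, Units.val_one]
  · intro a b
    show (if h : a * b = 0 then (0 : M.K) else (s (Units.mk0 (a * b) h) : M.K)) =
      (if h : a = 0 then (0 : M.K) else (s (Units.mk0 a h) : M.K)) *
      (if h : b = 0 then (0 : M.K) else (s (Units.mk0 b h) : M.K))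
    by_cases ha : a = 0
    · simp [ha]
    · by_cases hb : b = 0
      · simp [hb]
      · rw [dif_neg (mul_ne_zero ha hb), dif_neg ha, dif_neg hb, Units.mk0_mul, hmul, Units.val_mul]
  · intro γ
    show M.v (if h : γ = 0 then (0 : M.K) else (s (Units.mk0 γ h) : M.K)) = γ
    by_cases h : γ = 0
    · rw [dif_pos h, map_zero, h]
    · rw [dif_neg h, ← M.V_coe, hse]; rfl

end Pool.Agent.J6H67.AK
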