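import Pool.Agent.J6H67.AK.StepI

/-!
# Countable closed subfields and the embedding lemma
-/

set_option autoImplicit false

universe u

namespace Pool.Agent.J6H67.AK

open Filter Polynomial

theorem lift_poly {K : Type u} [Field K] (E : Subfield K) (Q : K[X]) (h : ∀ i, Q.coeff i ∈ E) :
    ∃ Q' : E[X], Q'.map E.subtype = Q := by
  have : Q ∈ Polynomial.lifts E.subtype := by
    rw [Polynomial.lifts_iff_coeff_lifts]
    intro i
    exact ⟨⟨_, h i⟩, rfl⟩
  exact this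

/-- countable subfields which are closed under the cross-section and algebraically closed in `K` -/
theorem exists_closed (M : VM.{u}) (S : CS M) (X : Set M.K) (hX : X.Countable) :
    ∃ E : Subfield M.K, (E : Set M.K).Countable ∧ X ⊆ E ∧ (∀ x ∈ E, S.s (M.v x) ∈ E) ∧
      (∀ Q : M.K[X], Q ≠ 0 → (∀ i, Q.coeff i ∈ E) → ∀ b, Q.eval b = 0 → b ∈ E) := by
  classical
  have hcl : ∀ Y : Set M.K, Y.Countable → ((Subfield.closure Y : Subfield M.K) : Set M.K).Countable := by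
    intro Y hY
    rw [← Cardinal.le_aleph0_iff_set_countable] at hY ⊢
    refine (Subfield.cardinalMk_closure_le_max Y).trans (max_le hY le_rfl)
  -- one step
  let Ψ : Subfield M.K → Subfield M.K := fun E => Subfield.closure
    ((E : Set M.K) ∪ ((fun x => S.s (M.v x)) '' (E : Set M.K)) ∪
      ⋃ Q : E[X], ((Q.map E.subtype).rootSet M.K))
  have hΨc : ∀ E : Subfield M.K, (E : Set M.K).Countable → ((Ψ E : Subfield M.K) : Set M.K).Countable := by
    intro E hE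
    apply hcl
    haveI : Countable E := hE.to_subtype
    haveI : Countable E[X] := by
      rw [← Cardinal.mk_le_aleph0_iff]
      refine Polynomial.cardinalMk_le_max.trans (max_le ?_ le_rfl)
      exact Cardinal.mk_le_aleph0_iff.2 inferInstance
    refine (hE.union (hE.image _)).union (Set.countable_iUnion fun Q => ?_)
    exact (Polynomial.rootSet_finite _ _).countable
  have hΨle : ∀ E, E ≤ Ψ E := fun E x hx => Subfield.subset_closure (Or.inl (Or.inl hx))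
  let seq : ℕ → Subfield M.K := fun n => Nat.rec (Subfield.closure X) (fun _ E => Ψ E) n
  have hs0 : seq 0 = Subfield.closure X := rfl
  have hss : ∀ n, seq (n + 1) = Ψ (seq n) := fun n => rfl
  have hseqc : ∀ n, (SetLike.coe (seq n)).Countable := by
    intro n
    induction n with
    | zero => exact hcl X hX
    | succ n ih => exact hΨc _ ih
  have hmono : Monotone seq := monotone_nat_of_le_succ fun n => hΨle _
  have hdir : Directed (· ≤ ·) seq := hmono.directed_le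
  have hmem : ∀ x, x ∈ (⨆ n, seq n) ↔ ∃ n, x ∈ seq n := fun x => Subfield.mem_iSup_of_directed hdir
  refine ⟨⨆ n, seq n, ?_, ?_, ?_, ?_⟩
  · have : ((⨆ n, seq n : Subfield M.K) : Set M.K) = ⋃ n, SetLike.coe (seq n) := by
      ext x
      rw [Set.mem_iUnion]
      exact hmem x
    rw [this]
    exact Set.countable_iUnion hseqc
  · intro x hx
    exact (hmem x).2 ⟨0, Subfield.subset_closure hx⟩
  · intro x hx
    obtain ⟨n, hn⟩ := (hmem x).1 hx
    exact (hmem _).2 ⟨n + 1, Subfield.subset_closure (Or.inl (Or.inr ⟨x, hn, rfl⟩))⟩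
  · intro Q hQ hc b hb
    have hex : ∀ i, ∃ n, Q.coeff i ∈ seq n := fun i => (hmem _).1 (hc i)
    choose ν hν using hex
    let n := (Finset.range (Q.natDegree + 1)).sup ν
    have hcn : ∀ i, Q.coeff i ∈ seq n := by
      intro i
      by_cases hi : i < Q.natDegree + 1
      · exact hmono (Finset.le_sup (f := ν) (Finset.mem_range.2 hi)) (hν i)
      · rw [coeff_eq_zero_of_natDegree_lt (by omega)]
        exact (seq n).zero_mem
    obtain ⟨Q', hQ'⟩ := lift_poly (seq n) Q hcn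
    refine (hmem _).2 ⟨n + 1, Subfield.subset_closure (Or.inr (Set.mem_iUnion.2 ⟨Q', ?_⟩))⟩
    rw [hQ', Polynomial.mem_rootSet]
    exact ⟨hQ, by simpa using hb⟩

section

variable {M N : VM.{u}} {S : CS M} {T : CS N} {gr : Set (M.k × N.k)} {gv : Set (M.Γ × N.Γ)}
  {p : Subring (M.K × N.K)}

/-- the embedding lemma -/
theorem embed (hV : IsV gv) (hR : IsR gr) (hp : PI S T gr gv p) (hsat : PcSat N)
    (E : Subfield M.K) (hEc : (E : Set M.K).Countable) (hE : ∀ z ∈ p, z.1 ∈ E)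
    (hs : ∀ x ∈ E, S.s (M.v x) ∈ E)
    (hac : ∀ Q : M.K[X], Q ≠ 0 → (∀ i, Q.coeff i ∈ E) → ∀ b, Q.eval b = 0 → b ∈ E)
    (hk : ∀ x ∈ E, ∃ l, (M.r x, l) ∈ gr) (hΓ : ∀ x ∈ E, ∃ d, (M.v x, d) ∈ gv) :
    ∃ p' : Subring (M.K × N.K), p ≤ p' ∧ PI S T gr gv p' ∧ (∀ z ∈ p', z.1 ∈ E) ∧
      ∀ x ∈ E, ∃ z ∈ p', z.1 = x := by
  classical
  obtain ⟨q, hpq, hq⟩ := zorn_le_nonempty₀
    {q : Subring (M.K × N.K) | PI S T gr gv q ∧ ∀ z ∈ q, z.1 ∈ E} (by
      intro c hc hchain q₀ hq₀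
      have hdir : DirectedOn (· ≤ ·) c := hchain.directedOn
      have hmem : ∀ z, z ∈ sSup c ↔ ∃ s ∈ c, z ∈ s := fun z =>
        Subring.mem_sSup_of_directedOn ⟨q₀, hq₀⟩ hdir
      refine ⟨sSup c, ⟨⟨fun z hz => ?_, fun z hz => ?_, fun z hz => ?_, fun z hz => ?_⟩,
        fun z hz => ?_⟩, fun z hz => le_sSup hz⟩
      · obtain ⟨s, hs, hzs⟩ := (hmem z).1 hz
        exact (hmem _).2 ⟨s, hs, (hc hs).1.inv z hzs⟩
      · obtain ⟨s, hs, hzs⟩ := (hmem z).1 hz
        exact (hc hs).1.val z hzs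
      · obtain ⟨s, hs, hzs⟩ := (hmem z).1 hz
        exact (hc hs).1.res z hzs
      · obtain ⟨s, hs, hzs⟩ := (hmem z).1 hz
        exact (hmem _).2 ⟨s, hs, (hc hs).1.sec z hzs⟩
      · obtain ⟨s, hs, hzs⟩ := (hmem z).1 hz
        exact (hc hs).2 z hzs) p ⟨hp, hE⟩
  obtain ⟨hqP, hqE⟩ := hq.prop
  have hmax : ∀ q' : Subring (M.K × N.K), q ≤ q' → PI S T gr gv q' → (∀ z ∈ q', z.1 ∈ E) →
      q' ≤ q := fun q' h1 h2 h3 => hq.le_of_ge ⟨h2, h3⟩ h1
  refine ⟨q, hpq, hqP, hqE, ?_⟩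
  -- values
  have hval : ∀ x ∈ E, ∃ z ∈ q, M.v z.1 = M.v x := by
    intro x hx
    by_cases h0 : M.v x = 0
    · exact ⟨0, q.zero_mem, by rw [h0, Prod.fst_zero, map_zero]⟩
    · obtain ⟨d, hd⟩ := hΓ x hx
      obtain ⟨q', h1, h2, h3, z, hz, hzv⟩ := stepV hV hR hqP E hqE hs hd h0 ⟨x, hx, rfl⟩
      exact ⟨z, hmax q' h1 h2 h3 hz, hzv⟩
  -- residues
  have hres : ∀ x ∈ E, M.v x ≤ 1 → ∃ z ∈ q, M.v z.1 ≤ 1 ∧ M.r z.1 = M.r x := by
    intro x hx hx1
    obtain ⟨l, hl⟩ := hk x hx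
    obtain ⟨q', h1, h2, h3, z, hz, hzv, hzr⟩ := stepR hV hR hqP E hqE hac hx hx1 hl
    exact ⟨z, hmax q' h1 h2 h3 hz, hzv, hzr⟩
  intro b hb
  by_contra hc
  push Not at hc
  obtain ⟨q', h1, h2, h3, z, hz, hzq⟩ := stepI hV hR hqP hsat E hEc hqE hac hval hres hb hc
  exact hzq (hmax q' h1 h2 h3 hz)

end

end Pool.Agent.J6H67.AK
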