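import Pool.Agent.J6H67.AK.Lg

/-!
# Extension of maps which preserve formulas with `n` blocks, in ultrapowers
-/

set_option autoImplicit false

universe u

namespace Pool.Agent.J6H67.AK

open Filter

variable {ℓ : Lg}

/-- preservation of the formulas with `n` blocks -/
def Pres {M N : Type u} (m : ℓ.Md M) (m' : ℓ.Md N) (n : ℕ) {X : Type} (x : X → M) (y : X → N) :
    Prop :=
  ∀ φ : Frag ℓ.Q n X, Sg m n φ x → Sg m' n φ y

theorem Pres.swap {M N : Type u} {m : ℓ.Md M} {m' : ℓ.Md N} {n : ℕ} {X : Type} {x : X → M}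
    {y : X → N} (h : Pres m m' (n + 1) x y) : Pres m' m n y x := by
  intro φ hφ
  by_contra hc
  have h1 : Sg m (n + 1) (⟨0, ren n Sum.inl φ⟩ : Frag ℓ.Q (n + 1) X) x := by
    refine ⟨Fin.elim0, ?_⟩
    rw [Sg_ren]
    exact hc
  obtain ⟨z, hz⟩ := h _ h1
  rw [Sg_ren] at hz
  exact hz hφ

theorem Pres.of_sentences {M N : Type u} {m₀ : ℓ.Md M} {m₀' : ℓ.Md N} {m : ℓ.Md (Up M)}
    {m' : ℓ.Md (Up N)} (hM : Los m₀ m) (hN : Los m₀' m') {n : ℕ}
    (h : ∀ φ : Frag ℓ.Q n Empty, Sg m₀ n φ Empty.elim → Sg m₀' n φ Empty.elim) :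
    Pres m m' n (Empty.elim : Empty → Up M) (Empty.elim : Empty → Up N) := by
  intro φ hφ
  have e1 := los hM n φ (Empty.elim : Empty → ℕ → M)
  have e2 := los hN n φ (Empty.elim : Empty → ℕ → N)
  have q1 : (fun i => toUp (Empty.elim i)) = (Empty.elim : Empty → Up M) :=
    funext fun i => i.elim
  have q2 : (fun i => toUp (Empty.elim i)) = (Empty.elim : Empty → Up N) :=
    funext fun i => i.elim
  rw [q1] at e1
  rw [q2] at e2
  rw [e2]
  rw [e1] at hφ
  filter_upwards [hφ] with j hj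
  have r1 : (fun i => (Empty.elim : Empty → ℕ → M) i j) = (Empty.elim : Empty → M) :=
    funext fun i => i.elim
  have r2 : (fun i => (Empty.elim : Empty → ℕ → N) i j) = (Empty.elim : Empty → N) :=
    funext fun i => i.elim
  rw [r1] at hj
  rw [r2]
  exact h φ hj

theorem Pres.extend {M N : Type u} [Nonempty M] [Nonempty N] {m : ℓ.Md M} {m₀' : ℓ.Md N}
    {m' : ℓ.Md (Up N)} (hN : Los m₀' m') {n : ℕ} {X : Type} [Countable X] {x : X → M}
    {y : X → Up N} (h : Pres m m' (n + 1) x y) (s : ℕ → M) :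
    ∃ t : ℕ → Up N, Pres m m' (n + 1) (Sum.elim x s) (Sum.elim y t) := by
  classical
  let T : Type := {φ : Frag ℓ.Q (n + 1) (X ⊕ ℕ) // Sg m (n + 1) φ (Sum.elim x s)}
  by_cases hne : Nonempty T
  swap
  · haveI : Nonempty (Up N) := ⟨toUp fun _ => Classical.arbitrary N⟩
    refine ⟨fun _ => Classical.arbitrary _, fun φ hφ => absurd ⟨(⟨φ, hφ⟩ : T)⟩ hne⟩
  haveI : Countable (Frag ℓ.Q (n + 1) (X ⊕ ℕ)) := frag_countable _ inferInstance
  haveI : Countable T := inferInstance
  obtain ⟨e, he⟩ := exists_surjective_nat T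
  let A : ℕ → ℕ → Set (ℕ → N) := fun j i =>
    {b | Sg m₀' (n + 1) (e j).1 (Sum.elim (fun k => rep (y k) i) b)}
  let c : ℕ → Frag ℓ.Q (n + 1) (X ⊕ ℕ) := fun p =>
    Nat.rec (e 0).1 (fun p ψ => comb (n + 1) true ψ (e (p + 1)).1) p
  have hc0 : c 0 = (e 0).1 := rfl
  have hcs : ∀ p, c (p + 1) = comb (n + 1) true (c p) (e (p + 1)).1 := fun p => rfl
  have hc : ∀ {A : Type u} [Nonempty A] (mA : ℓ.Md A) (z : X ⊕ ℕ → A) (p : ℕ),
      Sg mA (n + 1) (c p) z ↔ ∀ j ≤ p, Sg mA (n + 1) (e j).1 z := by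
    intro A _ mA z p
    induction p with
    | zero =>
      rw [hc0]
      constructor
      · intro h j hj
        rw [Nat.le_zero.1 hj]; exact h
      · intro h; exact h 0 le_rfl
    | succ p ih =>
      rw [hcs, Sg_comb, if_pos rfl, ih]
      constructor
      · rintro ⟨h1, h2⟩ j hj
        rcases Nat.of_le_succ hj with hj | rfl
        · exact h1 j hj
        · exact h2
      · intro h
        exact ⟨fun j hj => h j (Nat.le_succ_of_le hj), h _ le_rfl⟩
  have key : ∀ p : ℕ, ∀ᶠ i in (UU : Filter ℕ), ∃ b, ∀ j < p, b ∈ A j i := by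
    intro p
    have h1 : Sg m (n + 1) (c p) (Sum.elim x s) := (hc m _ p).2 fun j _ => (e j).2
    obtain ⟨F, hF⟩ := Sg_supp m (n + 1) (c p)
    -- a bound for the indices
    let q : ℕ := F.toRight.sup id + 1
    have hq : ∀ i, Sum.inr i ∈ F → i < q := by
      intro i hi
      have : i ≤ F.toRight.sup id := Finset.le_sup (f := id) (by simpa using hi)
      omega
    let ρ : X ⊕ ℕ → X ⊕ Fin q := Sum.map id (fun i => if hi : i < q then ⟨i, hi⟩ else ⟨0, by omega⟩)
    have h2 : Sg m (n + 1) (exq n q (ren (n + 1) ρ (c p))) x := by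
      rw [Sg_exq]
      refine ⟨fun i => s i, ?_⟩
      rw [Sg_ren]
      rw [hF _ (Sum.elim x s)]
      · exact h1
      · rintro (i | i) hi
        · rfl
        · have := hq i hi
          simp [ρ, this]
    have h3 := h _ h2
    rw [Sg_exq] at h3
    obtain ⟨z, hz⟩ := h3
    rw [Sg_ren] at hz
    let b : ℕ → Up N := fun i => z (if hi : i < q then ⟨i, hi⟩ else ⟨0, by omega⟩)
    have e1 : Sum.elim y z ∘ ρ = fun i => toUp (Sum.elim (fun k => rep (y k)) (fun k => rep (b k)) i) := by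
      ext i
      rcases i with i | i
      · simp [ρ]
      · simp [ρ, b]
    rw [e1, los hN] at hz
    filter_upwards [hz] with i hi
    refine ⟨fun k => rep (b k) i, fun j hj => ?_⟩
    have e2 : (fun l => Sum.elim (fun k => rep (y k)) (fun k => rep (b k)) l i) =
        Sum.elim (fun k => rep (y k) i) (fun k => rep (b k) i) := by
      ext l; rcases l with l | l <;> rfl
    rw [e2, hc] at hi
    exact hi j hj.le
  obtain ⟨t, ht⟩ := sat A key
  refine ⟨fun k => toUp fun i => t i k, fun φ hφ => ?_⟩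
  obtain ⟨j, hj⟩ := he ⟨φ, hφ⟩
  have h4 := ht j
  have e3 : (Sum.elim y (fun k => toUp fun i => t i k)) =
      fun l => toUp (Sum.elim (fun k => rep (y k)) (fun k i => t i k) l) := by
    ext l; rcases l with l | l <;> simp
  rw [e3, los hN]
  filter_upwards [h4] with i hi
  have e4 : (fun l => Sum.elim (fun k => rep (y k)) (fun k i => t i k) l i) =
        Sum.elim (fun k => rep (y k) i) (t i) := by
      ext l; rcases l with l | l <;> rfl
  rw [e4]
  have : (e j).1 = φ := by rw [hj]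
  rw [← this]
  exact hi

end Pool.Agent.J6H67.AK
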