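import Pool.Agent.J6H67.AK.Main

/-!
# The transfer principle for all standard fragments
-/

set_option autoImplicit false

universe u

namespace Pool.Agent.J6H67.AK

open Filter Polynomial

/-! ### the prime field -/

theorem VM.charZero (M : VM.{u}) : CharZero M.K := by
  apply charZero_of_inj_zero
  intro n hn
  by_contra h0
  have := M.v_nat n (Nat.pos_of_ne_zero h0)
  rw [hn, map_zero] at this
  exact zero_ne_one this

theorem VM.charZero' (M : VM.{u}) : CharZero M.k := by
  apply charZero_of_inj_zero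
  intro n hn
  by_contra h0
  exact M.char n (Nat.pos_of_ne_zero h0) hn

theorem VM.v_rat (M : VM.{u}) (q : ℚ) (hq : q ≠ 0) : M.v (q : M.K) = 1 := by
  have h1 : M.v ((q.num : ℤ) : M.K) = 1 := by
    have h := M.v_nat q.num.natAbs (Int.natAbs_pos.2 (Rat.num_ne_zero.2 hq))
    rcases Int.natAbs_eq q.num with e | e
    · rw [e, Int.cast_natCast]; exact h
    · rw [e, Int.cast_neg, Int.cast_natCast, Valuation.map_neg]; exact h
  rw [Rat.cast_def, map_div₀, h1, M.v_nat _ q.den_pos, div_one]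

theorem VM.r_int (M : VM.{u}) (n : ℤ) : M.r (n : M.K) = n := by
  have hle : ∀ n : ℤ, M.v (n : M.K) ≤ 1 := by
    intro n
    rcases Int.natAbs_eq n with e | e
    · rw [e, Int.cast_natCast]; exact M.v_nat_le _
    · rw [e, Int.cast_neg, Int.cast_natCast, Valuation.map_neg]; exact M.v_nat_le _
  rcases Int.natAbs_eq n with e | e
  · rw [e, Int.cast_natCast, Int.cast_natCast]; exact M.r_nat _
  · rw [e, Int.cast_neg, Int.cast_natCast, Int.cast_neg, Int.cast_natCast]
    have h := M.r_add ((n.natAbs : ℕ) : M.K) (-((n.natAbs : ℕ) : M.K)) (M.v_nat_le _)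
      (by rw [Valuation.map_neg]; exact M.v_nat_le _)
    rw [add_neg_cancel, M.r_zero, M.r_nat] at h
    exact (neg_eq_of_add_eq_zero_right h.symm).symm

theorem VM.r_rat (M : VM.{u}) (q : ℚ) : M.r (q : M.K) = q := by
  haveI := M.charZero
  haveI := M.charZero'
  by_cases hq : q = 0
  · rw [hq, Rat.cast_zero, Rat.cast_zero]; exact M.r_zero
  · have h := M.r_mul (q : M.K) (q.den : M.K) (M.v_rat q hq).le (M.v_nat_le _)
    have e : (q : M.K) * (q.den : M.K) = (q.num : M.K) := by
      rw [Rat.cast_def]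
      exact div_mul_cancel₀ _ (by exact_mod_cast q.den_ne_zero)
    rw [e, M.r_int, M.r_nat] at h
    rw [Rat.cast_def q (K := M.k), h]
    exact (mul_div_cancel_right₀ _ (by exact_mod_cast q.den_ne_zero)).symm

/-- the prime field -/
noncomputable def prim (M N : VM.{u}) : Subring (M.K × N.K) :=
  haveI := M.charZero
  haveI := N.charZero
  ((Rat.castHom M.K).prod (Rat.castHom N.K)).range

theorem mem_prim {M N : VM.{u}} {z : M.K × N.K} : z ∈ prim M N ↔ ∃ q : ℚ, ((q : M.K), (q : N.K)) = z :=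
  Iff.rfl

theorem rat_mem {M N : VM.{u}} {gr : Set (M.k × N.k)} (hR : IsR gr) (q : ℚ) :
    ((q : M.k), (q : N.k)) ∈ gr := by
  have hn : ∀ n : ℕ, ((n : M.k), (n : N.k)) ∈ gr := by
    intro n
    induction n with
    | zero => rw [Nat.cast_zero, Nat.cast_zero]; exact hR.zero
    | succ n ih => rw [Nat.cast_succ, Nat.cast_succ]; exact hR.add _ ih _ hR.one
  have hi : ∀ n : ℤ, ((n : M.k), (n : N.k)) ∈ gr := by
    intro n
    obtain ⟨m, rfl | rfl⟩ := n.eq_nat_or_neg
    · rw [Int.cast_natCast, Int.cast_natCast]; exact hn m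
    · rw [Int.cast_neg, Int.cast_neg, Int.cast_natCast, Int.cast_natCast]
      exact hR.neg _ (hn m)
  have h := hR.mul _ (hi q.num) _ (hR.inv _ (hn q.den))
  rw [Rat.cast_def, Rat.cast_def, div_eq_mul_inv, div_eq_mul_inv]
  exact h

theorem pi_prim {M N : VM.{u}} (S : CS M) (T : CS N) {gr : Set (M.k × N.k)}
    {gv : Set (M.Γ × N.Γ)} (hR : IsR gr) (hV : IsV gv) : PI S T gr gv (prim M N) where
  inv := by
    rintro _ ⟨q, rfl⟩
    exact ⟨q⁻¹, by
      haveI := M.charZero
      haveI := N.charZero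
      simp⟩
  val := by
    rintro _ ⟨q, rfl⟩
    show (M.v (q : M.K), N.v (q : N.K)) ∈ gv
    by_cases hq : q = 0
    · rw [hq, Rat.cast_zero, Rat.cast_zero, map_zero, map_zero]; exact hV.zero
    · rw [M.v_rat q hq, N.v_rat q hq]; exact hV.one
  res := by
    rintro _ ⟨q, rfl⟩
    show (M.r (q : M.K), N.r (q : N.K)) ∈ gr
    rw [M.r_rat, N.r_rat]
    exact rat_mem hR q
  sec := by
    rintro _ ⟨q, rfl⟩
    show (S.s (M.v (q : M.K)), T.s (N.v (q : N.K))) ∈ prim M N
    by_cases hq : q = 0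
    · rw [hq, Rat.cast_zero, Rat.cast_zero, map_zero, map_zero, map_zero, map_zero]
      exact (prim M N).zero_mem
    · rw [M.v_rat q hq, N.v_rat q hq, map_one, map_one]
      exact (prim M N).one_mem

theorem prim_countable (M N : VM.{u}) : (prim M N : Set (M.K × N.K)).Countable := by
  have : (prim M N : Set (M.K × N.K)) = Set.range fun q : ℚ => ((q : M.K), (q : N.K)) := by
    ext z; exact mem_prim
  rw [this]
  exact Set.countable_range _

/-! ### transfer -/

theorem SgV_empty (M : VM.{u}) (n : ℕ) (φ : VFrag n Empty Empty Empty) {x x' : Empty → M.K}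
    {y y' : Empty → M.k} {z z' : Empty → M.Γ} (h : SgV M n φ x y z) : SgV M n φ x' y' z' := by
  have h1 : x' = x := funext fun i => i.elim
  have h2 : y' = y := funext fun i => i.elim
  have h3 : z' = z := funext fun i => i.elim
  rw [h1, h2, h3]; exact h

theorem transfer (n : ℕ) (M N : VM.{u})
    (hk : ∀ φ : Frag RQF n Empty, Sg (ringMd M.k) n φ Empty.elim → Sg (ringMd N.k) n φ Empty.elim)
    (hΓ : ∀ φ : Frag GQF n Empty,
      Sg (groupMd M.Γˣ) n φ Empty.elim → Sg (groupMd N.Γˣ) n φ Empty.elim)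
    (φ : VFrag n Empty Empty Empty) (h : SgV M n φ Empty.elim Empty.elim Empty.elim) :
    SgV N n φ Empty.elim Empty.elim Empty.elim := by
  obtain ⟨S⟩ := exists_CS M.up (up_seqSat M)
  obtain ⟨T⟩ := exists_CS N.up (up_seqSat N)
  have hR : GoodR n M.up.k N.up.k _ := goodR_of_pres n _ _
    (Pres.of_sentences (los_ring M.k) (los_ring N.k) hk)
  have hV : GoodV n M.up.Γ N.up.Γ _ := goodV_of_pres n _ _
    (Pres.of_sentences (los_group M.Γˣ) (los_group N.Γˣ) hΓ)
  have hb := main_bf n (up_pcSat M) (up_pcSat N) hR hV (pi_prim S T hR.isR hV.isV)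
    (prim_countable _ _) φ Empty.elim Empty.elim Empty.elim (fun i => i.elim) (fun i => i.elim)
    (fun i => i.elim)
  have l1 := losV M n φ Empty.elim Empty.elim Empty.elim
  have l2 := losV N n φ Empty.elim Empty.elim Empty.elim
  have h2 := l1.2 (Eventually.of_forall fun j => SgV_empty M n φ h)
  have h3 := hb (SgV_empty M.up n φ h2)
  have h4 := l2.1 (SgV_empty N.up n φ h3)
  obtain ⟨j, hj⟩ := h4.exists
  exact SgV_empty N n φ hj

/-! ### the last block is existential -/

/-- negation of the quantifier-free part -/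
def negQ (ℓ : Lg) : (n : ℕ) → {X : Type} → Frag ℓ.Q n X → Frag ℓ.Q n X
  | 0, _, φ => ℓ.neg φ
  | n + 1, _, ⟨a, φ⟩ => ⟨a, negQ ℓ n φ⟩

section

variable {ℓ : Lg} {M : Type u} (m : ℓ.Md M)

theorem Sg_negQ : (n : ℕ) → {X : Type} → (φ : Frag ℓ.Q n X) → (x : X → M) →
    (Sg m n (negQ ℓ n (negQ ℓ n φ)) x ↔ Sg m n φ x)
  | 0, _, φ, x => by
    have : ∀ φ : ℓ.Q _, m.H x (ℓ.neg (ℓ.neg φ)) ↔ m.H x φ := by
      intro φ
      rw [m.neg, m.neg, not_not]
    exact this φ
  | n + 1, _, ⟨a, φ⟩, x => by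
    simp only [negQ, Sg, Sg_negQ n]

theorem holds_iff : (n : ℕ) → {X : Type} → (φ : Frag ℓ.Q n X) → (x : X → M) →
    (Frag.Holds m.H n φ x ↔ if Odd n then Sg m n (negQ ℓ n φ) x else ¬ Sg m n (negQ ℓ n φ) x)
  | 0, _, φ, x => by
    have h1 : ¬ Odd 0 := by decide
    rw [if_neg h1]
    have : ∀ φ : ℓ.Q _, m.H x φ ↔ ¬ m.H x (ℓ.neg φ) := by
      intro φ
      rw [m.neg, not_not]
    exact this φ
  | n + 1, _, ⟨a, φ⟩, x => by
    simp only [negQ, Sg, Frag.Holds]
    by_cases hn : Odd n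
    · have hn' : ¬ Odd (n + 1) := by rw [Nat.odd_add_one]; exact not_not.2 hn
      rw [if_neg hn', if_neg hn']
      push Not
      refine forall_congr' fun x' => ?_
      rw [holds_iff n, if_pos hn]
    · have hn' : Odd (n + 1) := by rw [Nat.odd_add_one]; exact hn
      rw [if_pos hn', if_pos hn']
      refine exists_congr fun x' => ?_
      rw [holds_iff n, if_neg hn]

theorem incl_iff {N : Type u} (m' : ℓ.Md N) (n : ℕ) :
    (∀ φ : Frag ℓ.Q n Empty, Frag.Holds m.H n φ Empty.elim → Frag.Holds m'.H n φ Empty.elim) ↔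
    (if Odd n then
      (∀ φ : Frag ℓ.Q n Empty, Sg m n φ Empty.elim → Sg m' n φ Empty.elim)
    else (∀ φ : Frag ℓ.Q n Empty, Sg m' n φ Empty.elim → Sg m n φ Empty.elim)) := by
  by_cases hn : Odd n
  · rw [if_pos hn]
    constructor
    · intro h φ hφ
      have := h (negQ ℓ n φ)
      rw [holds_iff, holds_iff, if_pos hn, if_pos hn, Sg_negQ, Sg_negQ] at this
      exact this hφ
    · intro h φ
      rw [holds_iff, holds_iff, if_pos hn, if_pos hn]
      exact h _
  · rw [if_neg hn]
    constructor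
    · intro h φ hφ
      have := h (negQ ℓ n φ)
      rw [holds_iff, holds_iff, if_neg hn, if_neg hn, Sg_negQ, Sg_negQ] at this
      by_contra hc
      exact this hc hφ
    · intro h φ
      rw [holds_iff, holds_iff, if_neg hn, if_neg hn]
      exact fun h1 h2 => h1 (h _ h2)

end

/-- negation of the quantifier-free part -/
def negV : (n : ℕ) → {X Y Z : Type} → VFrag n X Y Z → VFrag n X Y Z
  | 0, _, _, _, φ => VQF.not φ
  | n + 1, _, _, _, ⟨a, b, c, φ⟩ => ⟨a, b, c, negV n φ⟩

theorem holdsV_iff (M : VM.{u}) : (n : ℕ) → {X Y Z : Type} → (φ : VFrag n X Y Z) →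
    (x : X → M.K) → (y : Y → M.k) → (z : Z → M.Γ) →
    (VFrag.Holds M.r M.v n φ x y z ↔
      if Odd n then SgV M n (negV n φ) x y z else ¬ SgV M n (negV n φ) x y z)
  | 0, _, _, _, φ, x, y, z => by
    have h1 : ¬ Odd 0 := by decide
    rw [if_neg h1]
    have : ∀ φ : VQF _ _ _, VQF.Holds M.r M.v x y z φ ↔ ¬ VQF.Holds M.r M.v x y z (VQF.not φ) := by
      intro φ
      exact not_not.symm
    exact this φ
  | n + 1, _, _, _, ⟨a, b, c, φ⟩, x, y, z => by
    simp only [negV, SgV, VFrag.Holds]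
    by_cases hn : Odd n
    · have hn' : ¬ Odd (n + 1) := by rw [Nat.odd_add_one]; exact not_not.2 hn
      rw [if_neg hn', if_neg hn']
      push Not
      refine forall_congr' fun x' => forall_congr' fun y' => forall_congr' fun z' => ?_
      rw [holdsV_iff M n, if_pos hn]
    · have hn' : Odd (n + 1) := by rw [Nat.odd_add_one]; exact hn
      rw [if_pos hn', if_pos hn']
      refine exists_congr fun x' => exists_congr fun y' => exists_congr fun z' => ?_
      rw [holdsV_iff M n, if_neg hn]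

/-- the transfer principle for the standard fragments -/
theorem fragments {K L : Type u} [Field K] [Field L] (O : ValuationSubring K)
    (P : ValuationSubring L) [HenselianLocalRing O] [HenselianLocalRing P]
    [CharZero (IsLocalRing.ResidueField O)] [CharZero (IsLocalRing.ResidueField P)] (n : ℕ)
    (hk : ringTh n (IsLocalRing.ResidueField O) ⊆ ringTh n (IsLocalRing.ResidueField P))
    (hΓ : groupTh n (O.ValueGroup)ˣ ⊆ groupTh n (P.ValueGroup)ˣ) : valTh O n ⊆ valTh P n := by
  set M : VM.{u} := VM.of O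
  set N : VM.{u} := VM.of P
  have hk' := (incl_iff (ringMd M.k) (ringMd N.k) n).1 (fun φ h => hk h)
  have hΓ' := (incl_iff (groupMd M.Γˣ) (groupMd N.Γˣ) n).1 (fun φ h => hΓ h)
  intro φ hφ
  have h1 : VFrag.Holds M.r M.v n φ Empty.elim Empty.elim Empty.elim := hφ
  show VFrag.Holds N.r N.v n φ Empty.elim Empty.elim Empty.elim
  rw [holdsV_iff] at h1 ⊢
  by_cases hn : Odd n
  · rw [if_pos hn] at h1 hk' hΓ' ⊢
    exact transfer n M N hk' hΓ' _ h1
  · rw [if_neg hn] at h1 hk' hΓ' ⊢
    exact fun h2 => h1 (transfer n N M hk' hΓ' _ h2)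

end Pool.Agent.J6H67.AK
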