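import Pool.Agent.J6H67.AK.LosC

/-!
# Back and forth in ultrapowers of fields and of ordered groups
-/

set_option autoImplicit false

universe u

namespace Pool.Agent.J6H67.AK

open Filter

/-! ### fields -/

/-- the graph of an isomorphism between subfields -/
structure IsR {k l : Type u} [Field k] [Field l] (g : Set (k × l)) : Prop where
  one : ((1, 1) : k × l) ∈ g
  add : ∀ z ∈ g, ∀ w ∈ g, z + w ∈ g
  neg : ∀ z ∈ g, - z ∈ g
  mul : ∀ z ∈ g, ∀ w ∈ g, z * w ∈ g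
  inv : ∀ z ∈ g, z⁻¹ ∈ g
  eq0 : ∀ z ∈ g, (z.1 = 0 ↔ z.2 = 0)

/-- `n` rounds of back and forth, starting in the first structure -/
def GoodR : ℕ → (k l : Type u) → [Field k] → [Field l] → Set (k × l) → Prop
  | 0, _, _, _, _, g => IsR g
  | n + 1, k, l, _, _, g => IsR g ∧ ∀ S : Set k, S.Countable → ∃ g' : Set (k × l), g ⊆ g' ∧
      (∀ a ∈ S, ∃ b, (a, b) ∈ g') ∧ GoodR n l k (Prod.swap ⁻¹' g')

theorem IsR.swap {k l : Type u} [Field k] [Field l] {g : Set (k × l)} (h : IsR g) :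
    IsR (Prod.swap ⁻¹' g) where
  one := h.one
  add z hz w hw := h.add _ hz _ hw
  neg z hz := h.neg _ hz
  mul z hz w hw := h.mul _ hz _ hw
  inv z hz := h.inv _ hz
  eq0 z hz := (h.eq0 _ hz).symm

theorem GoodR.isR {n : ℕ} {k l : Type u} [Field k] [Field l] {g : Set (k × l)}
    (h : GoodR n k l g) : IsR g := by
  cases n with
  | zero => exact h
  | succ n => exact h.1

theorem GoodR.mono {n : ℕ} {k l : Type u} [Field k] [Field l] {g g' : Set (k × l)}
    (h : GoodR n k l g) (hg : g' ⊆ g) (h' : IsR g') : GoodR n k l g' := by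
  cases n with
  | zero => exact h'
  | succ n =>
    refine ⟨h', fun S hS => ?_⟩
    obtain ⟨g₁, h₁, h₂, h₃⟩ := h.2 S hS
    exact ⟨g₁, hg.trans h₁, h₂, h₃⟩

/-- the graph of the isomorphism between the generated subfields -/
def clR {k l : Type u} [Field k] [Field l] {X : Type} (x : X → k) (y : X → l) : Set (k × l) :=
  {z | ∃ s t : RTm X, t.eval x ≠ 0 ∧ t.eval y ≠ 0 ∧ z = (s.eval x / t.eval x, s.eval y / t.eval y)}

theorem clR_swap {k l : Type u} [Field k] [Field l] {X : Type} (x : X → k) (y : X → l) :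
    Prod.swap ⁻¹' (clR x y) = clR y x := by
  ext ⟨a, b⟩
  simp only [clR, Set.mem_preimage, Set.mem_setOf_eq, Prod.swap_prod_mk, Prod.mk.injEq]
  constructor
  · rintro ⟨s, t, h1, h2, h3, h4⟩; exact ⟨s, t, h2, h1, h4, h3⟩
  · rintro ⟨s, t, h1, h2, h3, h4⟩; exact ⟨s, t, h2, h1, h4, h3⟩

theorem isR_clR {k l : Type u} [Field k] [Field l] {X : Type} (x : X → k) (y : X → l)
    (h : ∀ t : RTm X, t.eval x = 0 ↔ t.eval y = 0) : IsR (clR x y) where
  one := ⟨.one, .one, by simp [RTm.eval], by simp [RTm.eval], by simp [RTm.eval]⟩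
  add := by
    rintro _ ⟨s, t, h1, h2, rfl⟩ _ ⟨s', t', h1', h2', rfl⟩
    refine ⟨.add (.mul s t') (.mul t s'), .mul t t', ?_, ?_, ?_⟩
    · simp [RTm.eval, h1, h1']
    · simp [RTm.eval, h2, h2']
    · simp only [RTm.eval, Prod.mk_add_mk]
      rw [div_add_div _ _ h1 h1', div_add_div _ _ h2 h2']
  neg := by
    rintro _ ⟨s, t, h1, h2, rfl⟩
    refine ⟨.neg s, t, h1, h2, ?_⟩
    simp only [RTm.eval, Prod.neg_mk, neg_div]
  mul := by
    rintro _ ⟨s, t, h1, h2, rfl⟩ _ ⟨s', t', h1', h2', rfl⟩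
    refine ⟨.mul s s', .mul t t', ?_, ?_, ?_⟩
    · simp [RTm.eval, h1, h1']
    · simp [RTm.eval, h2, h2']
    · simp only [RTm.eval, Prod.mk_mul_mk, div_mul_div_comm]
  inv := by
    rintro _ ⟨s, t, h1, h2, rfl⟩
    by_cases hs : s.eval x = 0
    · have hs' := (h s).1 hs
      refine ⟨.zero, .one, by simp [RTm.eval], by simp [RTm.eval], ?_⟩
      simp [RTm.eval, hs, hs']
    · have hs' : s.eval y ≠ 0 := fun h' => hs ((h s).2 h')
      refine ⟨t, s, hs, hs', ?_⟩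
      simp [inv_div]
  eq0 := by
    rintro _ ⟨s, t, h1, h2, rfl⟩
    simp only [div_eq_zero_iff, h1, h2, or_false]
    exact h s

section

variable {ℓ : Lg}

theorem Pres.qf_iff {M N : Type u} {m : ℓ.Md M} {m' : ℓ.Md N} {n : ℕ} {X : Type} {x : X → M}
    {y : X → N} (h : Pres m m' n x y) (φ : ℓ.Q X) : m.H x φ ↔ m'.H y φ := by
  induction n generalizing M N with
  | zero =>
    constructor
    · exact fun hφ => h φ hφ
    · intro hφ
      by_contra hc
      exact (m'.neg φ y).1 (h (ℓ.neg φ) ((m.neg φ x).2 hc)) hφ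
  | succ n ih =>
    exact (ih h.swap).symm

end

theorem goodR_of_pres : (n : ℕ) → {k₀ l₀ : Type u} → [Field k₀] → [Field l₀] → {X : Type} →
    [Countable X] → (x : X → Up k₀) → (y : X → Up l₀) →
    (h : Pres (ringMd (Up k₀)) (ringMd (Up l₀)) n x y) → GoodR n (Up k₀) (Up l₀) (clR x y)
  | 0, k₀, l₀, _, _, X, _, x, y, h => isR_clR x y fun t => h.qf_iff (.eq t .zero : RQF X)
  | n + 1, k₀, l₀, _, _, X, _, x, y, h => by
    refine ⟨isR_clR x y fun t => h.qf_iff (.eq t .zero : RQF X), fun S hS => ?_⟩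
    obtain ⟨s, hs⟩ : ∃ s : ℕ → Up k₀, S ⊆ Set.range s := by
      rcases S.eq_empty_or_nonempty with rfl | hne
      · exact ⟨fun _ => 0, Set.empty_subset _⟩
      · obtain ⟨s, hs⟩ := hS.exists_eq_range hne
        exact ⟨s, hs.subset⟩
    obtain ⟨t, ht⟩ := h.extend (los_ring l₀) s
    refine ⟨clR (Sum.elim x s) (Sum.elim y t), ?_, ?_, ?_⟩
    · rintro _ ⟨a, b, h1, h2, rfl⟩
      refine ⟨a.ren Sum.inl, b.ren Sum.inl, ?_, ?_, ?_⟩
      · rw [RTm.eval_ren]; exact h1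
      · rw [RTm.eval_ren]; exact h2
      · simp only [RTm.eval_ren]; rfl
    · intro a ha
      obtain ⟨i, rfl⟩ := hs ha
      exact ⟨t i, .var (Sum.inr i), .one, by simp [RTm.eval], by simp [RTm.eval],
        by simp [RTm.eval]⟩
    · rw [clR_swap]
      exact goodR_of_pres n _ _ ht.swap

/-! ### ordered groups with zero -/

/-- the graph of an isomorphism between ordered subgroups, together with zero -/
structure IsV {Γ Δ : Type u} [LinearOrderedCommGroupWithZero Γ] [LinearOrderedCommGroupWithZero Δ]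
    (g : Set (Γ × Δ)) : Prop where
  zero : ((0, 0) : Γ × Δ) ∈ g
  one : ((1, 1) : Γ × Δ) ∈ g
  mul : ∀ z ∈ g, ∀ w ∈ g, z * w ∈ g
  inv : ∀ z ∈ g, z⁻¹ ∈ g
  le : ∀ z ∈ g, ∀ w ∈ g, (z.1 ≤ w.1 ↔ z.2 ≤ w.2)

/-- `n` rounds of back and forth, starting in the first structure -/
def GoodV : ℕ → (Γ Δ : Type u) → [LinearOrderedCommGroupWithZero Γ] →
    [LinearOrderedCommGroupWithZero Δ] → Set (Γ × Δ) → Prop
  | 0, _, _, _, _, g => IsV g
  | n + 1, Γ, Δ, _, _, g => IsV g ∧ ∀ S : Set Γ, S.Countable → ∃ g' : Set (Γ × Δ), g ⊆ g' ∧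
      (∀ a ∈ S, ∃ b, (a, b) ∈ g') ∧ GoodV n Δ Γ (Prod.swap ⁻¹' g')

theorem IsV.swap {Γ Δ : Type u} [LinearOrderedCommGroupWithZero Γ]
    [LinearOrderedCommGroupWithZero Δ] {g : Set (Γ × Δ)} (h : IsV g) :
    IsV (Prod.swap ⁻¹' g) where
  zero := h.zero
  one := h.one
  mul z hz w hw := h.mul _ hz _ hw
  inv z hz := h.inv _ hz
  le z hz w hw := (h.le _ hz _ hw).symm

theorem GoodV.isV {n : ℕ} {Γ Δ : Type u} [LinearOrderedCommGroupWithZero Γ]
    [LinearOrderedCommGroupWithZero Δ] {g : Set (Γ × Δ)}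
    (h : GoodV n Γ Δ g) : IsV g := by
  cases n with
  | zero => exact h
  | succ n => exact h.1

theorem GoodV.mono {n : ℕ} {Γ Δ : Type u} [LinearOrderedCommGroupWithZero Γ]
    [LinearOrderedCommGroupWithZero Δ] {g g' : Set (Γ × Δ)}
    (h : GoodV n Γ Δ g) (hg : g' ⊆ g) (h' : IsV g') : GoodV n Γ Δ g' := by
  cases n with
  | zero => exact h'
  | succ n =>
    refine ⟨h', fun S hS => ?_⟩
    obtain ⟨g₁, h₁, h₂, h₃⟩ := h.2 S hS
    exact ⟨g₁, hg.trans h₁, h₂, h₃⟩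

/-- from the ultrapower of the group to the ultrapower of the group with zero -/
noncomputable def io {Γ : Type u} [LinearOrderedCommGroupWithZero Γ] (a : Up Γˣ) : Up Γ :=
  Germ.map (fun u : Γˣ => (u : Γ)) a

theorem io_mul {Γ : Type u} [LinearOrderedCommGroupWithZero Γ] (a b : Up Γˣ) :
    io (a * b) = io a * io b :=
  Germ.inductionOn₂ a b fun _ _ => rfl

theorem io_one {Γ : Type u} [LinearOrderedCommGroupWithZero Γ] : io (1 : Up Γˣ) = 1 := rfl

theorem io_inv {Γ : Type u} [LinearOrderedCommGroupWithZero Γ] (a : Up Γˣ) :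
    io (a⁻¹) = (io a)⁻¹ :=
  Germ.inductionOn a fun f => mk_eq.2 (Eventually.of_forall fun i => by simp)

theorem io_le {Γ : Type u} [LinearOrderedCommGroupWithZero Γ] (a b : Up Γˣ) :
    io a ≤ io b ↔ a ≤ b :=
  Germ.inductionOn₂ a b fun f g => by
    constructor
    · intro h; exact mk_le.2 ((mk_le.1 h).mono fun i hi => hi)
    · intro h; exact mk_le.2 ((mk_le.1 h).mono fun i hi => hi)

theorem io_ne_zero {Γ : Type u} [LinearOrderedCommGroupWithZero Γ] (a : Up Γˣ) : io a ≠ 0 := by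
  intro h
  obtain ⟨f, rfl⟩ := exists_toUp a
  obtain ⟨i, hi⟩ := (mk_eq.1 h).exists
  exact (f i).ne_zero hi

theorem exists_io {Γ : Type u} [LinearOrderedCommGroupWithZero Γ] (a : Up Γ) (ha : a ≠ 0) :
    ∃ b : Up Γˣ, io b = a := by
  classical
  obtain ⟨f, rfl⟩ := exists_toUp a
  refine ⟨toUp fun i => if h : f i = 0 then 1 else Units.mk0 (f i) h, ?_⟩
  have h1 : ∀ᶠ i in (UU : Filter ℕ), f i ≠ 0 := by
    rw [Ultrafilter.eventually_not]
    exact fun h => ha (mk_eq.2 h)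
  refine mk_eq.2 ?_
  filter_upwards [h1] with i hi
  simp [hi]

/-- the graph of the isomorphism between the generated ordered groups, with zero -/
def clV {Γ Δ : Type u} [LinearOrderedCommGroupWithZero Γ] [LinearOrderedCommGroupWithZero Δ]
    {X : Type} (x : X → Up Γˣ) (y : X → Up Δˣ) : Set (Up Γ × Up Δ) :=
  {z | z = (0, 0) ∨ ∃ t : GTm X, z = (io (t.eval x), io (t.eval y))}

theorem clV_swap {Γ Δ : Type u} [LinearOrderedCommGroupWithZero Γ]
    [LinearOrderedCommGroupWithZero Δ] {X : Type} (x : X → Up Γˣ) (y : X → Up Δˣ) :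
    Prod.swap ⁻¹' (clV x y) = clV y x := by
  ext ⟨a, b⟩
  simp only [clV, Set.mem_preimage, Set.mem_setOf_eq, Prod.swap_prod_mk, Prod.mk.injEq]
  constructor
  · rintro (⟨h1, h2⟩ | ⟨t, h1, h2⟩)
    · exact Or.inl ⟨h2, h1⟩
    · exact Or.inr ⟨t, h2, h1⟩
  · rintro (⟨h1, h2⟩ | ⟨t, h1, h2⟩)
    · exact Or.inl ⟨h2, h1⟩
    · exact Or.inr ⟨t, h2, h1⟩

theorem isV_clV {Γ Δ : Type u} [LinearOrderedCommGroupWithZero Γ]
    [LinearOrderedCommGroupWithZero Δ] {X : Type} (x : X → Up Γˣ) (y : X → Up Δˣ)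
    (h : ∀ s t : GTm X, s.eval x ≤ t.eval x ↔ s.eval y ≤ t.eval y) : IsV (clV x y) where
  zero := Or.inl rfl
  one := Or.inr ⟨.zero, rfl⟩
  mul := by
    rintro _ (rfl | ⟨s, rfl⟩) _ (rfl | ⟨t, rfl⟩)
    · left; simp
    · left; simp
    · left; simp
    · right
      refine ⟨.add s t, ?_⟩
      simp only [GTm.eval, io_mul, Prod.mk_mul_mk]
  inv := by
    rintro _ (rfl | ⟨s, rfl⟩)
    · left; simp
    · right
      refine ⟨.neg s, ?_⟩
      simp only [GTm.eval, io_inv, Prod.inv_mk]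
  le := by
    rintro _ (rfl | ⟨s, rfl⟩) _ (rfl | ⟨t, rfl⟩)
    · simp
    · simp
    · simp [io_ne_zero]
    · simp only [io_le]
      exact h s t

theorem goodV_of_pres : (n : ℕ) → {Γ Δ : Type u} → [LinearOrderedCommGroupWithZero Γ] →
    [LinearOrderedCommGroupWithZero Δ] → {X : Type} →
    [Countable X] → (x : X → Up Γˣ) → (y : X → Up Δˣ) →
    (h : Pres (groupMd (Up Γˣ)) (groupMd (Up Δˣ)) n x y) → GoodV n (Up Γ) (Up Δ) (clV x y)
  | 0, k₀, l₀, _, _, X, _, x, y, h => isV_clV x y fun s t => h.qf_iff (.le t s : GQF X)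
  | n + 1, Γ, Δ, _, _, X, _, x, y, h => by
    refine ⟨isV_clV x y fun s t => h.qf_iff (.le t s : GQF X), fun S hS => ?_⟩
    have hS' : (io ⁻¹' S : Set (Up Γˣ)).Countable := by
      refine hS.preimage_of_injOn ?_
      intro a _ b _ hab
      exact le_antisymm ((io_le a b).1 hab.le) ((io_le b a).1 hab.ge)
    obtain ⟨s, hs⟩ : ∃ s : ℕ → Up Γˣ, (io ⁻¹' S : Set (Up Γˣ)) ⊆ Set.range s := by
      rcases (io ⁻¹' S : Set (Up Γˣ)).eq_empty_or_nonempty with h0 | hne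
      · exact ⟨fun _ => 1, by rw [h0]; exact Set.empty_subset _⟩
      · obtain ⟨s, hs⟩ := hS'.exists_eq_range hne
        exact ⟨s, hs.subset⟩
    obtain ⟨t, ht⟩ := h.extend (los_group Δˣ) s
    refine ⟨clV (Sum.elim x s) (Sum.elim y t), ?_, ?_, ?_⟩
    · rintro _ (rfl | ⟨a, rfl⟩)
      · left; rfl
      · right
        refine ⟨a.ren Sum.inl, ?_⟩
        simp only [GTm.eval_ren]; rfl
    · intro a ha
      by_cases h0 : a = 0
      · exact ⟨0, Or.inl (by rw [h0])⟩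
      · obtain ⟨b, rfl⟩ := exists_io a h0
        obtain ⟨i, rfl⟩ := hs ha
        exact ⟨io (t i), Or.inr ⟨.var (Sum.inr i), rfl⟩⟩
    · rw [clV_swap]
      exact goodV_of_pres n _ _ ht.swap

end Pool.Agent.J6H67.AK
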