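import Mathlib

/-!
# Pseudo-convergence in residue characteristic zero (Kaplansky's lemmas)

`π : F → K` is an embedding of a field in a valued field, and `ρ : F → Γ` is the distance of the
elements of `F` from a limit `b` outside of `F` in some immediate extension.
-/

set_option autoImplicit false

universe u

namespace Pool.Agent.J6H67.AK

open Filter Polynomial

variable {F K Γ : Type u} [Field F] [Field K] [LinearOrderedCommGroupWithZero Γ]

/-- the filter on `F` of the points near the limit -/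
def ev (ρ : F → Γ) : Filter F := ⨅ a₀, 𝓟 {a | ρ a ≤ ρ a₀}

theorem ev_iff {ρ : F → Γ} {P : F → Prop} :
    (∀ᶠ a in ev ρ, P a) ↔ ∃ a₀, ∀ a, ρ a ≤ ρ a₀ → P a := by
  have hb : (ev ρ).HasBasis (fun _ => True) (fun a₀ => {a | ρ a ≤ ρ a₀}) := by
    apply hasBasis_iInf_principal
    intro a b
    rcases le_total (ρ a) (ρ b) with h | h
    · exact ⟨a, fun x hx => hx, fun x hx => le_trans hx h⟩
    · exact ⟨b, fun x hx => le_trans hx h, fun x hx => hx⟩
  rw [hb.eventually_iff]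
  simp only [true_and]
  exact Iff.rfl

theorem ev_le (ρ : F → Γ) (a₀ : F) : ∀ᶠ a in ev ρ, ρ a ≤ ρ a₀ := ev_iff.2 ⟨a₀, fun _ h => h⟩

instance (ρ : F → Γ) : (ev ρ).NeBot := by
  refine ⟨fun h => ?_⟩
  have : ∀ᶠ a in ev ρ, False := by rw [h]; exact Filter.eventually_bot
  obtain ⟨a₀, h₀⟩ := ev_iff.1 this
  exact h₀ a₀ le_rfl

/-- a pseudo-convergent system without limit in `F` -/
structure PC (v : Valuation K Γ) (π : F →+* K) (ρ : F → Γ) : Prop where
  ne : ∀ a, ρ a ≠ 0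
  nomin : ∀ a, ∃ a', ρ a' < ρ a
  dist : ∀ a a', ρ a' < ρ a → v (π a' - π a) = ρ a

theorem PC.lt {v : Valuation K Γ} {π : F →+* K} {ρ : F → Γ} (h : PC v π ρ) (a₀ : F) :
    ∀ᶠ a in ev ρ, ρ a < ρ a₀ := by
  obtain ⟨a, ha⟩ := h.nomin a₀
  exact ev_iff.2 ⟨a, fun x hx => lt_of_le_of_lt hx ha⟩

/-- eventual statements about pairs of points -/
theorem PC.pair {v : Valuation K Γ} {π : F →+* K} {ρ : F → Γ} (h : PC v π ρ) {P : F → Prop}
    (hP : ∀ᶠ a in ev ρ, P a) : ∃ a₀, ∀ a, ρ a ≤ ρ a₀ → P a ∧ (∃ a', ρ a' < ρ a ∧ P a') ∧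
      (∀ a', ρ a' < ρ a → P a') := by
  obtain ⟨a₀, h₀⟩ := ev_iff.1 hP
  refine ⟨a₀, fun a ha => ⟨h₀ a ha, ?_, fun a' ha' => h₀ a' (ha'.le.trans ha)⟩⟩
  obtain ⟨a', ha'⟩ := h.nomin a
  exact ⟨a', ha', h₀ a' (ha'.le.trans ha)⟩

/-- a sum with one dominating term -/
theorem map_sum_eq {ι : Type} (v : Valuation K Γ) {s : Finset ι} {f : ι → K} {i₀ : ι}
    (h₀ : i₀ ∈ s) (hne : v (f i₀) ≠ 0) (h : ∀ i ∈ s, i ≠ i₀ → v (f i) < v (f i₀)) :
    v (∑ i ∈ s, f i) = v (f i₀) := by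
  classical
  rw [← Finset.add_sum_erase s f h₀]
  apply v.map_add_eq_of_lt_left
  exact v.map_sum_lt hne fun i hi => h i (Finset.mem_of_mem_erase hi) (Finset.ne_of_mem_erase hi)

theorem eval_taylor_sum (Q : K[X]) (a b : K) :
    Q.eval b = ∑ i ∈ Finset.range (Q.natDegree + 1), (hasseDeriv i Q).eval a * (b - a) ^ i := by
  have h : Q.eval b = (taylor a Q).eval (b - a) := by
    rw [taylor_eval, sub_add_cancel]
  rw [h, eval_eq_sum_range, natDegree_taylor]
  simp only [taylor_coeff]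

theorem eval_sub_taylor (Q : K[X]) (a b : K) :
    Q.eval b - Q.eval a =
      ∑ i ∈ (Finset.range (Q.natDegree + 1)).erase 0, (hasseDeriv i Q).eval a * (b - a) ^ i := by
  rw [eval_taylor_sum Q a b, ← Finset.add_sum_erase (Finset.range (Q.natDegree + 1)) _
    (Finset.mem_range.2 (Nat.succ_pos _))]
  simp

theorem hasseDeriv_map_eval (π : F →+* K) (Q : F[X]) (i : ℕ) (a : F) :
    (hasseDeriv i (Q.map π)).eval (π a) = π ((hasseDeriv i Q).eval a) := by
  rw [← taylor_coeff, ← taylor_coeff, ← map_taylor, coeff_map]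

theorem pc_cmp {v : Valuation K Γ} {π : F →+* K} {ρ : F → Γ} (h : PC v π ρ) {i j : ℕ} (hij : i < j)
    {β γ : Γ} (hγ : γ ≠ 0) :
    (∀ᶠ a in ev ρ, γ * ρ a ^ j < β * ρ a ^ i) ∨ (∀ᶠ a in ev ρ, β * ρ a ^ i < γ * ρ a ^ j) := by
  have key : ∀ a, ρ a ^ j = ρ a ^ (j - i) * ρ a ^ i := by
    intro a; rw [← pow_add]; congr 1; omega
  by_cases h₀ : ∃ a₀, γ * ρ a₀ ^ (j - i) ≤ β
  · left
    obtain ⟨a₀, h₀⟩ := h₀
    filter_upwards [h.lt a₀] with a ha
    rw [key, ← mul_assoc]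
    apply mul_lt_mul_of_pos_right _ (pow_pos (zero_lt_iff.2 (h.ne a)) _)
    refine lt_of_lt_of_le ?_ h₀
    apply mul_lt_mul_of_pos_left _ (zero_lt_iff.2 hγ)
    exact pow_lt_pow_left₀ ha zero_le (by omega)
  · right
    push Not at h₀
    refine Eventually.of_forall fun a => ?_
    rw [key, ← mul_assoc]
    exact mul_lt_mul_of_pos_right (h₀ a) (pow_pos (zero_lt_iff.2 (h.ne a)) _)

theorem pc_dom {v : Valuation K Γ} {π : F →+* K} {ρ : F → Γ} (h : PC v π ρ) (β : ℕ → Γ)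
    (I : Finset ℕ) (hI : I.Nonempty) (hβ : ∀ i ∈ I, β i ≠ 0) :
    ∃ i₀ ∈ I, ∀ i ∈ I, i ≠ i₀ → ∀ᶠ a in ev ρ, β i * ρ a ^ i < β i₀ * ρ a ^ i₀ := by
  classical
  induction I using Finset.induction_on with
  | empty => exact absurd hI Finset.not_nonempty_empty
  | insert i I hi ih =>
    rcases I.eq_empty_or_nonempty with rfl | hne
    · refine ⟨i, Finset.mem_insert_self _ _, fun j hj hji => ?_⟩
      simp at hj
      exact absurd hj hji
    · obtain ⟨i₀, hi₀, h₀⟩ := ih hne fun j hj => hβ j (Finset.mem_insert_of_mem hj)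
      have hne' : i ≠ i₀ := fun e => hi (e ▸ hi₀)
      have hc : (∀ᶠ a in ev ρ, β i * ρ a ^ i < β i₀ * ρ a ^ i₀) ∨
          (∀ᶠ a in ev ρ, β i₀ * ρ a ^ i₀ < β i * ρ a ^ i) := by
        rcases lt_or_gt_of_ne hne' with hlt | hlt
        · exact (pc_cmp h hlt (hβ i₀ (Finset.mem_insert_of_mem hi₀))).symm
        · exact pc_cmp h hlt (hβ i (Finset.mem_insert_self _ _))
      rcases hc with hc | hc
      · refine ⟨i₀, Finset.mem_insert_of_mem hi₀, fun j hj hji => ?_⟩
        rcases Finset.mem_insert.1 hj with rfl | hj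
        · exact hc
        · exact h₀ j hj hji
      · refine ⟨i, Finset.mem_insert_self _ _, fun j hj hji => ?_⟩
        rcases Finset.mem_insert.1 hj with rfl | hj
        · exact absurd rfl hji
        · by_cases e : j = i₀
          · rw [e]; exact hc
          · filter_upwards [hc, h₀ j hj e] with a h1 h2
            exact h2.trans h1

/-- the value of the polynomial is eventually constant, equal to `c` -/
def EC (v : Valuation K Γ) (π : F →+* K) (ρ : F → Γ) (Q : F[X]) (c : Γ) : Prop :=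
  ∀ᶠ a in ev ρ, v (π (Q.eval a)) = c

section

variable {v : Valuation K Γ} {π : F →+* K} {ρ : F → Γ}

/-- the value of the difference of two values of a polynomial -/
theorem pc_diff (h : PC v π ρ) (Q : F[X]) (β : ℕ → Γ)
    (hβ : ∀ i, i ≠ 0 → EC v π ρ (hasseDeriv i Q) (β i)) :
    (∀ᶠ a in ev ρ, ∀ a', ρ a' < ρ a → v (π (Q.eval a' - Q.eval a)) = 0) ∨
    ∃ i₀, i₀ ≠ 0 ∧ β i₀ ≠ 0 ∧ 
      (∀ i, i ≠ 0 → i ≠ i₀ → ∀ᶠ a in ev ρ, β i * ρ a ^ i < β i₀ * ρ a ^ i₀) ∧
      (∀ᶠ a in ev ρ, ∀ a', ρ a' < ρ a → v (π (Q.eval a' - Q.eval a)) = β i₀ * ρ a ^ i₀) := by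
  classical
  set s := (Finset.range (Q.natDegree + 1)).erase 0 with hs
  have hall : ∀ᶠ a in ev ρ, ∀ i ∈ s, v (π ((hasseDeriv i Q).eval a)) = β i := by
    rw [Filter.eventually_all_finset]
    intro i hi
    exact hβ i (Finset.ne_of_mem_erase hi)
  have hz : ∀ i, i ≠ 0 → i ∉ s → β i = 0 := by
    intro i hi his
    have : Q.natDegree < i := by
      by_contra hc
      exact his (Finset.mem_erase.2 ⟨hi, Finset.mem_range.2 (by omega)⟩)
    have h0 := hβ i hi
    rw [hasseDeriv_eq_zero_of_lt_natDegree _ _ this] at h0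
    obtain ⟨a, ha⟩ := h0.exists
    simpa using ha.symm
  have hdiff : ∀ a a', π (Q.eval a' - Q.eval a) =
      ∑ i ∈ s, π ((hasseDeriv i Q).eval a) * (π a' - π a) ^ i := by
    intro a a'
    rw [eval_sub_taylor Q a a', map_sum]
    refine Finset.sum_congr rfl fun i _ => ?_
    rw [map_mul, map_pow, map_sub]
  by_cases hI : (s.filter fun i => β i ≠ 0).Nonempty
  · right
    obtain ⟨i₀, hi₀, hdom⟩ := pc_dom h β _ hI fun i hi => (Finset.mem_filter.1 hi).2
    have hi₀s := (Finset.mem_filter.1 hi₀).1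
    have hi₀β := (Finset.mem_filter.1 hi₀).2
    have hdom' : ∀ i, i ≠ 0 → i ≠ i₀ → ∀ᶠ a in ev ρ, β i * ρ a ^ i < β i₀ * ρ a ^ i₀ := by
      intro i hi hii
      by_cases hb : β i = 0
      · refine Eventually.of_forall fun a => ?_
        rw [hb, zero_mul]
        exact mul_pos (zero_lt_iff.2 hi₀β) (pow_pos (zero_lt_iff.2 (h.ne a)) _)
      · refine hdom i (Finset.mem_filter.2 ⟨?_, hb⟩) hii
        by_contra hc
        exact hb (hz i hi hc)
    refine ⟨i₀, Finset.ne_of_mem_erase hi₀s, hi₀β, hdom', ?_⟩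
    have hdoms : ∀ᶠ a in ev ρ, ∀ i ∈ s, i ≠ i₀ → β i * ρ a ^ i < β i₀ * ρ a ^ i₀ := by
      rw [Filter.eventually_all_finset]
      intro i hi
      by_cases e : i = i₀
      · exact Eventually.of_forall fun a h => absurd e h
      · filter_upwards [hdom' i (Finset.ne_of_mem_erase hi) e] with a ha _ using ha
    filter_upwards [hall, hdoms] with a h1 h2 a' ha'
    rw [hdiff]
    have hval : ∀ i ∈ s, v (π ((hasseDeriv i Q).eval a) * (π a' - π a) ^ i) = β i * ρ a ^ i := by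
      intro i hi
      rw [map_mul, map_pow, h.dist a a' ha', h1 i hi]
    rw [map_sum_eq v hi₀s, hval i₀ hi₀s]
    · rw [hval i₀ hi₀s]
      exact mul_ne_zero hi₀β (pow_ne_zero _ (h.ne a))
    · intro i hi hii
      rw [hval i hi, hval i₀ hi₀s]
      exact h2 i hi hii
  · left
    filter_upwards [hall] with a h1 a' ha'
    rw [hdiff]
    rw [Finset.sum_eq_zero, map_zero]
    intro i hi
    have : β i = 0 := by
      by_contra hc
      exact hI ⟨i, Finset.mem_filter.2 ⟨hi, hc⟩⟩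
    have h2 := h1 i hi
    rw [this, map_eq_zero] at h2
    rw [h2, zero_mul]

/-- the higher Taylor terms of a polynomial with eventually constant value are eventually small -/
theorem pc_small (h : PC v π ρ) (Q : F[X]) (β : ℕ → Γ)
    (hβ : ∀ i, EC v π ρ (hasseDeriv i Q) (β i)) (h0 : β 0 ≠ 0) :
    ∀ i, i ≠ 0 → ∀ᶠ a in ev ρ, β i * ρ a ^ i < β 0 := by
  have hE : ∀ᶠ a in ev ρ, v (π (Q.eval a)) = β 0 := by
    have := hβ 0
    rwa [hasseDeriv_zero'] at this
  rcases pc_diff h Q β (fun i _ => hβ i) with hd | ⟨i₀, hi₀, hβ₀, hdom, hd⟩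
  · -- all higher coefficients vanish?
    intro i hi
    by_cases hb : β i = 0
    · refine Eventually.of_forall fun a => ?_
      rw [hb, zero_mul]; exact zero_lt_iff.2 h0
    · -- the polynomial is constant on infinitely many points
      exfalso
      obtain ⟨a₀, h₀⟩ := ev_iff.1 hd
      -- Q - C (Q a₀) has all points beyond a₀ as roots
      have hroot : ∀ a', ρ a' < ρ a₀ → (Q - C (Q.eval a₀)).eval a' = 0 := by
        intro a' ha'
        have := h₀ a₀ le_rfl a' ha'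
        rw [map_eq_zero, map_eq_zero] at this
        simpa using this
      have hQ : Q - C (Q.eval a₀) = 0 := by
        by_contra hne
        have hfin : ((Q - C (Q.eval a₀)).rootSet F).Finite := Polynomial.rootSet_finite _ _
        -- an infinite sequence of roots
        have hsub : {a' | ρ a' < ρ a₀} ⊆ (Q - C (Q.eval a₀)).rootSet F := by
          intro a' ha'
          rw [Polynomial.mem_rootSet]
          exact ⟨hne, by simpa using hroot a' ha'⟩
        have hfin2 : {a' | ρ a' < ρ a₀}.Finite := hfin.subset hsub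
        obtain ⟨a₁, ha₁⟩ := h.nomin a₀
        obtain ⟨m, hm, hmin⟩ := Set.exists_min_image _ ρ hfin2 ⟨a₁, ha₁⟩
        obtain ⟨m', hm'⟩ := h.nomin m
        exact absurd (hmin m' (hm'.trans hm)) (not_le.2 hm')
      have hQ' : Q = C (Q.eval a₀) := sub_eq_zero.1 hQ
      have h1 := hβ i
      rw [hQ', hasseDeriv_C _ _ (Nat.pos_of_ne_zero hi)] at h1
      obtain ⟨a, ha⟩ := h1.exists
      exact hb (by simpa using ha.symm)
  · obtain ⟨a₀, h₀⟩ := h.pair (hE.and hd)
    have hle : ∀ a, ρ a ≤ ρ a₀ → β i₀ * ρ a ^ i₀ ≤ β 0 := by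
      intro a ha
      obtain ⟨⟨h1, h2⟩, ⟨a', ha', h1', -⟩, -⟩ := h₀ a ha
      rw [← h2 a' ha', map_sub]
      refine (v.map_sub _ _).trans (le_of_eq ?_)
      rw [h1, h1', max_self]
    have hlt : ∀ᶠ a in ev ρ, β i₀ * ρ a ^ i₀ < β 0 := by
      filter_upwards [h.lt a₀] with a ha
      refine lt_of_lt_of_le ?_ (hle a₀ le_rfl)
      exact mul_lt_mul_of_pos_left (pow_lt_pow_left₀ ha zero_le hi₀) (zero_lt_iff.2 hβ₀)
    intro i hi
    by_cases e : i = i₀
    · rw [e]; exact hlt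
    · filter_upwards [hlt, hdom i hi e] with a h1 h2 using h2.trans h1

/-- the value at a limit -/
theorem pc_limit (h : PC v π ρ) (Q : F[X]) (β : ℕ → Γ)
    (hβ : ∀ i, EC v π ρ (hasseDeriv i Q) (β i)) (h0 : β 0 ≠ 0) (b : K)
    (hb : ∀ a, v (b - π a) = ρ a) :
    ∀ᶠ a in ev ρ, v ((Q.map π).eval b - π (Q.eval a)) < v (π (Q.eval a)) := by
  classical
  have hsm := pc_small h Q β hβ h0
  set s := (Finset.range ((Q.map π).natDegree + 1)).erase 0 with hs
  have h1 : ∀ᶠ a in ev ρ, ∀ i ∈ s, v (π ((hasseDeriv i Q).eval a)) = β i := by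
    rw [Filter.eventually_all_finset]
    exact fun i _ => hβ i
  have h2 : ∀ᶠ a in ev ρ, ∀ i ∈ s, β i * ρ a ^ i < β 0 := by
    rw [Filter.eventually_all_finset]
    exact fun i hi => hsm i (Finset.ne_of_mem_erase hi)
  have hE : ∀ᶠ a in ev ρ, v (π (Q.eval a)) = β 0 := by
    have := hβ 0
    rwa [hasseDeriv_zero'] at this
  filter_upwards [h1, h2, hE] with a h1 h2 h3
  have h4 : (Q.map π).eval b - π (Q.eval a) = 
      ∑ i ∈ s, π ((hasseDeriv i Q).eval a) * (b - π a) ^ i := by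
    have := eval_sub_taylor (Q.map π) (π a) b
    rw [← hs] at this
    simp only [hasseDeriv_map_eval] at this
    rw [← this, ← Polynomial.eval_map_apply]
  rw [h4, h3]
  refine v.map_sum_lt h0 fun i hi => ?_
  rw [map_mul, map_pow, hb a, h1 i hi]
  exact h2 i hi

end

end Pool.Agent.J6H67.AK
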