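import Pool.Agent.J6H67.AK.Imm

/-!
# The minimal polynomial of a pseudo-convergent system of algebraic type is in Hensel position
-/

set_option autoImplicit false

universe u

namespace Pool.Agent.J6H67.AK

open Filter Polynomial

variable {F K Γ : Type u} [Field F] [Field K] [LinearOrderedCommGroupWithZero Γ]
  {v : Valuation K Γ} {π : F →+* K} {ρ : F → Γ}

theorem pc_eq_zero (h : PC v π ρ) (Q : F[X]) (hQ : ∀ᶠ a in ev ρ, Q.eval a = 0) : Q = 0 := by
  obtain ⟨a₀, h₀⟩ := ev_iff.1 hQ
  by_contra hne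
  have hfin : (Q.rootSet F).Finite := Polynomial.rootSet_finite _ _
  have hsub : {a' | ρ a' < ρ a₀} ⊆ Q.rootSet F := by
    intro a' ha'
    rw [Polynomial.mem_rootSet]
    exact ⟨hne, by simpa using h₀ a' (le_of_lt ha')⟩
  have hfin2 : {a' | ρ a' < ρ a₀}.Finite := hfin.subset hsub
  obtain ⟨a₁, ha₁⟩ := h.nomin a₀
  obtain ⟨m, hm, hmin⟩ := Set.exists_min_image _ ρ hfin2 ⟨a₁, ha₁⟩
  obtain ⟨m', hm'⟩ := h.nomin m
  exact absurd (hmin m' (hm'.trans hm)) (not_le.2 hm')

theorem pc_kap (h : PC v π ρ) (hchar : ∀ n : ℕ, 0 < n → v (n : K) = 1) (P : F[X])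
    (hP : ¬ ∃ c, EC v π ρ P c) (hmin : ∀ Q : F[X], Q.degree < P.degree → ∃ c, EC v π ρ Q c) :
    ∀ᶠ a in ev ρ, v (π ((hasseDeriv 1 P).eval a)) ≠ 0 ∧
      v (π (P.eval a)) = v (π ((hasseDeriv 1 P).eval a)) * ρ a ∧
      ∀ i, 2 ≤ i → v (π ((hasseDeriv i P).eval a)) * ρ a ^ i < v (π (P.eval a)) := by
  classical
  have hdeg : ∀ i, i ≠ 0 → (hasseDeriv i P).degree < P.degree := by
    intro i hi
    by_cases h0 : P.natDegree = 0
    · exfalso
      obtain ⟨c, hc⟩ := natDegree_eq_zero.1 h0
      exact hP ⟨v (π c), Eventually.of_forall fun a => by rw [← hc]; simp⟩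
    · apply degree_lt_degree
      exact (natDegree_hasseDeriv_le P i).trans_lt (by omega)
  have hex : ∀ i, ∃ c, i ≠ 0 → EC v π ρ (hasseDeriv i P) c := by
    intro i
    by_cases hi : i = 0
    · exact ⟨0, fun h => absurd hi h⟩
    · obtain ⟨c, hc⟩ := hmin _ (hdeg i hi)
      exact ⟨c, fun _ => hc⟩
  choose β hβ using hex
  rcases pc_diff h P β hβ with hd | ⟨i₀, hi₀, hβ₀, hdom, hd⟩
  · exfalso
    obtain ⟨a₀, h₀⟩ := ev_iff.1 hd
    apply hP
    refine ⟨v (π (P.eval a₀)), ?_⟩
    filter_upwards [h.lt a₀] with a ha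
    have := h₀ a₀ le_rfl a ha
    rw [map_eq_zero, map_eq_zero, sub_eq_zero] at this
    rw [this]
  · -- the value of P
    have hval : ∀ᶠ a in ev ρ, v (π (P.eval a)) = β i₀ * ρ a ^ i₀ := by
      obtain ⟨a₀, h₀⟩ := h.pair hd
      have hle : ∀ a, ρ a ≤ ρ a₀ → v (π (P.eval a)) ≤ β i₀ * ρ a ^ i₀ := by
        intro a ha
        by_contra hc
        push Not at hc
        obtain ⟨h1, -, -⟩ := h₀ a ha
        apply hP
        refine ⟨v (π (P.eval a)), ?_⟩
        filter_upwards [h.lt a] with a' ha'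
        have h2 : π (P.eval a') = π (P.eval a) + π (P.eval a' - P.eval a) := by
          rw [map_sub]; ring
        rw [h2]
        apply v.map_add_eq_of_lt_left
        rw [h1 a' ha']; exact hc
      refine ev_iff.2 ⟨a₀, fun a ha => le_antisymm (hle a ha) ?_⟩
      by_contra hc
      push Not at hc
      obtain ⟨h1, ⟨a', ha', -⟩, -⟩ := h₀ a ha
      have h2 : π (P.eval a') = π (P.eval a) + π (P.eval a' - P.eval a) := by
        rw [map_sub]; ring
      have h3 : v (π (P.eval a')) = β i₀ * ρ a ^ i₀ := by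
        rw [h2, ← h1 a' ha']
        apply v.map_add_eq_of_lt_right
        rw [h1 a' ha']; exact hc
      have h4 := hle a' (ha'.le.trans ha)
      rw [h3] at h4
      refine absurd h4 (not_le.2 ?_)
      exact mul_lt_mul_of_pos_left (pow_lt_pow_left₀ ha' zero_le hi₀) (zero_lt_iff.2 hβ₀)
    -- the dominating index is one
    have hone : i₀ = 1 := by
      by_contra hne
      have hcomp : ∀ j, hasseDeriv j (hasseDeriv 1 P) = C ((j + 1 : ℕ) : F) * hasseDeriv (j + 1) P := by
        intro j
        have := congrFun (congrArg DFunLike.coe (hasseDeriv_comp (R := F) j 1)) P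
        rw [LinearMap.comp_apply, LinearMap.smul_apply] at this
        rw [this, Nat.choose_succ_self_right, nsmul_eq_mul]
        simp
      have hE : ∀ j, EC v π ρ (hasseDeriv j (hasseDeriv 1 P)) (β (j + 1)) := by
        intro j
        filter_upwards [hβ (j + 1) (Nat.succ_ne_zero j)] with a ha
        rw [hcomp, eval_mul, eval_C, map_mul, map_mul, map_natCast, hchar _ (Nat.succ_pos j),
          one_mul, ha]
      by_cases hb1 : β 1 = 0
      · -- then the derivative is zero
        have h1 : hasseDeriv 1 P = 0 := by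
          apply pc_eq_zero h
          filter_upwards [hβ 1 one_ne_zero] with a ha
          rw [hb1, map_eq_zero, map_eq_zero] at ha
          exact ha
        obtain ⟨a, ha⟩ := (hE (i₀ - 1)).exists
        rw [h1, map_zero, eval_zero, map_zero, map_zero] at ha
        have : i₀ - 1 + 1 = i₀ := by omega
        rw [this] at ha
        exact hβ₀ ha.symm
      · have h2 := pc_small h (hasseDeriv 1 P) (fun j => β (j + 1)) hE hb1 (i₀ - 1) (by omega)
        obtain ⟨a, ha, ha'⟩ := (h2.and (hdom 1 one_ne_zero (Ne.symm hne))).exists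
        have e1 : i₀ - 1 + 1 = i₀ := by omega
        rw [e1] at ha
        simp only [zero_add] at ha
        have h3 : β i₀ * ρ a ^ i₀ < β 1 * ρ a ^ 1 := by
          have : β i₀ * ρ a ^ i₀ = β i₀ * ρ a ^ (i₀ - 1) * ρ a := by
            rw [mul_assoc, ← pow_succ, e1]
          rw [this, pow_one]
          exact mul_lt_mul_of_pos_right ha (zero_lt_iff.2 (h.ne a))
        exact absurd h3 (not_lt.2 ha'.le)
    subst hone
    have h1 : ∀ᶠ a in ev ρ, ∀ i ∈ Finset.range (P.natDegree + 1), i ≠ 0 →
        v (π ((hasseDeriv i P).eval a)) = β i := by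
      rw [Filter.eventually_all_finset]
      intro i _
      by_cases hi : i = 0
      · exact Eventually.of_forall fun a h => absurd hi h
      · filter_upwards [hβ i hi] with a ha _ using ha
    have h2 : ∀ᶠ a in ev ρ, ∀ i ∈ Finset.range (P.natDegree + 1), 2 ≤ i →
        β i * ρ a ^ i < β 1 * ρ a ^ 1 := by
      rw [Filter.eventually_all_finset]
      intro i _
      by_cases hi : 2 ≤ i
      · filter_upwards [hdom i (by omega) (by omega)] with a ha _ using ha
      · exact Eventually.of_forall fun a h => absurd h hi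
    filter_upwards [h1, h2, hval, hβ 1 one_ne_zero] with a h1 h2 h3 h4
    refine ⟨by rw [h4]; exact hβ₀, by rw [h3, h4, pow_one], fun i hi => ?_⟩
    by_cases hr : i ∈ Finset.range (P.natDegree + 1)
    · rw [h1 i hr (by omega), h3]
      exact h2 i hr hi
    · have : P.natDegree < i := by
        rw [Finset.mem_range] at hr; omega
      rw [hasseDeriv_eq_zero_of_lt_natDegree _ _ this, eval_zero, map_zero, map_zero, zero_mul, h3]
      exact mul_pos (zero_lt_iff.2 hβ₀) (pow_pos (zero_lt_iff.2 (h.ne a)) _)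

end Pool.Agent.J6H67.AK
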