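import Pool.Agent.J6H67.AK.Syn

/-!
# Countable ultrapowers, saturation and blocks of quantifiers (one sort)
-/

set_option autoImplicit false

universe u

namespace Pool.Agent.J6H67.AK

open Filter

/-- the ultrafilter used for all ultrapowers -/
noncomputable def UU : Ultrafilter ℕ := hyperfilter ℕ

theorem UU_le : (UU : Filter ℕ) ≤ atTop := Nat.hyperfilter_le_atTop

/-- the ultrapower of a type -/
abbrev Up (M : Type u) : Type u := (UU : Filter ℕ).Germ M

/-- coercion from sequences -/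
noncomputable abbrev toUp {M : Type u} (f : ℕ → M) : Up M := (f : (UU : Filter ℕ).Germ M)

/-- a representing sequence -/
noncomputable def rep {M : Type u} (a : Up M) : ℕ → M := Quotient.out a

@[simp] theorem toUp_rep {M : Type u} (a : Up M) : toUp (rep a) = a := Quotient.out_eq a

/-- countable saturation for internal sets -/
theorem sat {M : Type u} [Nonempty M] (A : ℕ → ℕ → Set M)
    (h : ∀ m : ℕ, ∀ᶠ i in (UU : Filter ℕ), ∃ x, ∀ j < m, x ∈ A j i) :
    ∃ x : ℕ → M, ∀ j, ∀ᶠ i in (UU : Filter ℕ), x i ∈ A j i := by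
  classical
  have hP : ∀ i, ∃ m ≤ i, (∃ x, ∀ j < m, x ∈ A j i) ∧
      ∀ m' ≤ i, (∃ x, ∀ j < m', x ∈ A j i) → m' ≤ m := by
    intro i
    let P : ℕ → Prop := fun m => ∃ x, ∀ j < m, x ∈ A j i
    have h0 : P 0 := ⟨Classical.arbitrary M, fun j hj => absurd hj (Nat.not_lt_zero _)⟩
    refine ⟨Nat.findGreatest P i, Nat.findGreatest_le i, ?_, ?_⟩
    · exact Nat.findGreatest_spec (P := P) (Nat.zero_le i) h0
    · intro m' hm' hx
      exact Nat.le_findGreatest hm' hx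
  choose m hmi hm hmax using hP
  choose x hx using hm
  refine ⟨x, fun j => ?_⟩
  have h1 := h (j + 1)
  have h2 : ∀ᶠ i in (UU : Filter ℕ), j + 1 ≤ i := UU_le (eventually_ge_atTop (j + 1))
  filter_upwards [h1, h2] with i hi hji
  exact hx i j (lt_of_lt_of_le (Nat.lt_succ_self j) (hmax i (j + 1) hji hi))

/-! ### blocks of quantifiers -/

/-- quantifier-free formulas with renaming and connectives -/
structure Lg where
  Q : Type → Type
  ren : {X X' : Type} → (X → X') → Q X → Q X'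
  neg : {X : Type} → Q X → Q X
  and : {X : Type} → Q X → Q X → Q X
  cnt : ∀ {X : Type}, Countable X → Countable (Q X)

/-- a semantics -/
structure Lg.Md (ℓ : Lg) (M : Type u) where
  H : {X : Type} → (X → M) → ℓ.Q X → Prop
  ren : ∀ {X X' : Type} (f : X → X') (φ : ℓ.Q X) (x : X' → M), H x (ℓ.ren f φ) ↔ H (x ∘ f) φ
  neg : ∀ {X : Type} (φ : ℓ.Q X) (x : X → M), H x (ℓ.neg φ) ↔ ¬ H x φ
  and : ∀ {X : Type} (φ ψ : ℓ.Q X) (x : X → M), H x (ℓ.and φ ψ) ↔ H x φ ∧ H x ψ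
  supp : ∀ {X : Type} (φ : ℓ.Q X), ∃ F : Finset X, ∀ (x x' : X → M), (∀ i ∈ F, x i = x' i) →
    (H x φ ↔ H x' φ)

variable {ℓ : Lg}

/-- blocks `∃ ¬ ∃ ¬ ...` -/
def Sg {M : Type u} (m : ℓ.Md M) : (n : ℕ) → {X : Type} → Frag ℓ.Q n X → (X → M) → Prop
  | 0, _, φ, x => m.H x φ
  | n + 1, _, ⟨a, φ⟩, x => ∃ x' : Fin a → M, ¬ Sg m n φ (Sum.elim x x')

/-- renaming -/
def ren : (n : ℕ) → {X X' : Type} → (X → X') → Frag ℓ.Q n X → Frag ℓ.Q n X'
  | 0, _, _, f, φ => ℓ.ren f φ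
  | n + 1, _, _, f, ⟨a, φ⟩ => ⟨a, ren n (Sum.map f id) φ⟩

/-- conjunction (`true`) and disjunction (`false`) -/
def comb : (n : ℕ) → Bool → {X : Type} → Frag ℓ.Q n X → Frag ℓ.Q n X → Frag ℓ.Q n X
  | 0, true, _, φ, ψ => ℓ.and φ ψ
  | 0, false, _, φ, ψ => ℓ.neg (ℓ.and (ℓ.neg φ) (ℓ.neg ψ))
  | n + 1, b, _, ⟨a, φ⟩, ⟨a', ψ⟩ =>
    ⟨a + a', comb n (!b) (ren n (Sum.map id (Fin.castAdd a')) φ)
      (ren n (Sum.map id (Fin.natAdd a)) ψ)⟩

theorem frag_countable : (n : ℕ) → {X : Type} → Countable X → Countable (Frag ℓ.Q n X)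
  | 0, _, h => ℓ.cnt h
  | n + 1, X, h => by
    have : ∀ a : ℕ, Countable (Frag ℓ.Q n (X ⊕ Fin a)) := fun a => frag_countable n inferInstance
    unfold Frag
    infer_instance

section

variable {M : Type u} (m : ℓ.Md M)

theorem Sg_ren : (n : ℕ) → {X X' : Type} → (f : X → X') → (φ : Frag ℓ.Q n X) → (x : X' → M) →
    (Sg m n (ren n f φ) x ↔ Sg m n φ (x ∘ f))
  | 0, _, _, f, φ, x => m.ren f φ x
  | n + 1, X, X', f, ⟨a, φ⟩, x => by
    simp only [ren, Sg]
    refine exists_congr fun x' => not_congr ?_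
    rw [Sg_ren n]
    have : Sum.elim x x' ∘ Sum.map f id = Sum.elim (x ∘ f) x' := by
      ext i; rcases i with i | i <;> rfl
    rw [this]

theorem Sg_comb [Nonempty M] : (n : ℕ) → (b : Bool) → {X : Type} → (φ ψ : Frag ℓ.Q n X) →
    (x : X → M) → (Sg m n (comb n b φ ψ) x ↔
      (if b then (Sg m n φ x ∧ Sg m n ψ x) else (Sg m n φ x ∨ Sg m n ψ x)))
  | 0, true, _, φ, ψ, x => m.and φ ψ x
  | 0, false, X, φ, ψ, x => by
    have h1 : ∀ φ ψ : ℓ.Q X, m.H x (ℓ.neg (ℓ.and (ℓ.neg φ) (ℓ.neg ψ))) ↔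
        (m.H x φ ∨ m.H x ψ) := by
      intro φ ψ
      rw [m.neg, m.and, m.neg, m.neg]; tauto
    exact h1 φ ψ
  | n + 1, b, X, ⟨a, φ⟩, ⟨a', ψ⟩, x => by
    simp only [comb, Sg]
    have key : ∀ y : Fin (a + a') → M, (Sg m n (comb n (!b) (ren n (Sum.map id (Fin.castAdd a')) φ)
        (ren n (Sum.map id (Fin.natAdd a)) ψ)) (Sum.elim x y) ↔
        if b then (Sg m n φ (Sum.elim x (y ∘ Fin.castAdd a')) ∨
            Sg m n ψ (Sum.elim x (y ∘ Fin.natAdd a)))
          else (Sg m n φ (Sum.elim x (y ∘ Fin.castAdd a')) ∧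
            Sg m n ψ (Sum.elim x (y ∘ Fin.natAdd a)))) := by
      intro y
      rw [Sg_comb n, Sg_ren, Sg_ren]
      have h1 : Sum.elim x y ∘ Sum.map id (Fin.castAdd a') = Sum.elim x (y ∘ Fin.castAdd a') := by
        ext i; rcases i with i | i <;> rfl
      have h2 : Sum.elim x y ∘ Sum.map id (Fin.natAdd a) = Sum.elim x (y ∘ Fin.natAdd a) := by
        ext i; rcases i with i | i <;> rfl
      rw [h1, h2]
      cases b <;> simp
    simp only [key]
    have e1 : ∀ (y₁ : Fin a → M) (y₂ : Fin a' → M), Fin.append y₁ y₂ ∘ Fin.castAdd a' = y₁ := by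
      intro y₁ y₂; ext i; simp
    have e2 : ∀ (y₁ : Fin a → M) (y₂ : Fin a' → M), Fin.append y₁ y₂ ∘ Fin.natAdd a = y₂ := by
      intro y₁ y₂; ext i; simp
    cases b
    · simp only [Bool.false_eq_true, if_false]
      constructor
      · rintro ⟨y, hy⟩
        by_cases h : Sg m n φ (Sum.elim x (y ∘ Fin.castAdd a'))
        · exact Or.inr ⟨y ∘ Fin.natAdd a, fun h' => hy ⟨h, h'⟩⟩
        · exact Or.inl ⟨_, h⟩
      · rintro (⟨y, hy⟩ | ⟨y, hy⟩)
        · refine ⟨Fin.append y (fun _ => Classical.arbitrary M), fun h => hy ?_⟩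
          rw [e1] at h; exact h.1
        · refine ⟨Fin.append (fun _ => Classical.arbitrary M) y, fun h => hy ?_⟩
          rw [e2] at h; exact h.2
    · simp only [if_true]
      constructor
      · rintro ⟨y, hy⟩
        exact ⟨⟨_, fun h => hy (Or.inl h)⟩, ⟨_, fun h => hy (Or.inr h)⟩⟩
      · rintro ⟨⟨y₁, h₁⟩, ⟨y₂, h₂⟩⟩
        refine ⟨Fin.append y₁ y₂, ?_⟩
        rw [e1, e2]
        rintro (h | h)
        · exact h₁ h
        · exact h₂ h

theorem Sg_supp : (n : ℕ) → {X : Type} → (φ : Frag ℓ.Q n X) → ∃ F : Finset X,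
    ∀ (x x' : X → M), (∀ i ∈ F, x i = x' i) → (Sg m n φ x ↔ Sg m n φ x')
  | 0, _, φ => m.supp φ
  | n + 1, X, ⟨a, φ⟩ => by
    classical
    obtain ⟨F, hF⟩ := Sg_supp n φ
    refine ⟨F.toLeft, fun x x' h => ?_⟩
    simp only [Sg]
    refine exists_congr fun y => not_congr (hF _ _ ?_)
    rintro (i | i) hi
    · exact h i (by simpa using hi)
    · rfl

/-- the formula with more existentially quantified variables -/
def exq (n p : ℕ) {X : Type} : Frag ℓ.Q (n + 1) (X ⊕ Fin p) → Frag ℓ.Q (n + 1) X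
  | ⟨a, φ⟩ => ⟨p + a, ren n (Sum.elim (Sum.elim Sum.inl (fun i => Sum.inr (Fin.castAdd a i)))
      (fun i => Sum.inr (Fin.natAdd p i))) φ⟩

theorem Sg_exq (n p : ℕ) {X : Type} (φ : Frag ℓ.Q (n + 1) (X ⊕ Fin p)) (x : X → M) :
    Sg m (n + 1) (exq n p φ) x ↔ ∃ y : Fin p → M, Sg m (n + 1) φ (Sum.elim x y) := by
  obtain ⟨a, φ⟩ := φ
  simp only [exq, Sg]
  constructor
  · rintro ⟨y, hy⟩
    refine ⟨fun i => y (Fin.castAdd a i), fun i => y (Fin.natAdd p i), ?_⟩
    rw [Sg_ren] at hy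
    intro h
    apply hy
    have : Sum.elim x y ∘ (Sum.elim (Sum.elim Sum.inl (fun i => Sum.inr (Fin.castAdd a i)))
      (fun i => Sum.inr (Fin.natAdd p i))) = Sum.elim (Sum.elim x fun i => y (Fin.castAdd a i))
        (fun i => y (Fin.natAdd p i)) := by
      ext i; rcases i with (i | i) | i <;> rfl
    rw [this]; exact h
  · rintro ⟨y, z, hz⟩
    refine ⟨Fin.append y z, ?_⟩
    rw [Sg_ren]
    intro h
    apply hz
    have : Sum.elim x (Fin.append y z) ∘
      (Sum.elim (Sum.elim Sum.inl (fun i => Sum.inr (Fin.castAdd a i)))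
      (fun i => Sum.inr (Fin.natAdd p i))) = Sum.elim (Sum.elim x y) z := by
      ext i; rcases i with (i | i) | i
      · rfl
      · simp
      · simp
    rw [this] at h; exact h

end

/-! ### the theorem of Łoś -/

/-- the ultrapower of a semantics -/
def Los {M : Type u} (m₀ : ℓ.Md M) (m : ℓ.Md (Up M)) : Prop :=
  ∀ {X : Type} (x : X → ℕ → M) (φ : ℓ.Q X),
    m.H (fun i => toUp (x i)) φ ↔ ∀ᶠ j in (UU : Filter ℕ), m₀.H (fun i => x i j) φ

theorem los {M : Type u} {m₀ : ℓ.Md M} {m : ℓ.Md (Up M)} (h : Los m₀ m) :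
    (n : ℕ) → {X : Type} → (φ : Frag ℓ.Q n X) → (x : X → ℕ → M) →
    (Sg m n φ (fun i => toUp (x i)) ↔ ∀ᶠ j in (UU : Filter ℕ), Sg m₀ n φ (fun i => x i j))
  | 0, _, φ, x => h x φ
  | n + 1, X, ⟨a, φ⟩, x => by
    simp only [Sg]
    have aux : ∀ y : Fin a → ℕ → M, (¬ Sg m n φ (Sum.elim (fun i => toUp (x i)) (fun i => toUp (y i))) ↔
        ∀ᶠ j in (UU : Filter ℕ), ¬ Sg m₀ n φ (Sum.elim (fun i => x i j) (fun i => y i j))) := by
      intro y
      rw [Ultrafilter.eventually_not]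
      apply not_congr
      have := los h n φ (Sum.elim x y)
      have e1 : (fun i => toUp (Sum.elim x y i)) = Sum.elim (fun i => toUp (x i)) (fun i => toUp (y i)) := by
        ext i; rcases i with i | i <;> rfl
      have e2 : ∀ j, (fun i => Sum.elim x y i j) = Sum.elim (fun i => x i j) (fun i => y i j) := by
        intro j; ext i; rcases i with i | i <;> rfl
      rw [e1] at this
      rw [this]
      simp only [e2]
    constructor
    · rintro ⟨y, hy⟩
      have : y = fun i => toUp (rep (y i)) := by ext i; simp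
      rw [this, aux] at hy
      filter_upwards [hy] with j hj
      exact ⟨_, hj⟩
    · intro hj
      obtain ⟨f, hf⟩ := hj.choice
      refine ⟨fun i => toUp (fun j => f j i), ?_⟩
      rw [aux]
      exact hf

end Pool.Agent.J6H67.AK
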