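import Pool.Agent.J6H67.AK.Upw

/-!
# The languages of rings and of ordered groups in ultrapowers
-/

set_option autoImplicit false

universe u

namespace Pool.Agent.J6H67.AK

open Filter

deriving instance Countable for RTm
deriving instance Countable for RQF
deriving instance Countable for GTm
deriving instance Countable for GQF

/-! ### rings -/

/-- renaming -/
def RTm.ren {X X' : Type} (f : X → X') : RTm X → RTm X'
  | .var i => .var (f i)
  | .zero => .zero
  | .one => .one
  | .add s t => .add (s.ren f) (t.ren f)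
  | .neg s => .neg (s.ren f)
  | .mul s t => .mul (s.ren f) (t.ren f)

/-- renaming -/
def RQF.ren {X X' : Type} (f : X → X') : RQF X → RQF X'
  | .eq s t => .eq (s.ren f) (t.ren f)
  | .not φ => .not (φ.ren f)
  | .and φ ψ => .and (φ.ren f) (ψ.ren f)
  | .or φ ψ => .or (φ.ren f) (ψ.ren f)

theorem RTm.eval_ren {X X' : Type} {R : Type u} [Ring R] (f : X → X') (x : X' → R) (t : RTm X) :
    (t.ren f).eval x = t.eval (x ∘ f) := by
  induction t with
  | var i => rfl
  | zero => rfl
  | one => rfl
  | add s t hs ht => simp only [RTm.ren, RTm.eval, hs, ht]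
  | neg s hs => simp only [RTm.ren, RTm.eval, hs]
  | mul s t hs ht => simp only [RTm.ren, RTm.eval, hs, ht]

theorem RQF.holds_ren {X X' : Type} {R : Type u} [Ring R] (f : X → X') (x : X' → R) (φ : RQF X) :
    (φ.ren f).Holds x ↔ φ.Holds (x ∘ f) := by
  induction φ with
  | eq s t => simp only [RQF.ren, RQF.Holds, RTm.eval_ren]
  | not φ h => simp only [RQF.ren, RQF.Holds, h]
  | and φ ψ h h' => simp only [RQF.ren, RQF.Holds, h, h']
  | or φ ψ h h' => simp only [RQF.ren, RQF.Holds, h, h']

theorem RTm.supp {X : Type} {R : Type u} [Ring R] (t : RTm X) : ∃ F : Finset X, ∀ (x x' : X → R),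
    (∀ i ∈ F, x i = x' i) → t.eval x = t.eval x' := by
  classical
  induction t with
  | var i => exact ⟨{i}, fun x x' h => h i (Finset.mem_singleton_self i)⟩
  | zero => exact ⟨∅, fun x x' h => rfl⟩
  | one => exact ⟨∅, fun x x' h => rfl⟩
  | add s t hs ht =>
    obtain ⟨F, hF⟩ := hs; obtain ⟨F', hF'⟩ := ht
    refine ⟨F ∪ F', fun x x' h => ?_⟩
    simp only [RTm.eval]
    rw [hF x x' fun i hi => h i (Finset.mem_union_left _ hi),
      hF' x x' fun i hi => h i (Finset.mem_union_right _ hi)]
  | neg s hs =>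
    obtain ⟨F, hF⟩ := hs
    refine ⟨F, fun x x' h => ?_⟩
    simp only [RTm.eval]
    rw [hF x x' h]
  | mul s t hs ht =>
    obtain ⟨F, hF⟩ := hs; obtain ⟨F', hF'⟩ := ht
    refine ⟨F ∪ F', fun x x' h => ?_⟩
    simp only [RTm.eval]
    rw [hF x x' fun i hi => h i (Finset.mem_union_left _ hi),
      hF' x x' fun i hi => h i (Finset.mem_union_right _ hi)]

theorem RQF.supp {X : Type} {R : Type u} [Ring R] (φ : RQF X) : ∃ F : Finset X,
    ∀ (x x' : X → R), (∀ i ∈ F, x i = x' i) → (φ.Holds x ↔ φ.Holds x') := by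
  classical
  induction φ with
  | eq s t =>
    obtain ⟨F, hF⟩ := s.supp (R := R); obtain ⟨F', hF'⟩ := t.supp (R := R)
    refine ⟨F ∪ F', fun x x' h => ?_⟩
    simp only [RQF.Holds]
    rw [hF x x' fun i hi => h i (Finset.mem_union_left _ hi),
      hF' x x' fun i hi => h i (Finset.mem_union_right _ hi)]
  | not φ h =>
    obtain ⟨F, hF⟩ := h
    exact ⟨F, fun x x' h => not_congr (hF x x' h)⟩
  | and φ ψ h h' =>
    obtain ⟨F, hF⟩ := h; obtain ⟨F', hF'⟩ := h'
    exact ⟨F ∪ F', fun x x' h => and_congr (hF x x' fun i hi => h i (Finset.mem_union_left _ hi))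
      (hF' x x' fun i hi => h i (Finset.mem_union_right _ hi))⟩
  | or φ ψ h h' =>
    obtain ⟨F, hF⟩ := h; obtain ⟨F', hF'⟩ := h'
    exact ⟨F ∪ F', fun x x' h => or_congr (hF x x' fun i hi => h i (Finset.mem_union_left _ hi))
      (hF' x x' fun i hi => h i (Finset.mem_union_right _ hi))⟩

/-- the language of rings -/
def ringLg : Lg where
  Q := RQF
  ren := RQF.ren
  neg := RQF.not
  and := RQF.and
  cnt := fun h => inferInstance

/-- the semantics of the language of rings -/
def ringMd (R : Type u) [Ring R] : ringLg.Md R where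
  H := RQF.Holds
  ren f φ x := RQF.holds_ren f x φ
  neg _ _ := Iff.rfl
  and _ _ _ := Iff.rfl
  supp φ := RQF.supp φ

theorem RTm.eval_up {X : Type} {R : Type u} [Ring R] (x : X → ℕ → R) (t : RTm X) :
    t.eval (fun i => toUp (x i)) = toUp fun j => t.eval fun i => x i j := by
  induction t with
  | var i => rfl
  | zero => rfl
  | one => rfl
  | add s t hs ht => simp only [RTm.eval, hs, ht]; rfl
  | neg s hs => simp only [RTm.eval, hs]; rfl
  | mul s t hs ht => simp only [RTm.eval, hs, ht]; rfl

theorem los_ring (R : Type u) [Ring R] : Los (ringMd R) (ringMd (Up R)) := by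
  intro X x φ
  show RQF.Holds _ φ ↔ _
  induction φ with
  | eq s t => 
    simp only [RQF.Holds, RTm.eval_up]
    exact mk_eq
  | not φ h =>
    refine (not_congr h).trans ?_
    rw [← Ultrafilter.eventually_not]
    exact Iff.rfl
  | and φ ψ h h' =>
    refine (and_congr h h').trans ?_
    rw [← Filter.eventually_and]
    exact Iff.rfl
  | or φ ψ h h' =>
    refine (or_congr h h').trans ?_
    rw [← Ultrafilter.eventually_or]
    exact Iff.rfl

/-! ### ordered groups -/

/-- renaming -/
def GTm.ren {X X' : Type} (f : X → X') : GTm X → GTm X'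
  | .var i => .var (f i)
  | .zero => .zero
  | .add s t => .add (s.ren f) (t.ren f)
  | .neg s => .neg (s.ren f)

/-- renaming -/
def GQF.ren {X X' : Type} (f : X → X') : GQF X → GQF X'
  | .eq s t => .eq (s.ren f) (t.ren f)
  | .le s t => .le (s.ren f) (t.ren f)
  | .not φ => .not (φ.ren f)
  | .and φ ψ => .and (φ.ren f) (ψ.ren f)
  | .or φ ψ => .or (φ.ren f) (ψ.ren f)

theorem GTm.eval_ren {X X' : Type} {G : Type u} [CommGroup G] (f : X → X') (x : X' → G)
    (t : GTm X) : (t.ren f).eval x = t.eval (x ∘ f) := by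
  induction t with
  | var i => rfl
  | zero => rfl
  | add s t hs ht => simp only [GTm.ren, GTm.eval, hs, ht]
  | neg s hs => simp only [GTm.ren, GTm.eval, hs]

theorem GQF.holds_ren {X X' : Type} {G : Type u} [CommGroup G] [LE G] (f : X → X') (x : X' → G)
    (φ : GQF X) : (φ.ren f).Holds x ↔ φ.Holds (x ∘ f) := by
  induction φ with
  | eq s t => simp only [GQF.ren, GQF.Holds, GTm.eval_ren]
  | le s t => simp only [GQF.ren, GQF.Holds, GTm.eval_ren]
  | not φ h => simp only [GQF.ren, GQF.Holds, h]
  | and φ ψ h h' => simp only [GQF.ren, GQF.Holds, h, h']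
  | or φ ψ h h' => simp only [GQF.ren, GQF.Holds, h, h']

theorem GTm.supp {X : Type} {G : Type u} [CommGroup G] (t : GTm X) : ∃ F : Finset X,
    ∀ (x x' : X → G), (∀ i ∈ F, x i = x' i) → t.eval x = t.eval x' := by
  classical
  induction t with
  | var i => exact ⟨{i}, fun x x' h => h i (Finset.mem_singleton_self i)⟩
  | zero => exact ⟨∅, fun x x' h => rfl⟩
  | add s t hs ht =>
    obtain ⟨F, hF⟩ := hs; obtain ⟨F', hF'⟩ := ht
    refine ⟨F ∪ F', fun x x' h => ?_⟩
    simp only [GTm.eval]
    rw [hF x x' fun i hi => h i (Finset.mem_union_left _ hi),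
      hF' x x' fun i hi => h i (Finset.mem_union_right _ hi)]
  | neg s hs =>
    obtain ⟨F, hF⟩ := hs
    refine ⟨F, fun x x' h => ?_⟩
    simp only [GTm.eval]
    rw [hF x x' h]

theorem GQF.supp {X : Type} {G : Type u} [CommGroup G] [LE G] (φ : GQF X) : ∃ F : Finset X,
    ∀ (x x' : X → G), (∀ i ∈ F, x i = x' i) → (φ.Holds x ↔ φ.Holds x') := by
  classical
  induction φ with
  | eq s t =>
    obtain ⟨F, hF⟩ := s.supp (G := G); obtain ⟨F', hF'⟩ := t.supp (G := G)
    refine ⟨F ∪ F', fun x x' h => ?_⟩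
    simp only [GQF.Holds]
    rw [hF x x' fun i hi => h i (Finset.mem_union_left _ hi),
      hF' x x' fun i hi => h i (Finset.mem_union_right _ hi)]
  | le s t =>
    obtain ⟨F, hF⟩ := s.supp (G := G); obtain ⟨F', hF'⟩ := t.supp (G := G)
    refine ⟨F ∪ F', fun x x' h => ?_⟩
    simp only [GQF.Holds]
    rw [hF x x' fun i hi => h i (Finset.mem_union_left _ hi),
      hF' x x' fun i hi => h i (Finset.mem_union_right _ hi)]
  | not φ h =>
    obtain ⟨F, hF⟩ := h
    exact ⟨F, fun x x' h => not_congr (hF x x' h)⟩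
  | and φ ψ h h' =>
    obtain ⟨F, hF⟩ := h; obtain ⟨F', hF'⟩ := h'
    exact ⟨F ∪ F', fun x x' h => and_congr (hF x x' fun i hi => h i (Finset.mem_union_left _ hi))
      (hF' x x' fun i hi => h i (Finset.mem_union_right _ hi))⟩
  | or φ ψ h h' =>
    obtain ⟨F, hF⟩ := h; obtain ⟨F', hF'⟩ := h'
    exact ⟨F ∪ F', fun x x' h => or_congr (hF x x' fun i hi => h i (Finset.mem_union_left _ hi))
      (hF' x x' fun i hi => h i (Finset.mem_union_right _ hi))⟩

/-- the language of ordered abelian groups -/
def groupLg : Lg where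
  Q := GQF
  ren := GQF.ren
  neg := GQF.not
  and := GQF.and
  cnt := fun h => inferInstance

/-- the semantics of the language of ordered abelian groups -/
def groupMd (G : Type u) [CommGroup G] [LE G] : groupLg.Md G where
  H := GQF.Holds
  ren f φ x := GQF.holds_ren f x φ
  neg _ _ := Iff.rfl
  and _ _ _ := Iff.rfl
  supp φ := GQF.supp φ

theorem GTm.eval_up {X : Type} {G : Type u} [CommGroup G] (x : X → ℕ → G) (t : GTm X) :
    t.eval (fun i => toUp (x i)) = toUp fun j => t.eval fun i => x i j := by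
  induction t with
  | var i => rfl
  | zero => rfl
  | add s t hs ht => simp only [GTm.eval, hs, ht]; rfl
  | neg s hs => simp only [GTm.eval, hs]; rfl

theorem los_group (G : Type u) [CommGroup G] [LE G] : Los (groupMd G) (groupMd (Up G)) := by
  intro X x φ
  show GQF.Holds _ φ ↔ _
  induction φ with
  | eq s t => 
    simp only [GQF.Holds, GTm.eval_up]
    exact mk_eq
  | le s t => 
    simp only [GQF.Holds, GTm.eval_up]
    exact mk_le
  | not φ h =>
    refine (not_congr h).trans ?_
    rw [← Ultrafilter.eventually_not]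
    exact Iff.rfl
  | and φ ψ h h' =>
    refine (and_congr h h').trans ?_
    rw [← Filter.eventually_and]
    exact Iff.rfl
  | or φ ψ h h' =>
    refine (or_congr h h').trans ?_
    rw [← Ultrafilter.eventually_or]
    exact Iff.rfl

end Pool.Agent.J6H67.AK
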