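import Pool.Agent.J6H67.AK.LosC

/-!
# The language of valued fields in ultrapowers
-/

set_option autoImplicit false

universe u

namespace Pool.Agent.J6H67.AK

open Filter

/-- truth of quantifier-free formulas -/
def VM.H (M : VM.{u}) {X Y Z : Type} (x : X → M.K) (y : Y → M.k) (z : Z → M.Γ)
    (φ : VQF X Y Z) : Prop := VQF.Holds M.r M.v x y z φ

/-- blocks `∃ ¬ ∃ ¬ ...` -/
def SgV (M : VM.{u}) : (n : ℕ) → {X Y Z : Type} → VFrag n X Y Z → (X → M.K) → (Y → M.k) →
    (Z → M.Γ) → Prop
  | 0, _, _, _, φ, x, y, z => M.H x y z φ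
  | n + 1, _, _, _, ⟨a, b, c, φ⟩, x, y, z =>
    ∃ (x' : Fin a → M.K) (y' : Fin b → M.k) (z' : Fin c → M.Γ),
      ¬ SgV M n φ (Sum.elim x x') (Sum.elim y y') (Sum.elim z z')

theorem KTm.eval_up (M : VM.{u}) {X Y : Type} (x : X → ℕ → M.K) (y : Y → ℕ → M.k)
    (t : KTm X Y) : t.eval M.up.r (fun i => (toUp (x i) : M.up.K)) (fun i => (toUp (y i) : M.up.k)) =
      (toUp fun j => t.eval M.r (fun i => x i j) (fun i => y i j) : Up M.k) := by
  induction t with
  | var i => rfl
  | zero => rfl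
  | one => rfl
  | add s t hs ht => simp only [KTm.eval, hs, ht]; rfl
  | neg s hs => simp only [KTm.eval, hs]; rfl
  | mul s t hs ht => simp only [KTm.eval, hs, ht]; rfl
  | res s =>
    have h := RTm.eval_up x s
    show Germ.map M.r (RTm.eval (fun i => toUp (x i)) s) = _
    rw [h]
    rfl

theorem VTm.eval_up (M : VM.{u}) {X Z : Type} (x : X → ℕ → M.K) (z : Z → ℕ → M.Γ)
    (t : VTm X Z) : t.eval M.up.v (fun i => (toUp (x i) : M.up.K)) (fun i => (toUp (z i) : M.up.Γ)) =
      (toUp fun j => t.eval M.v (fun i => x i j) (fun i => z i j) : Up M.Γ) := by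
  induction t with
  | var i => rfl
  | zero => rfl
  | infty => rfl
  | add s t hs ht => simp only [VTm.eval, hs, ht]; rfl
  | neg s hs => simp only [VTm.eval, hs]; rfl
  | val s =>
    have h := RTm.eval_up x s
    show upv M.v (RTm.eval (fun i => toUp (x i)) s) = _
    rw [h]
    rfl

theorem losV₀ (M : VM.{u}) {X Y Z : Type} (x : X → ℕ → M.K) (y : Y → ℕ → M.k) (z : Z → ℕ → M.Γ)
    (φ : VQF X Y Z) : VM.H M.up (fun i => (toUp (x i) : M.up.K)) (fun i => (toUp (y i) : M.up.k))
      (fun i => (toUp (z i) : M.up.Γ)) φ ↔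
      ∀ᶠ j in (UU : Filter ℕ), M.H (fun i => x i j) (fun i => y i j) (fun i => z i j) φ := by
  unfold VM.H
  induction φ with
  | eqF s t =>
    have h1 := RTm.eval_up x s
    have h2 := RTm.eval_up x t
    show RTm.eval (fun i => toUp (x i)) s = RTm.eval (fun i => toUp (x i)) t ↔ _
    rw [h1, h2]
    exact mk_eq
  | eqK s t =>
    simp only [VQF.Holds]
    rw [KTm.eval_up M x y s, KTm.eval_up M x y t]
    exact mk_eq
  | eqV s t =>
    simp only [VQF.Holds]
    rw [VTm.eval_up M x z s, VTm.eval_up M x z t]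
    exact mk_eq
  | leV s t =>
    simp only [VQF.Holds]
    rw [VTm.eval_up M x z s, VTm.eval_up M x z t]
    exact mk_le
  | not φ h =>
    refine (not_congr h).trans ?_
    rw [← Ultrafilter.eventually_not]
    exact Iff.rfl
  | and φ ψ h h' =>
    refine (and_congr h h').trans ?_
    rw [← Filter.eventually_and]
    exact Iff.rfl
  | or φ ψ h h' =>
    refine (or_congr h h').trans ?_
    rw [← Ultrafilter.eventually_or]
    exact Iff.rfl

theorem losV (M : VM.{u}) : (n : ℕ) → {X Y Z : Type} → (φ : VFrag n X Y Z) →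
    (x : X → ℕ → M.K) → (y : Y → ℕ → M.k) → (z : Z → ℕ → M.Γ) →
    (SgV M.up n φ (fun i => (toUp (x i) : M.up.K)) (fun i => (toUp (y i) : M.up.k))
      (fun i => (toUp (z i) : M.up.Γ)) ↔
      ∀ᶠ j in (UU : Filter ℕ), SgV M n φ (fun i => x i j) (fun i => y i j) (fun i => z i j))
  | 0, _, _, _, φ, x, y, z => losV₀ M x y z φ
  | n + 1, X, Y, Z, ⟨a, b, c, φ⟩, x, y, z => by
    simp only [SgV]
    have e1K : ∀ (x' : Fin a → ℕ → M.K), (fun i => (toUp (Sum.elim x x' i) : M.up.K)) =
        Sum.elim (fun i => (toUp (x i) : M.up.K)) (fun i => (toUp (x' i) : M.up.K)) := by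
      intro x'; ext i; rcases i with i | i <;> rfl
    have e1k : ∀ (y' : Fin b → ℕ → M.k), (fun i => (toUp (Sum.elim y y' i) : M.up.k)) =
        Sum.elim (fun i => (toUp (y i) : M.up.k)) (fun i => (toUp (y' i) : M.up.k)) := by
      intro x'; ext i; rcases i with i | i <;> rfl
    have e1Γ : ∀ (z' : Fin c → ℕ → M.Γ), (fun i => (toUp (Sum.elim z z' i) : M.up.Γ)) =
        Sum.elim (fun i => (toUp (z i) : M.up.Γ)) (fun i => (toUp (z' i) : M.up.Γ)) := by
      intro x'; ext i; rcases i with i | i <;> rfl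
    have e2 : ∀ {X : Type} {A : Type u} {a : ℕ} (x : X → ℕ → A) (x' : Fin a → ℕ → A) (j : ℕ),
        (fun i => Sum.elim x x' i j) = Sum.elim (fun i => x i j) (fun i => x' i j) := by
      intro X A a x x' j; ext i; rcases i with i | i <;> rfl
    have aux : ∀ (x' : Fin a → ℕ → M.K) (y' : Fin b → ℕ → M.k) (z' : Fin c → ℕ → M.Γ),
        (¬ SgV M.up n φ
          (Sum.elim (fun i => (toUp (x i) : M.up.K)) (fun i => (toUp (x' i) : M.up.K)))
          (Sum.elim (fun i => (toUp (y i) : M.up.k)) (fun i => (toUp (y' i) : M.up.k)))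
          (Sum.elim (fun i => (toUp (z i) : M.up.Γ)) (fun i => (toUp (z' i) : M.up.Γ))) ↔
        ∀ᶠ j in (UU : Filter ℕ), ¬ SgV M n φ (Sum.elim (fun i => x i j) (fun i => x' i j))
          (Sum.elim (fun i => y i j) (fun i => y' i j))
          (Sum.elim (fun i => z i j) (fun i => z' i j))) := by
      intro x' y' z'
      rw [Ultrafilter.eventually_not]
      apply not_congr
      have := losV M n φ (Sum.elim x x') (Sum.elim y y') (Sum.elim z z')
      simp only [e2] at this
      rw [← this, e1K, e1k, e1Γ]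
      exact Iff.rfl
    constructor
    · rintro ⟨x', y', z', h⟩
      have h1 : x' = fun i => (toUp (rep (x' i)) : M.up.K) := funext fun i => (toUp_rep _).symm
      have h2 : y' = fun i => (toUp (rep (y' i)) : M.up.k) := funext fun i => (toUp_rep _).symm
      have h3 : z' = fun i => (toUp (rep (z' i)) : M.up.Γ) := funext fun i => (toUp_rep _).symm
      rw [h1, h2, h3] at h
      have h' := (aux _ _ _).1 h
      filter_upwards [h'] with j hj
      exact ⟨_, _, _, hj⟩
    · intro hj
      obtain ⟨f, hf⟩ := hj.choice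
      obtain ⟨g, hg⟩ := hf.choice
      obtain ⟨h, hh⟩ := hg.choice
      refine ⟨fun i => toUp (fun j => f j i), fun i => toUp (fun j => g j i),
        fun i => toUp (fun j => h j i), ?_⟩
      exact (aux _ _ _).2 hh

end Pool.Agent.J6H67.AK
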