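import Pool.Agent.J6H67.AK.Emb
import Pool.Agent.J6H67.AK.Cross2
import Pool.Agent.J6H67.AK.LosV

/-!
# Back and forth for valued fields
-/

set_option autoImplicit false

universe u

namespace Pool.Agent.J6H67.AK

open Filter Polynomial

section

variable {M N : VM.{u}} {S : CS M} {T : CS N} {gr : Set (M.k × N.k)} {gv : Set (M.Γ × N.Γ)}
  {p : Subring (M.K × N.K)}

/-- the inverse graph -/
def sw (p : Subring (M.K × N.K)) : Subring (N.K × M.K) :=
  p.comap (RingEquiv.prodComm : N.K × M.K ≃+* M.K × N.K).toRingHom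

theorem mem_sw {z : N.K × M.K} : z ∈ sw p ↔ z.swap ∈ p := Iff.rfl

theorem PI.sw (hp : PI S T gr gv p) : PI T S (Prod.swap ⁻¹' gr) (Prod.swap ⁻¹' gv) (sw p) where
  inv z hz := hp.inv _ hz
  val z hz := hp.val _ hz
  res z hz := hp.res _ hz
  sec z hz := hp.sec _ hz

theorem PI.mono (hp : PI S T gr gv p) {gr' : Set (M.k × N.k)} {gv' : Set (M.Γ × N.Γ)}
    (h : gr ⊆ gr') (h' : gv ⊆ gv') : PI S T gr' gv' p where
  inv := hp.inv
  val z hz := h' (hp.val z hz)
  res z hz := h (hp.res z hz)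
  sec := hp.sec

theorem PI.inj (hV : IsV gv) (hp : PI S T gr gv p) {z w : M.K × N.K} (hz : z ∈ p) (hw : w ∈ p) :
    z.1 = w.1 ↔ z.2 = w.2 := by
  have := hp.eq_zero hV (p.sub_mem hz hw)
  rw [Prod.fst_sub, Prod.snd_sub, sub_eq_zero, sub_eq_zero] at this
  exact this

theorem IsR.inj (hR : IsR gr) {z w : M.k × N.k} (hz : z ∈ gr) (hw : w ∈ gr) :
    z.1 = w.1 ↔ z.2 = w.2 := by
  have := hR.eq0 _ (hR.add _ hz _ (hR.neg _ hw))
  rw [← sub_eq_add_neg, Prod.fst_sub, Prod.snd_sub, sub_eq_zero, sub_eq_zero] at this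
  exact this

theorem IsV.inj' (hV : IsV gv) {z w : M.Γ × N.Γ} (hz : z ∈ gv) (hw : w ∈ gv) :
    z.1 = w.1 ↔ z.2 = w.2 := by
  rw [le_antisymm_iff, le_antisymm_iff, hV.le _ hz _ hw, hV.le _ hw _ hz]

variable {X Y Z : Type} {x : X → M.K × N.K} {y : Y → M.k × N.k} {z : Z → M.Γ × N.Γ}

theorem rtm_mem (hx : ∀ i, x i ∈ p) (t : RTm X) :
    (t.eval (fun i => (x i).1), t.eval (fun i => (x i).2)) ∈ p := by
  induction t with
  | var i => exact hx i
  | zero => exact p.zero_mem
  | one => exact p.one_mem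
  | add s t hs ht => exact p.add_mem hs ht
  | neg s hs => exact p.neg_mem hs
  | mul s t hs ht => exact p.mul_mem hs ht

theorem ktm_mem (hR : IsR gr) (hp : PI S T gr gv p) (hx : ∀ i, x i ∈ p) (hy : ∀ i, y i ∈ gr)
    (t : KTm X Y) : (t.eval M.r (fun i => (x i).1) (fun i => (y i).1),
      t.eval N.r (fun i => (x i).2) (fun i => (y i).2)) ∈ gr := by
  induction t with
  | var i => exact hy i
  | zero => exact hR.zero
  | one => exact hR.one
  | add s t hs ht => exact hR.add _ hs _ ht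
  | neg s hs => exact hR.neg _ hs
  | mul s t hs ht => exact hR.mul _ hs _ ht
  | res s => exact hp.res _ (rtm_mem hx s)

theorem vtm_mem (hV : IsV gv) (hp : PI S T gr gv p) (hx : ∀ i, x i ∈ p) (hz : ∀ i, z i ∈ gv)
    (t : VTm X Z) : (t.eval M.v (fun i => (x i).1) (fun i => (z i).1),
      t.eval N.v (fun i => (x i).2) (fun i => (z i).2)) ∈ gv := by
  induction t with
  | var i => exact hz i
  | zero => exact hV.one
  | infty => exact hV.zero
  | add s t hs ht => exact hV.mul _ hs _ ht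
  | neg s hs => exact hV.inv _ hs
  | val s => exact hp.val _ (rtm_mem hx s)

theorem qf_iff (hR : IsR gr) (hV : IsV gv) (hp : PI S T gr gv p) (hx : ∀ i, x i ∈ p)
    (hy : ∀ i, y i ∈ gr) (hz : ∀ i, z i ∈ gv) (φ : VQF X Y Z) :
    M.H (fun i => (x i).1) (fun i => (y i).1) (fun i => (z i).1) φ ↔
      N.H (fun i => (x i).2) (fun i => (y i).2) (fun i => (z i).2) φ := by
  unfold VM.H
  induction φ with
  | eqF s t => exact hp.inj hV (rtm_mem hx s) (rtm_mem hx t)
  | eqK s t => exact hR.inj (ktm_mem hR hp hx hy s) (ktm_mem hR hp hx hy t)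
  | eqV s t => exact hV.inj' (vtm_mem hV hp hx hz s) (vtm_mem hV hp hx hz t)
  | leV s t => exact hV.le _ (vtm_mem hV hp hx hz t) _ (vtm_mem hV hp hx hz s)
  | not φ h => exact not_congr h
  | and φ ψ h h' => exact and_congr h h'
  | or φ ψ h h' => exact or_congr h h'

end

/-- the main theorem on back and forth -/
theorem main_bf : (n : ℕ) → {M N : VM.{u}} → {S : CS M} → {T : CS N} → (PcSat M) → (PcSat N) →
    {gr : Set (M.k × N.k)} → {gv : Set (M.Γ × N.Γ)} → GoodR n M.k N.k gr → GoodV n M.Γ N.Γ gv →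
    {p : Subring (M.K × N.K)} → PI S T gr gv p → (p : Set (M.K × N.K)).Countable →
    {X Y Z : Type} → (φ : VFrag n X Y Z) → (x : X → M.K × N.K) → (y : Y → M.k × N.k) →
    (z : Z → M.Γ × N.Γ) → (∀ i, x i ∈ p) → (∀ i, y i ∈ gr) → (∀ i, z i ∈ gv) →
    SgV M n φ (fun i => (x i).1) (fun i => (y i).1) (fun i => (z i).1) →
    SgV N n φ (fun i => (x i).2) (fun i => (y i).2) (fun i => (z i).2)
  | 0, M, N, S, T, hM, hN, gr, gv, hR, hV, p, hp, hpc, X, Y, Z, φ, x, y, z, hx, hy, hz => by
    intro h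
    exact (qf_iff hR hV hp hx hy hz φ).1 h
  | n + 1, M, N, S, T, hM, hN, gr, gv, hR, hV, p, hp, hpc, X, Y, Z, ⟨a, b, c, φ⟩, x, y, z,
      hx, hy, hz => by
    classical
    rintro ⟨x', y', z', h⟩
    -- a countable closed subfield
    obtain ⟨E, hEc, hXE, hEs, hEa⟩ := exists_closed M S
      ((Prod.fst '' (p : Set (M.K × N.K))) ∪ Set.range x')
      ((hpc.image _).union (Set.countable_range x'))
    have hpE : ∀ w ∈ p, w.1 ∈ E := fun w hw => hXE (Or.inl ⟨w, hw, rfl⟩)
    have hxE : ∀ i, x' i ∈ E := fun i => hXE (Or.inr ⟨i, rfl⟩)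
    obtain ⟨gr', hgr, hgr1, hgr2⟩ := hR.2 ((M.r '' (E : Set M.K)) ∪ Set.range y')
      ((hEc.image _).union (Set.countable_range y'))
    obtain ⟨gv', hgv, hgv1, hgv2⟩ := hV.2 ((M.v '' (E : Set M.K)) ∪ Set.range z')
      ((hEc.image _).union (Set.countable_range z'))
    have hR' : IsR gr' := hgr2.isR.swap
    have hV' : IsV gv' := hgv2.isV.swap
    obtain ⟨q, hpq, hq, hqE, hqE'⟩ := embed hV' hR' (hp.mono hgr hgv) hN E hEc hpE hEs hEa
      (fun x hx => hgr1 _ (Or.inl ⟨x, hx, rfl⟩)) (fun x hx => hgv1 _ (Or.inl ⟨x, hx, rfl⟩))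
    -- the images of the witnesses
    have h1 : ∀ i, ∃ w ∈ q, w.1 = x' i := fun i => hqE' _ (hxE i)
    have h2 : ∀ i, ∃ l, (y' i, l) ∈ gr' := fun i => hgr1 _ (Or.inr ⟨i, rfl⟩)
    have h3 : ∀ i, ∃ l, (z' i, l) ∈ gv' := fun i => hgv1 _ (Or.inr ⟨i, rfl⟩)
    choose x₂ hx₂ hx₂' using h1
    choose y₂ hy₂ using h2
    choose z₂ hz₂ using h3
    have hqc : ((q : Subring (M.K × N.K)) : Set (M.K × N.K)).Countable := by
      have hinj : Set.InjOn Prod.fst (q : Set (M.K × N.K)) := by
        intro w hw w' hw' e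
        exact Prod.ext e ((hq.inj hV' hw hw').1 e)
      refine Set.MapsTo.countable_of_injOn (t := (E : Set M.K)) (fun w hw => hqE w hw) hinj hEc
    refine ⟨fun i => (x₂ i).2, y₂, z₂, fun hc => h ?_⟩
    have IH := main_bf n (M := N) (N := M) (S := T) (T := S) hN hM
      (gr := Prod.swap ⁻¹' gr') (gv := Prod.swap ⁻¹' gv') hgr2 hgv2 (p := sw q) hq.sw
      (by
        have : ((sw q : Subring (N.K × M.K)) : Set (N.K × M.K)) =
            Prod.swap '' (q : Set (M.K × N.K)) := by
          ext w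
          constructor
          · intro hw
            exact ⟨w.swap, hw, Prod.swap_swap w⟩
          · rintro ⟨w', hw', rfl⟩
            exact hw'
        rw [this]
        exact hqc.image _)
      φ (Sum.elim (fun i => (x i).swap) (fun i => (x₂ i).swap))
      (Sum.elim (fun i => (y i).swap) (fun i => (y₂ i, y' i)))
      (Sum.elim (fun i => (z i).swap) (fun i => (z₂ i, z' i)))
      (by
        rintro (i | i)
        · exact hpq (hx i)
        · exact hx₂ i)
      (by
        rintro (i | i)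
        · exact hgr (hy i)
        · exact hy₂ i)
      (by
        rintro (i | i)
        · exact hgv (hz i)
        · exact hz₂ i)
    have e1 : (fun i => (Sum.elim (fun i => (x i).swap) (fun i => (x₂ i).swap) i).1) =
        Sum.elim (fun i => (x i).2) (fun i => (x₂ i).2) := by
      ext i; rcases i with i | i <;> rfl
    have e2 : (fun i => (Sum.elim (fun i => (y i).swap) (fun i => (y₂ i, y' i)) i).1) =
        Sum.elim (fun i => (y i).2) y₂ := by
      ext i; rcases i with i | i <;> rfl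
    have e3 : (fun i => (Sum.elim (fun i => (z i).swap) (fun i => (z₂ i, z' i)) i).1) =
        Sum.elim (fun i => (z i).2) z₂ := by
      ext i; rcases i with i | i <;> rfl
    have e4 : (fun i => (Sum.elim (fun i => (x i).swap) (fun i => (x₂ i).swap) i).2) =
        Sum.elim (fun i => (x i).1) x' := by
      ext i; rcases i with i | i
      · rfl
      · exact hx₂' i
    have e5 : (fun i => (Sum.elim (fun i => (y i).swap) (fun i => (y₂ i, y' i)) i).2) =
        Sum.elim (fun i => (y i).1) y' := by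
      ext i; rcases i with i | i <;> rfl
    have e6 : (fun i => (Sum.elim (fun i => (z i).swap) (fun i => (z₂ i, z' i)) i).2) =
        Sum.elim (fun i => (z i).1) z' := by
      ext i; rcases i with i | i <;> rfl
    rw [e1, e2, e3, e4, e5, e6] at IH
    exact IH hc

end Pool.Agent.J6H67.AK
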