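import Pool.Agent.J6H67.AK.Ext

/-!
# Valued fields as three-sorted structures, and their ultrapowers
-/

set_option autoImplicit false

universe u

namespace Pool.Agent.J6H67.AK

open Filter Polynomial

/-- linearly ordered groups with zero: ultrapowers -/
noncomputable instance upOrd {Γ : Type u} [LinearOrderedCommGroupWithZero Γ] :
    LinearOrderedCommGroupWithZero (Up Γ) where
  toLinearOrder := Germ.instLinearOrder
  __ := (inferInstance : CommMonoid (Up Γ))
  __ := (Germ.instGroupWithZero : GroupWithZero (Up Γ))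
  bot := 0
  bot_le := fun a => Germ.inductionOn a fun f => Germ.coe_le.2 (Eventually.of_forall fun _ => zero_le)
  isBot_zero := fun a => Germ.inductionOn a fun f =>
    Germ.coe_le.2 (Eventually.of_forall fun _ => zero_le)
  mul_lt_mul_of_pos_left := fun a ha b c hbc => by
    revert ha hbc
    refine Germ.inductionOn₃ a b c fun f g h ha hbc => ?_
    have h1 : ∀ᶠ i in (UU : Filter ℕ), 0 < f i := Germ.coe_lt.1 ha
    have h2 : ∀ᶠ i in (UU : Filter ℕ), g i < h i := Germ.coe_lt.1 hbc
    refine Germ.coe_lt.2 ?_
    filter_upwards [h1, h2] with i hi hi'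
    exact mul_lt_mul_of_pos_left hi' hi

/-- A henselian valued field of equal characteristic zero, as a three-sorted structure: the field
`K`, the residue field `k`, the value group with zero `Γ` (multiplicative notation), the
valuation `v` and the residue map `r`, which is zero outside of the valuation ring. -/
structure VM : Type (u + 1) where
  K : Type u
  k : Type u
  Γ : Type u
  [fK : Field K]
  [fk : Field k]
  [oΓ : LinearOrderedCommGroupWithZero Γ]
  v : Valuation K Γ
  r : K → k
  v_surj : Function.Surjective v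
  r_add : ∀ x y, v x ≤ 1 → v y ≤ 1 → r (x + y) = r x + r y
  r_mul : ∀ x y, v x ≤ 1 → v y ≤ 1 → r (x * y) = r x * r y
  r_one : r 1 = 1
  r_eq_zero : ∀ x, v x ≤ 1 → (r x = 0 ↔ v x < 1)
  r_out : ∀ x, 1 < v x → r x = 0
  r_surj : ∀ y, ∃ x, v x ≤ 1 ∧ r x = y
  char : ∀ n : ℕ, 0 < n → (n : k) ≠ 0
  hensel : ∀ f : K[X], f.Monic → (∀ i, v (f.coeff i) ≤ 1) → ∀ a, v a ≤ 1 → v (f.eval a) < 1 →
    v (f.derivative.eval a) = 1 → ∃ b, f.eval b = 0 ∧ v (b - a) < 1

attribute [instance] VM.fK VM.fk VM.oΓ

/-! ### from valuation rings -/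

theorem resMap_of_mem {K : Type u} [Field K] (O : ValuationSubring K) {a : K} (h : a ∈ O) :
    resMap O a = IsLocalRing.residue O ⟨a, h⟩ := by
  unfold resMap; rw [dif_pos h]

/-- the three-sorted structure of a valuation ring -/
noncomputable def VM.of {K : Type u} [Field K] (O : ValuationSubring K) [HenselianLocalRing O]
    [CharZero (IsLocalRing.ResidueField O)] : VM.{u} where
  K := K
  k := IsLocalRing.ResidueField O
  Γ := O.ValueGroup
  v := O.valuation
  r := resMap O
  v_surj := O.valuation_surjective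
  r_add x y hx hy := by
    rw [O.valuation_le_one_iff] at hx hy
    rw [resMap_of_mem O hx, resMap_of_mem O hy, resMap_of_mem O (O.add_mem _ _ hx hy), ← map_add]
    rfl
  r_mul x y hx hy := by
    rw [O.valuation_le_one_iff] at hx hy
    rw [resMap_of_mem O hx, resMap_of_mem O hy, resMap_of_mem O (O.mul_mem _ _ hx hy), ← map_mul]
    rfl
  r_one := by
    rw [resMap_of_mem O O.one_mem]
    exact map_one _
  r_eq_zero x hx := by
    have hx' := (O.valuation_le_one_iff x).1 hx
    rw [resMap_of_mem O hx', IsLocalRing.residue_eq_zero_iff]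
    exact (O.valuation_lt_one_iff ⟨x, hx'⟩)
  r_out x hx := by
    unfold resMap
    rw [dif_neg]
    intro h
    exact absurd ((O.valuation_le_one_iff x).2 h) (not_le.2 hx)
  r_surj y := by
    obtain ⟨x, rfl⟩ := IsLocalRing.residue_surjective y
    exact ⟨x, O.valuation_le_one x, resMap_of_mem O x.2⟩
  char n hn := by exact_mod_cast hn.ne'
  hensel f hf hc a ha h0 h1 := by
    have hl : ∀ i, f.coeff i ∈ O := fun i => (O.valuation_le_one_iff _).1 (hc i)
    have ha' : a ∈ O := (O.valuation_le_one_iff _).1 ha
    obtain ⟨g, hg, hdeg, hgm⟩ : ∃ g : O[X], g.map (algebraMap O K) = f ∧ g.degree = f.degree ∧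
        g.Monic := by
      apply Polynomial.lifts_and_degree_eq_and_monic _ hf
      rw [Polynomial.lifts_iff_coeff_lifts]
      intro i
      exact ⟨⟨f.coeff i, hl i⟩, rfl⟩
    have ev : ∀ b : O, ((g.eval b : O) : K) = f.eval (b : K) := by
      intro b
      rw [← hg, Polynomial.eval_map]
      exact (Polynomial.eval₂_at_apply (algebraMap O K) b).symm
    have ev' : ∀ b : O, ((g.derivative.eval b : O) : K) = f.derivative.eval (b : K) := by
      intro b
      rw [← hg, Polynomial.derivative_map, Polynomial.eval_map]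
      exact (Polynomial.eval₂_at_apply (algebraMap O K) b).symm
    obtain ⟨b, hb, hb'⟩ := HenselianLocalRing.is_henselian g hgm ⟨a, ha'⟩
      ((O.valuation_lt_one_iff _).2 (by rw [ev]; exact h0))
      ((O.valuation_eq_one_iff _).2 (by rw [ev']; exact h1))
    refine ⟨b, ?_, ?_⟩
    · rw [← ev, hb.eq_zero]; rfl
    · exact (O.valuation_lt_one_iff _).1 hb'

end Pool.Agent.J6H67.AK
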