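import Pool.Agent.J6H67.AK.Kap
import Pool.Agent.J6H67.AK.Str

/-!
# Newton's form of Hensel's lemma
-/

set_option autoImplicit false

universe u

namespace Pool.Agent.J6H67.AK

open Filter Polynomial

theorem VM.v_nat_le (M : VM.{u}) (n : ℕ) : M.v (n : M.K) ≤ 1 := by
  induction n with
  | zero => simp
  | succ n ih =>
    rw [Nat.cast_succ]
    exact (M.v.map_add _ _).trans (max_le ih (by simp))

theorem VM.r_nat (M : VM.{u}) (n : ℕ) : M.r (n : M.K) = n := by
  induction n with
  | zero =>
    rw [Nat.cast_zero, Nat.cast_zero]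
    exact (M.r_eq_zero 0 (by simp)).2 (by simp)
  | succ n ih =>
    rw [Nat.cast_succ, Nat.cast_succ, M.r_add _ _ (M.v_nat_le n) (by simp), ih, M.r_one]

theorem VM.v_nat (M : VM.{u}) (n : ℕ) (hn : 0 < n) : M.v (n : M.K) = 1 := by
  refine le_antisymm (M.v_nat_le n) ?_
  by_contra hc
  push Not at hc
  have := (M.r_eq_zero _ (M.v_nat_le n)).2 hc
  rw [M.r_nat] at this
  exact M.char n hn this

/-- Newton's lemma -/
theorem VM.newton (M : VM.{u}) (P : M.K[X]) (a : M.K) (h1 : M.v ((hasseDeriv 1 P).eval a) ≠ 0)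
    (h0 : M.v (P.eval a) ≠ 0)
    (hi : ∀ i, 2 ≤ i → M.v ((hasseDeriv i P).eval a) *
      (M.v (P.eval a) / M.v ((hasseDeriv 1 P).eval a)) ^ i < M.v (P.eval a)) :
    ∃ b, P.eval b = 0 ∧ M.v (b - a) = M.v (P.eval a) / M.v ((hasseDeriv 1 P).eval a) ∧
      ∀ b', P.eval b' = 0 → M.v (b' - a) ≤ M.v (P.eval a) / M.v ((hasseDeriv 1 P).eval a) →
        b' = b := by
  classical
  set v := M.v
  set t : ℕ → M.K := fun i => (hasseDeriv i P).eval a with ht
  have ht0 : P.eval a = t 0 := by simp only [ht, hasseDeriv_zero']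
  have ht1 : (hasseDeriv 1 P).eval a = t 1 := rfl
  rw [ht0] at h0
  rw [ht1] at h1
  have hti : ∀ i, 2 ≤ i → v (t i) * (v (t 0) / v (t 1)) ^ i < v (t 0) := by
    rw [← ht0, ← ht1]; exact hi
  rw [ht0, ht1]
  clear hi
  clear_value t
  have hexp' : ∀ x, P.eval (a + x) = ∑ i ∈ Finset.range (P.natDegree + 1), t i * x ^ i := by
    intro x
    have := eval_taylor_sum P a (a + x)
    rw [add_sub_cancel_left] at this
    rw [this, ht]
  set ρ := v (t 0) / v (t 1) with hρ
  have t0 : t 0 ≠ 0 := fun h => h0 (by rw [h, map_zero])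
  have t1 : t 1 ≠ 0 := fun h => h1 (by rw [h, map_zero])
  set c := t 0 / t 1 with hc
  have vc : v c = ρ := by rw [hc, map_div₀]
  have hρ0 : ρ ≠ 0 := by rw [hρ]; exact div_ne_zero h0 h1
  have c0 : c ≠ 0 := div_ne_zero t0 t1
  set d := P.natDegree with hd
  have hd1 : 1 ≤ d := by
    by_contra hlt
    apply t1
    rw [← ht1, hasseDeriv_eq_zero_of_lt_natDegree _ _ (by omega), eval_zero]
  have hexp : ∀ x, P.eval (a + x) = ∑ i ∈ Finset.range (d + 1), t i * x ^ i := hexp'
  -- split off the first two terms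
  have hsplit : ∀ f : ℕ → M.K, ∑ i ∈ Finset.range (d + 1), f i = f 0 + f 1 +
      ∑ i ∈ Finset.Ico 2 (d + 1), f i := by
    intro f
    rw [Finset.range_eq_Ico, Finset.sum_eq_sum_Ico_succ_bot (by omega),
      Finset.sum_eq_sum_Ico_succ_bot (by omega)]
    exact (add_assoc _ _ _).symm
  set m : ℕ → M.K := fun i => t i * c ^ i / t 0 with hm
  have hmi : ∀ i, 2 ≤ i → v (m i) < 1 := by
    intro i hi2
    simp only [hm, map_div₀, map_mul, map_pow, vc]
    rw [div_lt_one₀ (zero_lt_iff.2 h0)]
    exact hti i hi2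
  set E : M.K[X] := ∑ i ∈ Finset.Ico 2 (d + 1), C (m i) * X ^ (d - i) with hE
  set G : M.K[X] := X ^ d + (X ^ (d - 1) + E) with hG
  have hEdeg : E.degree < d := by
    rw [hE]
    refine (degree_sum_le _ _).trans_lt ?_
    refine (Finset.sup_lt_iff (WithBot.bot_lt_coe d)).2 fun i hi' => ?_
    rw [Finset.mem_Ico] at hi'
    exact (degree_C_mul_X_pow_le _ _).trans_lt (WithBot.coe_lt_coe.2 (show d - i < d by omega))
  have hGm : G.Monic := by
    apply monic_X_pow_add
    refine (degree_add_le _ _).trans_lt (max_lt ?_ hEdeg)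
    rw [degree_X_pow]
    exact WithBot.coe_lt_coe.2 (show d - 1 < d by omega)
  have hEc : ∀ j, v (E.coeff j) < 1 := by
    intro j
    rw [hE, finsetSum_coeff]
    refine v.map_sum_lt one_ne_zero fun i hi' => ?_
    rw [coeff_C_mul, coeff_X_pow, map_mul]
    rw [Finset.mem_Ico] at hi'
    split_ifs
    · rw [map_one, mul_one]; exact hmi i hi'.1
    · rw [map_zero, mul_zero]; exact zero_lt_one
  have hGc : ∀ j, v (G.coeff j) ≤ 1 := by
    intro j
    rw [hG, coeff_add, coeff_add, coeff_X_pow, coeff_X_pow]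
    refine (v.map_add _ _).trans (max_le ?_ ((v.map_add _ _).trans (max_le ?_ (hEc j).le)))
    · split_ifs <;> simp
    · split_ifs <;> simp
  have v1 : v (-1 : M.K) = 1 := by rw [Valuation.map_neg, map_one]
  have hEe : v (E.eval (-1)) < 1 := by
    rw [hE, eval_finsetSum]
    refine v.map_sum_lt one_ne_zero fun i hi' => ?_
    rw [Finset.mem_Ico] at hi'
    rw [eval_mul, eval_C, eval_pow, eval_X, map_mul, map_pow, v1, one_pow, mul_one]
    exact hmi i hi'.1
  have hEe' : v (E.derivative.eval (-1)) < 1 := by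
    rw [hE, derivative_sum, eval_finsetSum]
    refine v.map_sum_lt one_ne_zero fun i hi' => ?_
    rw [Finset.mem_Ico] at hi'
    rw [derivative_C_mul_X_pow, eval_mul, eval_C, eval_pow, eval_X, map_mul, map_mul, map_pow, v1,
      one_pow, mul_one]
    exact lt_of_le_of_lt (mul_le_of_le_one_right' (M.v_nat_le _)) (hmi i hi'.1)
  have hG1 : v (G.eval (-1)) < 1 := by
    have : G.eval (-1) = E.eval (-1) := by
      rw [hG, eval_add, eval_add, eval_pow, eval_pow, eval_X]
      have : (-1 : M.K) ^ d = - (-1) ^ (d - 1) := by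
        conv_lhs => rw [show d = (d - 1) + 1 by omega]
        rw [pow_succ]; ring
      rw [this]; ring
    rw [this]; exact hEe
  have hG1' : v (G.derivative.eval (-1)) = 1 := by
    have e1 : G.derivative.eval (-1) = (-1) ^ (d - 1) + E.derivative.eval (-1) := by
      rw [hG, derivative_add, derivative_add, derivative_X_pow, derivative_X_pow, eval_add, eval_add,
        eval_mul, eval_mul, eval_pow, eval_pow, eval_X, eval_C, eval_C]
      rcases Nat.lt_or_ge 1 d with hd2 | hd2
      · have e2 : (-1 : M.K) ^ (d - 1) = - (-1) ^ (d - 1 - 1) := by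
          conv_lhs => rw [show d - 1 = (d - 1 - 1) + 1 by omega]
          rw [pow_succ]; ring
        have e3 : ((d - 1 : ℕ) : M.K) = (d : M.K) - 1 := by
          rw [Nat.cast_sub hd1, Nat.cast_one]
        rw [e3, e2]; ring
      · have : d = 1 := by omega
        rw [this]; simp
    rw [e1]
    have : v ((-1 : M.K) ^ (d - 1)) = 1 := by rw [map_pow, v1, one_pow]
    rw [← this]
    apply v.map_add_eq_of_lt_left
    rw [this]; exact hEe'
  obtain ⟨z, hz, hz1⟩ := M.hensel G hGm hGc (-1) v1.le hG1 hG1'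
  have vz : v z = 1 := by
    have e : z = (z - -1) + -1 := by ring
    rw [e, ← v1]
    apply v.map_add_eq_of_lt_right
    rw [v1]; exact hz1
  have z0 : z ≠ 0 := fun h => by rw [h, map_zero] at vz; exact zero_ne_one vz
  refine ⟨a + c / z, ?_, ?_, ?_⟩
  · rw [hexp]
    have e1 : ∀ i ∈ Finset.range (d + 1), t i * (c / z) ^ i = t 0 / z ^ d * (m i * z ^ (d - i)) := by
      intro i hi'
      have : z ^ d = z ^ (d - i) * z ^ i := by
        rw [← pow_add, Nat.sub_add_cancel (Nat.lt_succ_iff.1 (Finset.mem_range.1 hi'))]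
      rw [this, hm, div_pow]
      field_simp
    rw [Finset.sum_congr rfl e1, ← Finset.mul_sum, hsplit]
    have e2 : m 0 = 1 := by simp [hm, t0]
    have e3 : m 1 = 1 := by
      simp only [hm, hc]
      field_simp
    have e4 : G.eval z = m 0 * z ^ (d - 0) + m 1 * z ^ (d - 1) +
        ∑ i ∈ Finset.Ico 2 (d + 1), m i * z ^ (d - i) := by
      rw [hG, hE, eval_add, eval_add, eval_finsetSum, e2, e3]
      simp [add_assoc]
    rw [← e4, hz, mul_zero]
  · rw [add_sub_cancel_left, map_div₀, vz, div_one, vc]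
  · intro b' hb' hvb'
    set x := c / z with hx
    have vx : v x ≤ ρ := by rw [hx, map_div₀, vz, div_one, vc]
    set x' := b' - a with hx'
    have hb : P.eval (a + x) = 0 := by
      rw [hexp]
      have e1 : ∀ i ∈ Finset.range (d + 1), t i * (c / z) ^ i = t 0 / z ^ d * (m i * z ^ (d - i)) := by
        intro i hi'
        have : z ^ d = z ^ (d - i) * z ^ i := by
          rw [← pow_add, Nat.sub_add_cancel (Nat.lt_succ_iff.1 (Finset.mem_range.1 hi'))]
        rw [this, hm, div_pow]
        field_simp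
      rw [Finset.sum_congr rfl e1, ← Finset.mul_sum, hsplit]
      have e2 : m 0 = 1 := by simp [hm, t0]
      have e3 : m 1 = 1 := by
        simp only [hm, hc]
        field_simp
      have e4 : G.eval z = m 0 * z ^ (d - 0) + m 1 * z ^ (d - 1) +
          ∑ i ∈ Finset.Ico 2 (d + 1), m i * z ^ (d - i) := by
        rw [hG, hE, eval_add, eval_add, eval_finsetSum, e2, e3]
        simp [add_assoc]
      rw [← e4, hz, mul_zero]
    have hb'' : P.eval (a + x') = 0 := by rw [hx', add_sub_cancel]; exact hb'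
    rw [hexp] at hb hb''
    have hdiff : ∑ i ∈ Finset.range (d + 1), t i * (x' ^ i - x ^ i) = 0 := by
      simp only [mul_sub, Finset.sum_sub_distrib, hb, hb'', sub_zero]
    have hfac : (x' - x) * (t 1 + ∑ i ∈ Finset.Ico 2 (d + 1), t i *
        ∑ j ∈ Finset.range i, x' ^ j * x ^ (i - 1 - j)) = 0 := by
      rw [← hdiff, hsplit, mul_add, Finset.mul_sum]
      have : ∀ i, (x' - x) * (t i * ∑ j ∈ Finset.range i, x' ^ j * x ^ (i - 1 - j)) =
          t i * (x' ^ i - x ^ i) := by
        intro i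
        rw [← (Commute.all x' x).geom_sum₂_mul i]; ring
      simp only [this]
      ring
    rcases mul_eq_zero.1 hfac with h | h
    · have : x' = x := sub_eq_zero.1 h
      rw [← this, hx']; ring
    · exfalso
      have hs : v (∑ i ∈ Finset.Ico 2 (d + 1), t i *
          ∑ j ∈ Finset.range i, x' ^ j * x ^ (i - 1 - j)) < v (t 1) := by
        refine v.map_sum_lt h1 fun i hi' => ?_
        rw [Finset.mem_Ico] at hi'
        have h2 : v (∑ j ∈ Finset.range i, x' ^ j * x ^ (i - 1 - j)) ≤ ρ ^ (i - 1) := by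
          refine v.map_sum_le fun j hj => ?_
          rw [map_mul, map_pow, map_pow]
          have hj' := Finset.mem_range.1 hj
          calc v x' ^ j * v x ^ (i - 1 - j) ≤ ρ ^ j * ρ ^ (i - 1 - j) :=
                mul_le_mul' (pow_le_pow_left₀ zero_le hvb' _) (pow_le_pow_left₀ zero_le vx _)
            _ = ρ ^ (i - 1) := by rw [← pow_add]; congr 1; omega
        rw [map_mul]
        refine lt_of_le_of_lt (mul_le_mul_of_nonneg_left h2 zero_le) ?_
        have h3 := hti i hi'.1
        have e1 : ρ ^ i = ρ ^ (i - 1) * ρ := by rw [← pow_succ]; congr 1; omega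
        rw [e1, ← mul_assoc] at h3
        have e2 : v (t 0) = v (t 1) * ρ := by
          rw [hρ, ← mul_div_assoc, mul_comm, mul_div_assoc, div_self h1, mul_one]
        rw [e2] at h3
        exact lt_of_mul_lt_mul_of_nonneg_right h3 zero_le
      have h4 : v (t 1) = v (t 1 + ∑ i ∈ Finset.Ico 2 (d + 1), t i *
          ∑ j ∈ Finset.range i, x' ^ j * x ^ (i - 1 - j)) := by
        rw [v.map_add_eq_of_lt_left hs]
      rw [h, map_zero] at h4
      exact h1 h4

end Pool.Agent.J6H67.AK
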