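import Pool.Agent.J6H67.AK.Newton
import Pool.Agent.J6H67.AK.Good

/-!
# Partial isomorphisms of valued fields, and fields of fractions
-/

set_option autoImplicit false

universe u

namespace Pool.Agent.J6H67.AK

open Filter Polynomial

/-- a cross-section -/
structure CS (M : VM.{u}) where
  s : M.Γ →*₀ M.K
  vs : ∀ γ, M.v (s γ) = γ

/-- a partial isomorphism, closed under the cross-section, which respects given partial
isomorphisms of the residue fields and of the value groups -/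
structure PI {M N : VM.{u}} (S : CS M) (T : CS N) (gr : Set (M.k × N.k)) (gv : Set (M.Γ × N.Γ))
    (p : Subring (M.K × N.K)) : Prop where
  inv : ∀ z ∈ p, z⁻¹ ∈ p
  val : ∀ z ∈ p, (M.v z.1, N.v z.2) ∈ gv
  res : ∀ z ∈ p, (M.r z.1, N.r z.2) ∈ gr
  sec : ∀ z ∈ p, (S.s (M.v z.1), T.s (N.v z.2)) ∈ p

section

variable {M N : VM.{u}} {S : CS M} {T : CS N} {gr : Set (M.k × N.k)} {gv : Set (M.Γ × N.Γ)}

theorem VM.r_zero (M : VM.{u}) : M.r 0 = 0 := (M.r_eq_zero 0 (by simp)).2 (by simp)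

theorem VM.r_ne (M : VM.{u}) {x : M.K} (h : M.v x ≠ 1) : M.r x = 0 := by
  rcases lt_or_gt_of_ne h with h | h
  · exact (M.r_eq_zero x h.le).2 h
  · exact M.r_out x h

theorem IsR.zero (hR : IsR gr) : ((0, 0) : M.k × N.k) ∈ gr := by
  have := hR.add _ hR.one _ (hR.neg _ hR.one)
  simpa using this

theorem IsV.inj (hV : IsV gv) {a : M.Γ} {b b' : N.Γ} (h : (a, b) ∈ gv) (h' : (a, b') ∈ gv) :
    b = b' :=
  le_antisymm ((hV.le _ h _ h').1 le_rfl) ((hV.le _ h' _ h).1 le_rfl)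

theorem IsV.eq_zero (hV : IsV gv) {a : M.Γ} {b : N.Γ} (h : (a, b) ∈ gv) : a = 0 ↔ b = 0 := by
  have := hV.le _ h _ hV.zero
  simpa using this

theorem IsV.le_one (hV : IsV gv) {a : M.Γ} {b : N.Γ} (h : (a, b) ∈ gv) : a ≤ 1 ↔ b ≤ 1 :=
  hV.le _ h _ hV.one

theorem IsV.one_le (hV : IsV gv) {a : M.Γ} {b : N.Γ} (h : (a, b) ∈ gv) : 1 ≤ a ↔ 1 ≤ b :=
  hV.le _ hV.one _ h

theorem IsV.eq_one (hV : IsV gv) {a : M.Γ} {b : N.Γ} (h : (a, b) ∈ gv) : a = 1 ↔ b = 1 := by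
  rw [le_antisymm_iff, le_antisymm_iff, hV.le_one h, hV.one_le h]

theorem IsV.lt (hV : IsV gv) {z w : M.Γ × N.Γ} (h : z ∈ gv) (h' : w ∈ gv) :
    z.1 < w.1 ↔ z.2 < w.2 := by
  rw [← not_le, ← not_le, hV.le _ h' _ h]

theorem PI.eq_zero (hV : IsV gv) {p : Subring (M.K × N.K)} (h : PI S T gr gv p)
    {z : M.K × N.K} (hz : z ∈ p) : z.1 = 0 ↔ z.2 = 0 := by
  have := hV.eq_zero (h.val z hz)
  simpa using this

theorem PI.zero_or (hV : IsV gv) {p : Subring (M.K × N.K)} (h : PI S T gr gv p)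
    {z : M.K × N.K} (hz : z ∈ p) : z = 0 ∨ (z.1 ≠ 0 ∧ z.2 ≠ 0) := by
  by_cases h1 : z.1 = 0
  · left
    exact Prod.ext h1 ((h.eq_zero hV hz).1 h1)
  · right
    exact ⟨h1, fun h2 => h1 ((h.eq_zero hV hz).2 h2)⟩

/-- residues of elements which are not units -/
theorem res_mem_of_ne (hR : IsR gr) (hV : IsV gv) {z : M.K × N.K} (hz : (M.v z.1, N.v z.2) ∈ gv)
    (h : M.v z.1 ≠ 1) : (M.r z.1, N.r z.2) ∈ gr := by
  have h' : N.v z.2 ≠ 1 := fun h2 => h ((hV.eq_one hz).2 h2)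
  rw [M.r_ne h, N.r_ne h']
  exact hR.zero

/-- the units with residues in the graph -/
structure Un (M N : VM.{u}) (gr : Set (M.k × N.k)) (u : M.K × N.K) : Prop where
  v1 : M.v u.1 = 1
  v2 : N.v u.2 = 1
  r : (M.r u.1, N.r u.2) ∈ gr

theorem VM.r_inv (M : VM.{u}) {x : M.K} (h : M.v x = 1) : M.r x⁻¹ = (M.r x)⁻¹ := by
  have h0 : x ≠ 0 := fun h0 => by rw [h0, map_zero] at h; exact zero_ne_one h
  have h1 : M.v x⁻¹ = 1 := by rw [map_inv₀, h, inv_one]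
  have h2 : M.r (x * x⁻¹) = M.r x * M.r x⁻¹ := M.r_mul _ _ h.le h1.le
  rw [mul_inv_cancel₀ h0, M.r_one] at h2
  exact (eq_inv_of_mul_eq_one_right h2.symm)

theorem Un.mul (hR : IsR gr) {u t : M.K × N.K} (h : Un M N gr u) (h' : Un M N gr t) :
    Un M N gr (u * t) where
  v1 := by rw [Prod.fst_mul, map_mul, h.v1, h'.v1, one_mul]
  v2 := by rw [Prod.snd_mul, map_mul, h.v2, h'.v2, one_mul]
  r := by
    rw [Prod.fst_mul, Prod.snd_mul, M.r_mul _ _ h.v1.le h'.v1.le, N.r_mul _ _ h.v2.le h'.v2.le]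
    exact hR.mul _ h.r _ h'.r

theorem Un.inv (hR : IsR gr) {u : M.K × N.K} (h : Un M N gr u) : Un M N gr u⁻¹ where
  v1 := by rw [Prod.fst_inv, map_inv₀, h.v1, inv_one]
  v2 := by rw [Prod.snd_inv, map_inv₀, h.v2, inv_one]
  r := by
    rw [Prod.fst_inv, Prod.snd_inv, M.r_inv h.v1, N.r_inv h.v2]
    exact hR.inv _ h.r

/-- the monomials -/
structure Mo (S : CS M) (T : CS N) (gr : Set (M.k × N.k)) (gv : Set (M.Γ × N.Γ))
    (R : Subring (M.K × N.K)) (A : Set (M.K × N.K)) : Prop where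
  mul : ∀ a ∈ A, ∀ b ∈ A, a * b ∈ A
  inv : ∀ a ∈ A, a⁻¹ ∈ A
  ne : ∀ a ∈ A, a.1 ≠ 0
  val : ∀ a ∈ A, (M.v a.1, N.v a.2) ∈ gv
  res : ∀ a ∈ A, (M.r a.1, N.r a.2) ∈ gr
  sec : ∀ a ∈ A, (S.s (M.v a.1), T.s (N.v a.2)) ∈ R
  nf : ∀ x ∈ R, x = 0 ∨ ∃ a ∈ A, ∃ u, Un M N gr u ∧ x = a * u

variable {R : Subring (M.K × N.K)} {A : Set (M.K × N.K)}

theorem Mo.ne2 (hV : IsV gv) (h : Mo S T gr gv R A) {a : M.K × N.K} (ha : a ∈ A) : a.2 ≠ 0 := by
  intro h2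
  have := (hV.eq_zero (h.val a ha)).2 (by rw [h2, map_zero])
  exact h.ne a ha (by simpa using this)

theorem Mo.unit (hV : IsV gv) (h : Mo S T gr gv R A) {x : M.K × N.K} (hx : x ∈ R) (h0 : x ≠ 0) :
    x.1 ≠ 0 ∧ x.2 ≠ 0 := by
  rcases h.nf x hx with h1 | ⟨a, ha, u, hu, rfl⟩
  · exact absurd h1 h0
  · have u1 : u.1 ≠ 0 := fun e => by have := hu.v1; rw [e, map_zero] at this; exact zero_ne_one this
    have u2 : u.2 ≠ 0 := fun e => by have := hu.v2; rw [e, map_zero] at this; exact zero_ne_one this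
    exact ⟨mul_ne_zero (h.ne a ha) u1, mul_ne_zero (h.ne2 hV ha) u2⟩

theorem prod_mul_inv {x : M.K × N.K} (h1 : x.1 ≠ 0) (h2 : x.2 ≠ 0) : x * x⁻¹ = 1 :=
  Prod.ext (mul_inv_cancel₀ h1) (mul_inv_cancel₀ h2)

/-- the field of fractions -/
def fr (hV : IsV gv) (h : Mo S T gr gv R A) : Subring (M.K × N.K) where
  carrier := {z | ∃ x ∈ R, ∃ y ∈ R, y ≠ 0 ∧ z = x * y⁻¹}
  mul_mem' := by
    rintro _ _ ⟨x, hx, y, hy, hy0, rfl⟩ ⟨x', hx', y', hy', hy0', rfl⟩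
    obtain ⟨h1, h2⟩ := h.unit hV hy hy0
    obtain ⟨h1', h2'⟩ := h.unit hV hy' hy0'
    refine ⟨x * x', R.mul_mem hx hx', y * y', R.mul_mem hy hy', ?_, ?_⟩
    · intro e
      have := congrArg Prod.fst e
      exact mul_ne_zero h1 h1' this
    · rw [mul_inv]; ring
  one_mem' := ⟨1, R.one_mem, 1, R.one_mem, one_ne_zero, by simp⟩
  add_mem' := by
    rintro _ _ ⟨x, hx, y, hy, hy0, rfl⟩ ⟨x', hx', y', hy', hy0', rfl⟩
    obtain ⟨h1, h2⟩ := h.unit hV hy hy0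
    obtain ⟨h1', h2'⟩ := h.unit hV hy' hy0'
    refine ⟨x * y' + x' * y, R.add_mem (R.mul_mem hx hy') (R.mul_mem hx' hy), y * y',
      R.mul_mem hy hy', ?_, ?_⟩
    · intro e
      have := congrArg Prod.fst e
      exact mul_ne_zero h1 h1' this
    · rw [mul_inv]
      have e1 : (x * y' + x' * y) * (y⁻¹ * y'⁻¹) = x * y⁻¹ * (y' * y'⁻¹) + x' * y'⁻¹ * (y * y⁻¹) := by
        ring
      rw [e1, prod_mul_inv h1 h2, prod_mul_inv h1' h2', mul_one, mul_one]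
  zero_mem' := ⟨0, R.zero_mem, 1, R.one_mem, one_ne_zero, by simp⟩
  neg_mem' := by
    rintro _ ⟨x, hx, y, hy, hy0, rfl⟩
    exact ⟨-x, R.neg_mem hx, y, hy, hy0, by ring⟩

theorem le_fr (hV : IsV gv) (h : Mo S T gr gv R A) : R ≤ fr hV h := fun x hx =>
  ⟨x, hx, 1, R.one_mem, one_ne_zero, by simp⟩

theorem fr_nf (hV : IsV gv) (hR : IsR gr) (h : Mo S T gr gv R A) {z : M.K × N.K}
    (hz : z ∈ fr hV h) : z = 0 ∨ ∃ a ∈ A, ∃ u, Un M N gr u ∧ z = a * u := by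
  obtain ⟨x, hx, y, hy, hy0, rfl⟩ := hz
  rcases h.nf x hx with rfl | ⟨a, ha, u, hu, rfl⟩
  · left; simp
  · right
    rcases h.nf y hy with rfl | ⟨b, hb, t, ht, rfl⟩
    · exact absurd rfl hy0
    · exact ⟨a * b⁻¹, h.mul _ ha _ (h.inv _ hb), u * t⁻¹, hu.mul hR (ht.inv hR), by
        rw [mul_inv]; ring⟩

/-- the field of fractions is a partial isomorphism -/
theorem pi_fr (hV : IsV gv) (hR : IsR gr) (h : Mo S T gr gv R A) : PI S T gr gv (fr hV h) where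
  inv := by
    rintro _ ⟨x, hx, y, hy, hy0, rfl⟩
    by_cases hx0 : x = 0
    · refine ⟨0, R.zero_mem, 1, R.one_mem, one_ne_zero, ?_⟩
      rw [hx0, zero_mul, zero_mul]
      ext <;> simp
    · exact ⟨y, hy, x, hx, hx0, by rw [mul_inv, inv_inv, mul_comm]⟩
  val := by
    intro z hz
    rcases fr_nf hV hR h hz with rfl | ⟨a, ha, u, hu, rfl⟩
    · rw [Prod.fst_zero, Prod.snd_zero, map_zero, map_zero]
      exact hV.zero
    · rw [Prod.fst_mul, Prod.snd_mul, map_mul, map_mul, hu.v1, hu.v2, mul_one, mul_one]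
      exact h.val a ha
  res := by
    intro z hz
    rcases fr_nf hV hR h hz with rfl | ⟨a, ha, u, hu, rfl⟩
    · rw [Prod.fst_zero, Prod.snd_zero, M.r_zero, N.r_zero]
      exact hR.zero
    · by_cases h1 : M.v a.1 ≤ 1
      · have h2 := (hV.le_one (h.val a ha)).1 h1
        rw [Prod.fst_mul, Prod.snd_mul, M.r_mul _ _ h1 hu.v1.le, N.r_mul _ _ h2 hu.v2.le]
        exact hR.mul _ (h.res a ha) _ hu.r
      · apply res_mem_of_ne hR hV
        · rw [Prod.fst_mul, Prod.snd_mul, map_mul, map_mul, hu.v1, hu.v2, mul_one, mul_one]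
          exact h.val a ha
        · rw [Prod.fst_mul, map_mul, hu.v1, mul_one]
          exact fun e => h1 e.le
  sec := by
    intro z hz
    rcases fr_nf hV hR h hz with rfl | ⟨a, ha, u, hu, rfl⟩
    · rw [Prod.fst_zero, Prod.snd_zero, map_zero, map_zero, map_zero, map_zero]
      exact (fr hV h).zero_mem
    · have e1 : M.v (a * u).1 = M.v a.1 := by rw [Prod.fst_mul, map_mul, hu.v1, mul_one]
      have e2 : N.v (a * u).2 = N.v a.2 := by rw [Prod.snd_mul, map_mul, hu.v2, mul_one]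
      rw [e1, e2]
      exact le_fr hV h (h.sec a ha)

end

end Pool.Agent.J6H67.AK
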