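import Pool.Agent.J6H67.AK.StepR2

/-!
# Immediate extensions
-/

set_option autoImplicit false

universe u

namespace Pool.Agent.J6H67.AK

open Filter Polynomial

/-- countable families of conditions on distances which are finitely satisfiable are satisfiable -/
def PcSat (N : VM.{u}) : Prop :=
  ∀ c : ℕ → N.K × N.Γ, (∀ m, ∃ y, ∀ j < m, N.v (y - (c j).1) = (c j).2) →
    ∃ y, ∀ j, N.v (y - (c j).1) = (c j).2

/-- a root which is a limit -/
theorem kap_root (M : VM.{u}) {F : Type u} [Field F] (π : F →+* M.K) (ρ : F → M.Γ)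
    (h : PC M.v π ρ) (P : F[X])
    (hP : ∀ᶠ a in ev ρ, M.v (π ((hasseDeriv 1 P).eval a)) ≠ 0 ∧
      M.v (π (P.eval a)) = M.v (π ((hasseDeriv 1 P).eval a)) * ρ a ∧
      ∀ i, 2 ≤ i → M.v (π ((hasseDeriv i P).eval a)) * ρ a ^ i < M.v (π (P.eval a))) :
    ∃ b, P.eval₂ π b = 0 ∧ ∀ a, M.v (b - π a) = ρ a := by
  obtain ⟨a₀, h₀⟩ := ev_iff.1 hP
  have hnew : ∀ a, ρ a ≤ ρ a₀ → ∃ b, P.eval₂ π b = 0 ∧ M.v (b - π a) = ρ a ∧
      ∀ b', P.eval₂ π b' = 0 → M.v (b' - π a) ≤ ρ a → b' = b := by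
    intro a ha
    obtain ⟨h1, h2, h3⟩ := h₀ a ha
    have e0 : M.v ((P.map π).eval (π a)) = M.v (π (P.eval a)) := by
      rw [Polynomial.eval_map_apply]
    have e1 : ∀ i, (hasseDeriv i (P.map π)).eval (π a) = π ((hasseDeriv i P).eval a) :=
      fun i => hasseDeriv_map_eval π P i a
    have hq : M.v ((P.map π).eval (π a)) / M.v ((hasseDeriv 1 (P.map π)).eval (π a)) = ρ a := by
      rw [e0, e1, h2, mul_comm, mul_div_assoc, div_self h1, mul_one]
    obtain ⟨b, hb1, hb2, hb3⟩ := M.newton (P.map π) (π a) (by rw [e1]; exact h1)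
      (by rw [e0, h2]; exact mul_ne_zero h1 (h.ne a)) (by
        intro i hi
        rw [hq, e1, e0]
        exact h3 i hi)
    rw [hq] at hb2 hb3
    simp only [eval_map] at hb1 hb3
    exact ⟨b, hb1, hb2, hb3⟩
  obtain ⟨b, hb, hbv, hbu⟩ := hnew a₀ le_rfl
  refine ⟨b, hb, fun a => ?_⟩
  rcases le_or_gt (ρ a) (ρ a₀) with ha | ha
  · obtain ⟨b₁, h1, h2, -⟩ := hnew a ha
    have : b₁ = b := by
      apply hbu b₁ h1
      have e : b₁ - π a₀ = (b₁ - π a) + (π a - π a₀) := by ring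
      rw [e]
      refine M.v.map_add_le (by rw [h2]; exact ha) ?_
      rcases ha.lt_or_eq with ha' | ha'
      · rw [h.dist a₀ a ha']
      · -- equal distance
        obtain ⟨a₁, ha₁⟩ := h.nomin a
        have e2 : π a - π a₀ = (π a₁ - π a₀) - (π a₁ - π a) := by ring
        rw [e2]
        refine M.v.map_sub_le ?_ ?_
        · rw [h.dist a₀ a₁ (by rw [← ha']; exact ha₁)]
        · rw [h.dist a a₁ ha₁, ha']
    rw [← this]; exact h2
  · have e : b - π a = (b - π a₀) + (π a₀ - π a) := by ring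
    rw [e, M.v.map_add_eq_of_lt_right, h.dist a a₀ ha]
    rw [hbv, h.dist a a₀ ha]; exact ha

theorem EC_hasse {F K Γ : Type u} [Field F] [Field K] [LinearOrderedCommGroupWithZero Γ]
    {v : Valuation K Γ} {π : F →+* K} {ρ : F → Γ} {Q : F[X]}
    (h : ∀ R : F[X], R.natDegree ≤ Q.natDegree → ∃ c, EC v π ρ R c) :
    ∃ β : ℕ → Γ, ∀ i, EC v π ρ (hasseDeriv i Q) (β i) := by
  have : ∀ i, ∃ c, EC v π ρ (hasseDeriv i Q) c := fun i =>
    h _ ((natDegree_hasseDeriv_le Q i).trans (Nat.sub_le _ _))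
  choose β hβ using this
  exact ⟨β, hβ⟩

section

variable {M N : VM.{u}} {S : CS M} {T : CS N} {gr : Set (M.k × N.k)} {gv : Set (M.Γ × N.Γ)}
  {p : Subring (M.K × N.K)} {F : Type u} [Field F] {π₁ : F →+* M.K} {π₂ : F →+* N.K}

/-- normal form of a value of a polynomial at a limit -/
theorem lim_nf (hR : IsR gr) {ρ : F → M.Γ} {δ : F → N.Γ}
    (h₁ : PC M.v π₁ ρ) (h₂ : PC N.v π₂ δ) (hev : ev ρ = ev δ) {c : M.K × N.K}
    (hc₁ : ∀ a, M.v (c.1 - π₁ a) = ρ a) (hc₂ : ∀ a, N.v (c.2 - π₂ a) = δ a)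
    {Q : F[X]} (hQ0 : Q ≠ 0)
    (hE₁ : ∀ R : F[X], R.natDegree ≤ Q.natDegree → ∃ c, EC M.v π₁ ρ R c)
    (hE₂ : ∀ R : F[X], R.natDegree ≤ Q.natDegree → ∃ c, EC N.v π₂ δ R c) :
    ∃ a : F, a ≠ 0 ∧ ∃ u, Un M N gr u ∧ Ph π₁ π₂ c Q = (π₁ a, π₂ a) * u := by
  obtain ⟨β, hβ⟩ := EC_hasse hE₁
  obtain ⟨β', hβ'⟩ := EC_hasse hE₂
  have hb : β 0 ≠ 0 := by
    intro hb
    apply hQ0
    apply pc_eq_zero h₁
    have := hβ 0
    rw [hasseDeriv_zero'] at this
    filter_upwards [this] with a ha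
    rw [hb, _root_.map_eq_zero, _root_.map_eq_zero] at ha
    exact ha
  have hb' : β' 0 ≠ 0 := by
    intro hb
    apply hQ0
    apply pc_eq_zero h₂
    have := hβ' 0
    rw [hasseDeriv_zero'] at this
    filter_upwards [this] with a ha
    rw [hb, _root_.map_eq_zero, _root_.map_eq_zero] at ha
    exact ha
  have l₁ := pc_limit h₁ Q β hβ hb c.1 hc₁
  have l₂ := pc_limit h₂ Q β' hβ' hb' c.2 hc₂
  rw [← hev] at l₂
  obtain ⟨a, ha₁, ha₂⟩ := (l₁.and l₂).exists
  set q := Q.eval a with hq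
  have hv1 : M.v (π₁ q) ≠ 0 := fun e => by rw [e] at ha₁; exact absurd ha₁ (not_lt.2 zero_le)
  have hv2 : N.v (π₂ q) ≠ 0 := fun e => by rw [e] at ha₂; exact absurd ha₂ (not_lt.2 zero_le)
  have hq1 : π₁ q ≠ 0 := fun e => hv1 (by rw [e, map_zero])
  have hq2 : π₂ q ≠ 0 := fun e => hv2 (by rw [e, map_zero])
  have hq0 : q ≠ 0 := fun e => hq1 (by rw [e, map_zero])
  refine ⟨q, hq0, 1 + (Ph π₁ π₂ c Q - (π₁ q, π₂ q)) * ((π₁ q, π₂ q) : M.K × N.K)⁻¹,
    Un.one_add hR ?_ ?_, ?_⟩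
  · rw [Prod.fst_mul, Prod.fst_sub, Prod.fst_inv, Ph_fst, map_mul, map_inv₀, ← div_eq_mul_inv,
      div_lt_one₀ (zero_lt_iff.2 hv1), ← eval_map]
    exact ha₁
  · rw [Prod.snd_mul, Prod.snd_sub, Prod.snd_inv, Ph_snd, map_mul, map_inv₀, ← div_eq_mul_inv,
      div_lt_one₀ (zero_lt_iff.2 hv2), ← eval_map]
    exact ha₂
  · have h1 : ((π₁ q, π₂ q) : M.K × N.K) * ((π₁ q, π₂ q) : M.K × N.K)⁻¹ = 1 :=
      prod_mul_inv hq1 hq2
    rw [mul_add, mul_one]
    have : ((π₁ q, π₂ q) : M.K × N.K) * ((Ph π₁ π₂ c Q - (π₁ q, π₂ q)) *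
        ((π₁ q, π₂ q) : M.K × N.K)⁻¹) = (Ph π₁ π₂ c Q - (π₁ q, π₂ q)) *
        (((π₁ q, π₂ q) : M.K × N.K) * ((π₁ q, π₂ q) : M.K × N.K)⁻¹) := by ring
    rw [this, h1, mul_one]; ring

/-- immediate extension -/
theorem stepI (hV : IsV gv) (hR : IsR gr) (hp : PI S T gr gv p) (hsat : PcSat N)
    (E : Subfield M.K) (hEc : (E : Set M.K).Countable) (hE : ∀ z ∈ p, z.1 ∈ E)
    (hac : ∀ Q : M.K[X], Q ≠ 0 → (∀ i, Q.coeff i ∈ E) → ∀ b, Q.eval b = 0 → b ∈ E)
    (hval : ∀ x ∈ E, ∃ z ∈ p, M.v z.1 = M.v x)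
    (hres : ∀ x ∈ E, M.v x ≤ 1 → ∃ z ∈ p, M.v z.1 ≤ 1 ∧ M.r z.1 = M.r x)
    {b : M.K} (hb : b ∈ E) (hbp : ∀ z ∈ p, z.1 ≠ b) :
    ∃ p' : Subring (M.K × N.K), p ≤ p' ∧ PI S T gr gv p' ∧ (∀ z ∈ p', z.1 ∈ E) ∧
      ∃ z ∈ p', z ∉ p := by
  classical
  obtain ⟨F, _, π₁, π₂, hF⟩ := hp.abs hV
  have hmem : ∀ a : F, ((π₁ a, π₂ a) : M.K × N.K) ∈ p := fun a => (hF _).2 ⟨a, rfl⟩
  have hgv : ∀ a : F, (M.v (π₁ a), N.v (π₂ a)) ∈ gv := fun a => hp.val _ (hmem a)
  set ρ : F → M.Γ := fun a => M.v (b - π₁ a) with hρ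
  have hbE : ∀ a, b - π₁ a ∈ E := fun a => E.sub_mem hb (hE _ (hmem a))
  have hne : ∀ a, b - π₁ a ≠ 0 := fun a h => hbp _ (hmem a) (sub_eq_zero.1 h).symm
  have hPC : PC M.v π₁ ρ :=
    { ne := fun a => by simpa [hρ] using hne a
      nomin := fun a => by
        obtain ⟨z, hz, hzv⟩ := hval _ (hbE a)
        obtain ⟨t, rfl⟩ := (hF z).1 hz
        have hvt : M.v (π₁ t) = M.v (b - π₁ a) := hzv
        have ht0 : M.v (π₁ t) ≠ 0 := by rw [hvt]; simpa using hne a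
        have hv1 : M.v ((b - π₁ a) / π₁ t) = 1 := by
          rw [map_div₀, hvt, div_self (by rw [← hvt]; exact ht0)]
        obtain ⟨z', hz', hz'v, hz'r⟩ := hres _ (E.div_mem (hbE a) (hE _ (hmem t))) hv1.le
        obtain ⟨t', rfl⟩ := (hF z').1 hz'
        have hv' : M.v (π₁ t') ≤ 1 := hz'v
        have hr' : M.r (π₁ t') = M.r ((b - π₁ a) / π₁ t) := hz'r
        have hlt : M.v ((b - π₁ a) / π₁ t - π₁ t') < 1 := by
          have hle : M.v ((b - π₁ a) / π₁ t - π₁ t') ≤ 1 := M.v.map_sub_le hv1.le hv'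
          rw [← M.r_eq_zero _ hle]
          have e := M.r_add ((b - π₁ a) / π₁ t - π₁ t') (π₁ t') hle hv'
          rw [sub_add_cancel, hr'] at e
          simpa using e
        refine ⟨a + t * t', ?_⟩
        have e1 : b - π₁ (a + t * t') = ((b - π₁ a) / π₁ t - π₁ t') * π₁ t := by
          have : π₁ t ≠ 0 := fun h => ht0 (by rw [h, map_zero])
          rw [map_add, map_mul]
          field_simp
          ring
        show M.v (b - π₁ (a + t * t')) < M.v (b - π₁ a)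
        rw [e1, map_mul, ← hvt]
        exact mul_lt_of_lt_one_left (zero_lt_iff.2 ht0) hlt
      dist := fun a a' h => by
        have e : π₁ a' - π₁ a = (b - π₁ a) - (b - π₁ a') := by ring
        rw [e]
        exact M.v.map_sub_eq_of_lt_left h }
  have hex : ∀ a, ∃ d, (ρ a, d) ∈ gv := by
    intro a
    obtain ⟨z, hz, hzv⟩ := hval _ (hbE a)
    refine ⟨N.v z.2, ?_⟩
    have := hp.val z hz
    rw [hzv] at this
    exact this
  choose δ hδ using hex
  have hlt : ∀ a a', ρ a < ρ a' ↔ δ a < δ a' := fun a a' => hV.lt (hδ a) (hδ a')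
  have hle : ∀ a a', ρ a ≤ ρ a' ↔ δ a ≤ δ a' := fun a a' => hV.le _ (hδ a) _ (hδ a')
  have hPC' : PC N.v π₂ δ :=
    { ne := fun a h => hPC.ne a ((hV.eq_zero (hδ a)).2 h)
      nomin := fun a => by
        obtain ⟨a', ha'⟩ := hPC.nomin a
        exact ⟨a', (hlt _ _).1 ha'⟩
      dist := fun a a' h => by
        have h1 := hPC.dist a a' ((hlt _ _).2 h)
        have h2 := hgv (a' - a)
        rw [π₁.map_sub, π₂.map_sub, h1] at h2
        exact hV.inj h2 (hδ a) }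
  have hev : ev ρ = ev δ := by
    unfold ev
    congr 1
    ext1 a₀
    congr 1
    ext a
    exact hle a a₀
  have hEC : ∀ R : F[X], (∃ c, EC M.v π₁ ρ R c) → ∃ c, EC N.v π₂ δ R c := by
    rintro R ⟨c, hc⟩
    obtain ⟨a₀, ha₀⟩ := hc.exists
    refine ⟨N.v (π₂ (R.eval a₀)), ?_⟩
    unfold EC
    rw [← hev]
    filter_upwards [hc] with a ha
    have h1 := hgv (R.eval a)
    have h2 := hgv (R.eval a₀)
    rw [ha] at h1
    rw [ha₀] at h2
    exact hV.inj h1 h2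
  by_cases hT : ∀ R : F[X], ∃ c, EC M.v π₁ ρ R c
  · -- transcendental type
    have hFc : Countable F := by
      have hinj : Function.Injective (fun a : F => (⟨π₁ a, hE _ (hmem a)⟩ : E)) := by
        intro a a' h
        exact π₁.injective (congrArg Subtype.val h)
      haveI : Countable E := hEc.to_subtype
      exact hinj.countable
    obtain ⟨e, he⟩ := exists_surjective_nat F
    obtain ⟨c, hc⟩ := hsat (fun j => (π₂ (e j), δ (e j))) (by
      intro m
      -- a point near the limit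
      have : ∀ m : ℕ, ∃ a, ∀ j < m, ρ a < ρ (e j) := by
        intro m
        induction m with
        | zero => exact ⟨0, fun j hj => absurd hj (Nat.not_lt_zero _)⟩
        | succ m ih =>
          obtain ⟨a, ha⟩ := ih
          obtain ⟨a₁, ha₁⟩ := hPC.nomin (if ρ a ≤ ρ (e m) then a else e m)
          refine ⟨a₁, fun j hj => ?_⟩
          split_ifs at ha₁ with hs
          · rcases Nat.lt_succ_iff_lt_or_eq.1 hj with hj | rfl
            · exact ha₁.trans (ha j hj)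
            · exact lt_of_lt_of_le ha₁ hs
          · push Not at hs
            rcases Nat.lt_succ_iff_lt_or_eq.1 hj with hj | rfl
            · exact (ha₁.trans hs).trans (ha j hj)
            · exact ha₁
      obtain ⟨a, ha⟩ := this m
      exact ⟨π₂ a, fun j hj => hPC'.dist (e j) a ((hlt _ _).1 (ha j hj))⟩)
    have hc₂ : ∀ a, N.v (c - π₂ a) = δ a := by
      intro a
      obtain ⟨j, rfl⟩ := he a
      exact hc j
    obtain ⟨p', h1, h2, h3, h4⟩ := adj hR hV hF hp E hE (c := (b, c)) hb (by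
      intro Q
      by_cases h0 : Q = 0
      · left; rw [h0, map_zero]
      · right
        exact lim_nf hR hPC hPC' hev (c := (b, c)) (fun a => rfl) hc₂ h0 (fun R _ => hT R)
          (fun R _ => hEC R (hT R)))
    exact ⟨p', h1, h2, h3, _, h4, fun h => hbp _ h rfl⟩
  · -- algebraic type
    push Not at hT
    have hex : ∃ n : ℕ, ∃ P : F[X], P.natDegree = n ∧ ¬ ∃ c, EC M.v π₁ ρ P c := by
      obtain ⟨P, hP⟩ := hT
      exact ⟨_, P, rfl, fun ⟨c, hc⟩ => hP c hc⟩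
    obtain ⟨P, hPn, hP⟩ := Nat.find_spec hex
    have hmin : ∀ R : F[X], R.natDegree < P.natDegree → ∃ c, EC M.v π₁ ρ R c := by
      intro R hR
      by_contra hc
      rw [hPn] at hR
      exact Nat.find_min hex hR ⟨R, rfl, hc⟩
    have hd : P.natDegree ≠ 0 := by
      intro h0
      obtain ⟨c, hc⟩ := natDegree_eq_zero.1 h0
      exact hP ⟨M.v (π₁ c), Eventually.of_forall fun a => by rw [← hc]; simp⟩
    have hP0 : P ≠ 0 := fun h => hd (by rw [h, natDegree_zero])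
    have hK := pc_kap hPC (fun n hn => M.v_nat n hn) P hP (fun Q hQ => by
      by_cases h0 : Q = 0
      · exact ⟨0, Eventually.of_forall fun a => by rw [h0]; simp⟩
      · exact hmin Q (natDegree_lt_natDegree h0 hQ))
    have hK' : ∀ᶠ a in ev δ, N.v (π₂ ((hasseDeriv 1 P).eval a)) ≠ 0 ∧
        N.v (π₂ (P.eval a)) = N.v (π₂ ((hasseDeriv 1 P).eval a)) * δ a ∧
        ∀ i, 2 ≤ i → N.v (π₂ ((hasseDeriv i P).eval a)) * δ a ^ i < N.v (π₂ (P.eval a)) := by
      rw [← hev]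
      filter_upwards [hK] with a ha
      obtain ⟨h1, h2, h3⟩ := ha
      refine ⟨fun h => h1 ((hV.eq_zero (hgv _)).2 h), ?_, fun i hi => ?_⟩
      · have e1 := hgv (P.eval a)
        rw [h2] at e1
        exact hV.inj e1 (hV.mul _ (hgv _) _ (hδ a))
      · have e1 := hgv (P.eval a)
        have hpow : (ρ a ^ i, δ a ^ i) ∈ gv := by
          have := hV.zpow (hδ a) (i : ℤ)
          simpa using this
        exact (hV.lt (hV.mul _ (hgv ((hasseDeriv i P).eval a)) _ hpow) e1).1 (h3 i hi)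
    obtain ⟨y, hy0, hy⟩ := kap_root M π₁ ρ hPC P hK
    obtain ⟨z, hz0, hz⟩ := kap_root N π₂ δ hPC' P hK'
    have hyE : y ∈ E := by
      refine hac (P.map π₁) ((Polynomial.map_ne_zero_iff π₁.injective).2 hP0) (fun i => ?_) y
        (by rw [eval_map]; exact hy0)
      rw [coeff_map]
      exact hE _ (hmem _)
    have hPf : Ph π₁ π₂ (y, z) P = 0 := by
      apply Prod.ext
      · rw [Ph_fst]; exact hy0
      · rw [Ph_snd]; exact hz0
    obtain ⟨p', h1, h2, h3, h4⟩ := adj hR hV hF hp E hE (c := (y, z)) hyE (by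
      intro Q
      have hQ : Ph π₁ π₂ (y, z) Q = Ph π₁ π₂ (y, z) (Q % P) := by
        conv_lhs => rw [← EuclideanDomain.div_add_mod Q P]
        rw [map_add, map_mul, hPf, zero_mul, zero_add]
      rw [hQ]
      by_cases h0 : Q % P = 0
      · left; rw [h0, map_zero]
      · right
        have hlt' : (Q % P).natDegree < P.natDegree :=
          natDegree_lt_natDegree h0 (degree_mod_lt Q hP0)
        exact lim_nf hR hPC hPC' hev (c := (y, z)) hy hz h0
          (fun R hR => hmin R (lt_of_le_of_lt hR hlt'))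
          (fun R hR => hEC R (hmin R (lt_of_le_of_lt hR hlt'))))
    refine ⟨p', h1, h2, h3, _, h4, fun h => ?_⟩
    obtain ⟨a, ha⟩ := (hF _).1 h
    have ha1 : y = π₁ a := congrArg Prod.fst ha
    have := hy a
    rw [ha1, sub_self, map_zero] at this
    exact hPC.ne a this.symm

end

end Pool.Agent.J6H67.AK
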