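import Pool.Agent.J6H67.AK.StepV

/-!
# Extension of the residue field
-/

set_option autoImplicit false

universe u

namespace Pool.Agent.J6H67.AK

open Filter Polynomial

section

variable {M N : VM.{u}} {S : CS M} {T : CS N} {gr : Set (M.k × N.k)} {gv : Set (M.Γ × N.Γ)}
  {p : Subring (M.K × N.K)}

/-- a partial isomorphism as a field with two embeddings -/
theorem PI.abs (hV : IsV gv) (hp : PI S T gr gv p) :
    ∃ (F : Type u) (_ : Field F) (π₁ : F →+* M.K) (π₂ : F →+* N.K),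
      ∀ z : M.K × N.K, z ∈ p ↔ ∃ a : F, z = (π₁ a, π₂ a) := by
  have hf : IsField p :=
    { exists_pair_ne := ⟨0, 1, fun h => by
        have := congrArg (fun x : p => (x : M.K × N.K).1) h
        exact zero_ne_one this⟩
      mul_comm := mul_comm
      mul_inv_cancel := fun {a} ha => by
        have h0 : (a : M.K × N.K) ≠ 0 := fun e => ha (Subtype.ext e)
        obtain ⟨h1, h2⟩ := (hp.zero_or hV a.2).resolve_left h0
        exact ⟨⟨(a : M.K × N.K)⁻¹, hp.inv _ a.2⟩, Subtype.ext (prod_mul_inv h1 h2)⟩ }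
  letI : Field p := hf.toField
  refine ⟨p, inferInstance, (RingHom.fst M.K N.K).comp p.subtype,
    (RingHom.snd M.K N.K).comp p.subtype, fun z => ?_⟩
  constructor
  · intro hz
    exact ⟨⟨z, hz⟩, rfl⟩
  · rintro ⟨a, rfl⟩
    exact a.2

/-- pairs of integral elements with residues in the graph -/
def OG (hR : IsR gr) : Subring (M.K × N.K) where
  carrier := {z | M.v z.1 ≤ 1 ∧ N.v z.2 ≤ 1 ∧ (M.r z.1, N.r z.2) ∈ gr}
  mul_mem' := by
    rintro a b ⟨h1, h2, h3⟩ ⟨h1', h2', h3'⟩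
    refine ⟨?_, ?_, ?_⟩
    · rw [Prod.fst_mul, map_mul]; exact mul_le_one' h1 h1'
    · rw [Prod.snd_mul, map_mul]; exact mul_le_one' h2 h2'
    · rw [Prod.fst_mul, Prod.snd_mul, M.r_mul _ _ h1 h1', N.r_mul _ _ h2 h2']
      exact hR.mul _ h3 _ h3'
  one_mem' := ⟨by simp, by simp, by
    rw [Prod.fst_one, Prod.snd_one, M.r_one, N.r_one]; exact hR.one⟩
  add_mem' := by
    rintro a b ⟨h1, h2, h3⟩ ⟨h1', h2', h3'⟩
    refine ⟨?_, ?_, ?_⟩
    · rw [Prod.fst_add]; exact M.v.map_add_le h1 h1'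
    · rw [Prod.snd_add]; exact N.v.map_add_le h2 h2'
    · rw [Prod.fst_add, Prod.snd_add, M.r_add _ _ h1 h1', N.r_add _ _ h2 h2']
      exact hR.add _ h3 _ h3'
  zero_mem' := ⟨by simp, by simp, by
    rw [Prod.fst_zero, Prod.snd_zero, M.r_zero, N.r_zero]; exact hR.zero⟩
  neg_mem' := by
    rintro a ⟨h1, h2, h3⟩
    have hn : ∀ (M : VM.{u}) (x : M.K), M.v x ≤ 1 → M.r (-x) = - M.r x := by
      intro M x hx
      have : M.r (x + -x) = M.r x + M.r (-x) := M.r_add _ _ hx (by rwa [Valuation.map_neg])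
      rw [add_neg_cancel, M.r_zero] at this
      exact (neg_eq_of_add_eq_zero_right this.symm).symm
    refine ⟨?_, ?_, ?_⟩
    · rw [Prod.fst_neg, Valuation.map_neg]; exact h1
    · rw [Prod.snd_neg, Valuation.map_neg]; exact h2
    · rw [Prod.fst_neg, Prod.snd_neg, hn _ _ h1, hn _ _ h2]
      exact hR.neg _ h3

theorem mem_OG (hR : IsR gr) {z : M.K × N.K} :
    z ∈ OG hR ↔ M.v z.1 ≤ 1 ∧ N.v z.2 ≤ 1 ∧ (M.r z.1, N.r z.2) ∈ gr := Iff.rfl

theorem OG_lt (hR : IsR gr) {z : M.K × N.K} (hz : z ∈ OG hR) : M.v z.1 < 1 ↔ N.v z.2 < 1 := by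
  obtain ⟨h1, h2, h3⟩ := (mem_OG hR).1 hz
  rw [← M.r_eq_zero _ h1, ← N.r_eq_zero _ h2]
  exact hR.eq0 _ h3

theorem OG_un (hR : IsR gr) {z : M.K × N.K} (hz : z ∈ OG hR) (h : ¬ M.v z.1 < 1) :
    Un M N gr z where
  v1 := le_antisymm ((mem_OG hR).1 hz).1 (not_lt.1 h)
  v2 := le_antisymm ((mem_OG hR).1 hz).2.1 (not_lt.1 fun h' => h ((OG_lt hR hz).2 h'))
  r := ((mem_OG hR).1 hz).2.2

end

section

variable {M : VM.{u}} {F : Type u} [Field F] (π : F →+* M.K)

/-- integral coefficients -/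
def OP (Q : F[X]) : Prop := ∀ i, M.v (π (Q.coeff i)) ≤ 1

variable {π}

theorem r_sum {ι : Type} (M : VM.{u}) (s : Finset ι) (f : ι → M.K) (h : ∀ i ∈ s, M.v (f i) ≤ 1) :
    M.r (∑ i ∈ s, f i) = ∑ i ∈ s, M.r (f i) := by
  classical
  induction s using Finset.induction_on with
  | empty => simp [M.r_zero]
  | insert a s ha ih =>
    rw [Finset.sum_insert ha, Finset.sum_insert ha, M.r_add, ih]
    · exact fun i hi => h i (Finset.mem_insert_of_mem hi)
    · exact h a (Finset.mem_insert_self _ _)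
    · exact M.v.map_sum_le fun i hi => h i (Finset.mem_insert_of_mem hi)

theorem r_pow (M : VM.{u}) {x : M.K} (hx : M.v x ≤ 1) (n : ℕ) : M.r (x ^ n) = M.r x ^ n := by
  induction n with
  | zero => simp [M.r_one]
  | succ n ih =>
    rw [pow_succ, pow_succ, M.r_mul _ _ _ hx, ih]
    rw [map_pow]
    exact pow_le_one' hx n

theorem r_eval {Q : F[X]} (hQ : OP π Q) {y : M.K} (hy : M.v y ≤ 1) :
    M.r (Q.eval₂ π y) = ∑ i ∈ Finset.range (Q.natDegree + 1), M.r (π (Q.coeff i)) * M.r y ^ i := by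
  rw [eval₂_eq_sum_range, r_sum]
  · refine Finset.sum_congr rfl fun i _ => ?_
    rw [M.r_mul _ _ (hQ i), r_pow M hy]
    rw [map_pow]
    exact pow_le_one' hy i
  · intro i _
    rw [map_mul, map_pow]
    exact mul_le_one' (hQ i) (pow_le_one' hy i)

theorem v_eval_le {Q : F[X]} (hQ : OP π Q) {y : M.K} (hy : M.v y ≤ 1) : M.v (Q.eval₂ π y) ≤ 1 := by
  rw [eval₂_eq_sum_range]
  refine M.v.map_sum_le fun i _ => ?_
  rw [map_mul, map_pow]
  exact mul_le_one' (hQ i) (pow_le_one' hy i)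

theorem eval_congr {Q : F[X]} (hQ : OP π Q) {y y' : M.K} (hy : M.v y ≤ 1) (hy' : M.v y' ≤ 1)
    (h : M.r y = M.r y') : M.v (Q.eval₂ π y) < 1 ↔ M.v (Q.eval₂ π y') < 1 := by
  rw [← M.r_eq_zero _ (v_eval_le hQ hy), ← M.r_eq_zero _ (v_eval_le hQ hy'), r_eval hQ hy,
    r_eval hQ hy', h]

/-- truncation to a monic polynomial -/
theorem trunc {y : M.K} (hy : M.v y ≤ 1) : (n : ℕ) → (Q : F[X]) → Q.support.card ≤ n → OP π Q →
    (∃ i, M.v (π (Q.coeff i)) = 1) → M.v (Q.eval₂ π y) < 1 →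
    ∃ f : F[X], f.Monic ∧ f.natDegree ≤ Q.natDegree ∧ OP π f ∧ M.v (f.eval₂ π y) < 1
  | 0, Q, hc, hQ, ⟨i, hi⟩, hv => by
    have h0 : Q = 0 := by
      rw [← Polynomial.card_support_eq_zero]; omega
    rw [h0, coeff_zero, map_zero, map_zero] at hi
    exact absurd hi zero_ne_one
  | n + 1, Q, hc, hQ, ⟨i, hi⟩, hv => by
    by_cases h0 : Q = 0
    · rw [h0, coeff_zero, map_zero, map_zero] at hi
      exact absurd hi zero_ne_one
    by_cases hl : M.v (π Q.leadingCoeff) = 1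
    · refine ⟨C (Q.leadingCoeff)⁻¹ * Q, ?_, ?_, ?_, ?_⟩
      · rw [mul_comm]
        exact monic_mul_leadingCoeff_inv h0
      · rw [natDegree_C_mul (inv_ne_zero (leadingCoeff_ne_zero.2 h0))]
      · intro j
        rw [coeff_C_mul, map_mul, map_mul, map_inv₀, map_inv₀, hl, inv_one, one_mul]
        exact hQ j
      · rw [eval₂_mul, eval₂_C, map_mul, map_inv₀, map_inv₀, hl, inv_one, one_mul]
        exact hv
    · have hlt : M.v (π Q.leadingCoeff) < 1 := lt_of_le_of_ne (hQ _) hl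
      obtain ⟨f, h1, h2, h3, h4⟩ := trunc hy n Q.eraseLead
        (by have := eraseLead_support_card_lt h0; omega)
        (by
          intro j
          rw [eraseLead_coeff]
          split_ifs
          · rw [map_zero, map_zero]; exact zero_le
          · exact hQ j)
        ⟨i, by
          rw [eraseLead_coeff, if_neg]
          · exact hi
          · rintro rfl
            exact hl hi⟩
        (by
          have e1 : Q.eraseLead.eval₂ π y = Q.eval₂ π y - π Q.leadingCoeff * y ^ Q.natDegree := by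
            conv_rhs => rw [← Q.eraseLead_add_C_mul_X_pow]
            rw [eval₂_add, eval₂_mul, eval₂_C, eval₂_pow, eval₂_X]
            simp
          rw [e1]
          refine M.v.map_sub_lt hv ?_
          rw [map_mul, map_pow]
          exact mul_lt_one_of_lt_of_le hlt (pow_le_one' hy _))
      exact ⟨f, h1, h2.trans (eraseLead_natDegree_le_aux), h3, h4⟩

end

end Pool.Agent.J6H67.AK
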