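import Pool.Agent.J6H67.AK.StepR

/-!
# Extension of the residue field, continued
-/

set_option autoImplicit false

universe u

namespace Pool.Agent.J6H67.AK

open Filter Polynomial

section

variable {M N : VM.{u}} {S : CS M} {T : CS N} {gr : Set (M.k × N.k)} {gv : Set (M.Γ × N.Γ)}
  {p : Subring (M.K × N.K)} {F : Type u} [Field F] {π₁ : F →+* M.K} {π₂ : F →+* N.K}

/-- evaluation of polynomials at a pair -/
noncomputable def Ph (π₁ : F →+* M.K) (π₂ : F →+* N.K) (c : M.K × N.K) : F[X] →+* M.K × N.K :=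
  eval₂RingHom (π₁.prod π₂) c

theorem Ph_fst (c : M.K × N.K) (Q : F[X]) : (Ph π₁ π₂ c Q).1 = Q.eval₂ π₁ c.1 := by
  have := Polynomial.hom_eval₂ Q (π₁.prod π₂) (RingHom.fst M.K N.K) c
  simpa [Ph] using this

theorem Ph_snd (c : M.K × N.K) (Q : F[X]) : (Ph π₁ π₂ c Q).2 = Q.eval₂ π₂ c.2 := by
  have := Polynomial.hom_eval₂ Q (π₁.prod π₂) (RingHom.snd M.K N.K) c
  simpa [Ph] using this

theorem Ph_C (c : M.K × N.K) (a : F) : Ph π₁ π₂ c (C a) = (π₁ a, π₂ a) := by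
  simp [Ph]

theorem Ph_X (c : M.K × N.K) : Ph π₁ π₂ c X = c := by
  simp [Ph]

theorem Ph_OG (hR : IsR gr) (hV : IsV gv) (hF : ∀ z : M.K × N.K, z ∈ p ↔ ∃ a : F, z = (π₁ a, π₂ a))
    (hp : PI S T gr gv p) {c : M.K × N.K} (hc : c ∈ OG hR) {Q : F[X]} (hQ : OP π₁ Q) :
    Ph π₁ π₂ c Q ∈ OG hR := by
  rw [Ph, coe_eval₂RingHom, eval₂_eq_sum_range]
  refine Subring.sum_mem _ fun i _ => Subring.mul_mem _ ?_ (Subring.pow_mem _ hc i)
  have h1 : ((π₁.prod π₂) (Q.coeff i)) = (π₁ (Q.coeff i), π₂ (Q.coeff i)) := rfl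
  have hm : (π₁ (Q.coeff i), π₂ (Q.coeff i)) ∈ p := (hF _).2 ⟨_, rfl⟩
  rw [h1, mem_OG]
  exact ⟨hQ i, (hV.le_one (hp.val _ hm)).1 (hQ i), hp.res _ hm⟩

/-- normal form of a value of a polynomial -/
theorem Ph_nf (hR : IsR gr) (hV : IsV gv) (hF : ∀ z : M.K × N.K, z ∈ p ↔ ∃ a : F, z = (π₁ a, π₂ a))
    (hp : PI S T gr gv p) {c : M.K × N.K} (hc : c ∈ OG hR) {Q : F[X]} (hQ0 : Q ≠ 0)
    (hno : ∀ g : F[X], g.Monic → g.natDegree ≤ Q.natDegree → OP π₁ g →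
      ¬ M.v (g.eval₂ π₁ c.1) < 1) :
    ∃ a : F, a ≠ 0 ∧ ∃ u, Un M N gr u ∧ Ph π₁ π₂ c Q = (π₁ a, π₂ a) * u := by
  obtain ⟨m, hm, hmax⟩ := Finset.exists_max_image Q.support (fun i => M.v (π₁ (Q.coeff i)))
    (Polynomial.support_nonempty.2 hQ0)
  set a := Q.coeff m with ha
  have ha0 : a ≠ 0 := Polynomial.mem_support_iff.1 hm
  have hva : M.v (π₁ a) ≠ 0 := by simpa using ha0
  set Q₀ := C a⁻¹ * Q with hQ₀
  have hOP : OP π₁ Q₀ := by
    intro i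
    rw [hQ₀, coeff_C_mul, map_mul, map_mul, map_inv₀, map_inv₀]
    by_cases hi : i ∈ Q.support
    · rw [mul_comm, ← div_eq_mul_inv, div_le_one₀ (zero_lt_iff.2 hva)]
      exact hmax i hi
    · rw [Polynomial.notMem_support_iff.1 hi, map_zero, map_zero, mul_zero]
      exact zero_le
  have hm1 : M.v (π₁ (Q₀.coeff m)) = 1 := by
    rw [hQ₀, coeff_C_mul, ← ha, inv_mul_cancel₀ ha0, map_one, map_one]
  have hQQ : Q = C a * Q₀ := by
    rw [hQ₀, ← mul_assoc, ← C_mul, mul_inv_cancel₀ ha0, C_1, one_mul]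
  refine ⟨a, ha0, Ph π₁ π₂ c Q₀, ?_, ?_⟩
  · apply OG_un hR (Ph_OG hR hV hF hp hc hOP)
    rw [Ph_fst]
    intro hlt
    obtain ⟨g, h1, h2, h3, h4⟩ := trunc ((mem_OG hR).1 hc).1 _ Q₀ le_rfl hOP ⟨m, hm1⟩ hlt
    refine hno g h1 (h2.trans ?_) h3 h4
    rw [hQ₀, natDegree_C_mul (inv_ne_zero ha0)]
  · conv_lhs => rw [hQQ, map_mul, Ph_C]

/-- adjoining the pair `c` -/
theorem adj (hR : IsR gr) (hV : IsV gv) (hF : ∀ z : M.K × N.K, z ∈ p ↔ ∃ a : F, z = (π₁ a, π₂ a))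
    (hp : PI S T gr gv p) (E : Subfield M.K) (hE : ∀ z ∈ p, z.1 ∈ E) {c : M.K × N.K} (hcE : c.1 ∈ E)
    (hnf : ∀ Q : F[X], Ph π₁ π₂ c Q = 0 ∨
      ∃ a : F, a ≠ 0 ∧ ∃ u, Un M N gr u ∧ Ph π₁ π₂ c Q = (π₁ a, π₂ a) * u) :
    ∃ p' : Subring (M.K × N.K), p ≤ p' ∧ PI S T gr gv p' ∧ (∀ z ∈ p', z.1 ∈ E) ∧ c ∈ p' := by
  have hMo : Mo S T gr gv (Ph π₁ π₂ c).range {z | z ∈ p ∧ z ≠ 0} :=
    { mul := by
        rintro a ⟨ha, ha0⟩ b ⟨hb, hb0⟩
        refine ⟨p.mul_mem ha hb, fun e => ?_⟩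
        have h1 := (hp.zero_or hV ha).resolve_left ha0
        have h2 := (hp.zero_or hV hb).resolve_left hb0
        exact mul_ne_zero h1.1 h2.1 (congrArg Prod.fst e)
      inv := by
        rintro a ⟨ha, ha0⟩
        refine ⟨hp.inv a ha, fun e => ?_⟩
        have h1 := (hp.zero_or hV ha).resolve_left ha0
        exact inv_ne_zero h1.1 (congrArg Prod.fst e)
      ne := by
        rintro a ⟨ha, ha0⟩
        exact ((hp.zero_or hV ha).resolve_left ha0).1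
      val := fun a ha => hp.val a ha.1
      res := fun a ha => hp.res a ha.1
      sec := by
        rintro a ⟨ha, ha0⟩
        obtain ⟨b, hb⟩ := (hF _).1 (hp.sec a ha)
        exact ⟨C b, by rw [Ph_C]; exact hb.symm⟩
      nf := by
        rintro _ ⟨Q, rfl⟩
        rcases hnf Q with h | ⟨a, ha, u, hu, h⟩
        · exact Or.inl h
        · refine Or.inr ⟨(π₁ a, π₂ a), ⟨(hF _).2 ⟨a, rfl⟩, fun e => ha ?_⟩, u, hu, h⟩
          have := congrArg Prod.fst e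
          simpa using this }
  have hpR : p ≤ (Ph π₁ π₂ c).range := by
    intro z hz
    obtain ⟨b, hb⟩ := (hF _).1 hz
    exact ⟨C b, by rw [Ph_C]; exact hb.symm⟩
  refine ⟨fr hV hMo, hpR.trans (le_fr hV hMo), pi_fr hV hR hMo, ?_, ?_⟩
  · have hA : ∀ z ∈ (Ph π₁ π₂ c).range, z.1 ∈ E := by
      rintro _ ⟨Q, rfl⟩
      rw [Ph_fst, eval₂_eq_sum_range]
      refine E.sum_mem fun i _ => E.mul_mem ?_ (E.pow_mem hcE i)
      exact hE _ ((hF (π₁ (Q.coeff i), π₂ (Q.coeff i))).2 ⟨_, rfl⟩)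
    rintro _ ⟨x, hx, y, hy, hy0, rfl⟩
    exact E.mul_mem (hA x hx) (E.inv_mem (hA y hy))
  · exact le_fr hV hMo ⟨X, Ph_X c⟩

/-- extension of the residue field -/
theorem stepR (hV : IsV gv) (hR : IsR gr) (hp : PI S T gr gv p) (E : Subfield M.K)
    (hE : ∀ z ∈ p, z.1 ∈ E)
    (hac : ∀ Q : M.K[X], Q ≠ 0 → (∀ i, Q.coeff i ∈ E) → ∀ b, Q.eval b = 0 → b ∈ E)
    {y₀ : M.K} (hy₀ : y₀ ∈ E) (hv₀ : M.v y₀ ≤ 1) {l : N.k} (hl : (M.r y₀, l) ∈ gr) :
    ∃ p' : Subring (M.K × N.K), p ≤ p' ∧ PI S T gr gv p' ∧ (∀ z ∈ p', z.1 ∈ E) ∧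
      ∃ z ∈ p', M.v z.1 ≤ 1 ∧ M.r z.1 = M.r y₀ := by
  classical
  obtain ⟨F, _, π₁, π₂, hF⟩ := hp.abs hV
  obtain ⟨z₀, hz₀, hrz₀⟩ := N.r_surj l
  have hc₀ : ((y₀, z₀) : M.K × N.K) ∈ OG hR := (mem_OG hR).2 ⟨hv₀, hz₀, by rw [hrz₀]; exact hl⟩
  by_cases hA : ∃ f : F[X], f.Monic ∧ OP π₁ f ∧ M.v (f.eval₂ π₁ y₀) < 1
  · -- the algebraic case
    have hex : ∃ n : ℕ, ∃ f : F[X], f.natDegree = n ∧ f.Monic ∧ OP π₁ f ∧
        M.v (f.eval₂ π₁ y₀) < 1 := by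
      obtain ⟨f, hf⟩ := hA
      exact ⟨_, f, rfl, hf⟩
    obtain ⟨f, hfn, hfm, hfO, hfv⟩ := Nat.find_spec hex
    have hmin : ∀ g : F[X], g.Monic → g.natDegree < f.natDegree → OP π₁ g →
        ¬ M.v (g.eval₂ π₁ y₀) < 1 := by
      intro g h1 h2 h3 h4
      rw [hfn] at h2
      exact Nat.find_min hex h2 ⟨g, rfl, h1, h3, h4⟩
    have hd : f.natDegree ≠ 0 := by
      intro h0
      have := hfm.natDegree_eq_zero.1 h0
      rw [this, eval₂_one, map_one] at hfv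
      exact lt_irrefl _ hfv
    -- the derivative
    have hf'O : OP π₁ f.derivative := by
      intro i
      rw [coeff_derivative, map_mul, map_mul]
      refine mul_le_one' (hfO _) ?_
      have := M.v_nat_le (i + 1)
      simpa using this
    have hf'v : ¬ M.v (f.derivative.eval₂ π₁ y₀) < 1 := by
      intro hlt
      obtain ⟨g, h1, h2, h3, h4⟩ := trunc hv₀ _ f.derivative le_rfl hf'O
        ⟨f.natDegree - 1, by
          rw [coeff_derivative, Nat.sub_add_cancel (Nat.pos_of_ne_zero hd), hfm.coeff_natDegree,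
            one_mul]
          have := M.v_nat f.natDegree (Nat.pos_of_ne_zero hd)
          rw [← this]
          congr 1
          have e : ((f.natDegree - 1 : ℕ) : F) + 1 = (f.natDegree : F) := by
            rw [← Nat.cast_succ, Nat.succ_eq_add_one, Nat.sub_add_cancel (Nat.pos_of_ne_zero hd)]
          rw [e, map_natCast]⟩ hlt
      refine hmin g h1 (lt_of_le_of_lt h2 ?_) h3 h4
      exact natDegree_derivative_lt hd
    have hP := Ph_OG hR hV hF hp hc₀ hfO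
    have hP' := Ph_OG hR hV hF hp hc₀ hf'O
    have hfO2 : OP π₂ f := by
      intro i
      exact (hV.le_one (hp.val _ ((hF (π₁ (f.coeff i), π₂ (f.coeff i))).2 ⟨_, rfl⟩))).1 (hfO i)
    -- roots
    obtain ⟨y, hy, hyv⟩ := M.hensel (f.map π₁) (hfm.map π₁) (by
        intro i; rw [coeff_map]; exact hfO i) y₀ hv₀ (by rw [eval_map]; exact hfv) (by
        rw [derivative_map, eval_map]
        exact le_antisymm (v_eval_le hf'O hv₀) (not_lt.1 hf'v))
    obtain ⟨z, hz, hzv⟩ := N.hensel (f.map π₂) (hfm.map π₂) (by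
        intro i; rw [coeff_map]; exact hfO2 i) z₀ hz₀ (by
        rw [eval_map]
        have := OG_lt hR hP
        rw [Ph_fst, Ph_snd] at this
        exact this.1 hfv) (by
        rw [derivative_map, eval_map]
        have := OG_un hR hP' (by rw [Ph_fst]; exact hf'v)
        have h2 := this.v2
        rw [Ph_snd] at h2
        exact h2)
    rw [eval_map] at hy hz
    have hlift : ∀ (M : VM.{u}) (y y₀ : M.K), M.v y₀ ≤ 1 → M.v (y - y₀) < 1 →
        M.v y ≤ 1 ∧ M.r y = M.r y₀ := by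
      intro M y y₀ h1 h2
      have e : y = y₀ + (y - y₀) := by ring
      constructor
      · rw [e]; exact M.v.map_add_le h1 h2.le
      · rw [e, M.r_add _ _ h1 h2.le, (M.r_eq_zero _ h2.le).2 h2, add_zero]
    obtain ⟨hy1, hy2⟩ := hlift M y y₀ hv₀ hyv
    obtain ⟨hz1, hz2⟩ := hlift N z z₀ hz₀ hzv
    have hc : ((y, z) : M.K × N.K) ∈ OG hR := (mem_OG hR).2 ⟨hy1, hz1, by
      show (M.r y, N.r z) ∈ gr
      rw [hy2, hz2, hrz₀]; exact hl⟩
    have hyE : y ∈ E := by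
      refine hac (f.map π₁) (hfm.map π₁).ne_zero (fun i => ?_) y (by rw [eval_map]; exact hy)
      rw [coeff_map]
      exact hE _ ((hF (π₁ (f.coeff i), π₂ (f.coeff i))).2 ⟨_, rfl⟩)
    have hPf : Ph π₁ π₂ (y, z) f = 0 := by
      apply Prod.ext
      · rw [Ph_fst]; exact hy
      · rw [Ph_snd]; exact hz
    obtain ⟨p', h1, h2, h3, h4⟩ := adj hR hV hF hp E hE (c := (y, z)) hyE (by
      intro Q
      have hQ : Ph π₁ π₂ (y, z) Q = Ph π₁ π₂ (y, z) (Q %ₘ f) := by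
        conv_lhs => rw [← modByMonic_add_div Q f]
        rw [map_add, map_mul, hPf, zero_mul, add_zero]
      rw [hQ]
      by_cases h0 : Q %ₘ f = 0
      · left; rw [h0, map_zero]
      · right
        apply Ph_nf hR hV hF hp hc h0
        intro g hg1 hg2 hg3 hg4
        refine hmin g hg1 (lt_of_le_of_lt hg2 ?_) hg3 ((eval_congr hg3 hy1 hv₀ hy2).1 hg4)
        exact natDegree_modByMonic_lt Q hfm (fun h => by
          rw [h, natDegree_one] at hd; exact hd rfl))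
    exact ⟨p', h1, h2, h3, _, h4, hy1, hy2⟩
  · -- the transcendental case
    obtain ⟨p', h1, h2, h3, h4⟩ := adj hR hV hF hp E hE (c := (y₀, z₀)) hy₀ (by
      intro Q
      by_cases h0 : Q = 0
      · left; rw [h0, map_zero]
      · right
        apply Ph_nf hR hV hF hp hc₀ h0
        intro g hg1 _ hg3 hg4
        exact hA ⟨g, hg1, hg3, hg4⟩)
    exact ⟨p', h1, h2, h3, _, h4, hv₀, rfl⟩

end

end Pool.Agent.J6H67.AK
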