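import Pool.Agent.J6H67.AK.Part

/-!
# Extension of the value group
-/

set_option autoImplicit false

universe u

namespace Pool.Agent.J6H67.AK

open Filter Polynomial

section

variable {M N : VM.{u}} {S : CS M} {T : CS N} {gr : Set (M.k × N.k)} {gv : Set (M.Γ × N.Γ)}

theorem VM.v_one_add (M : VM.{u}) {t : M.K} (h : M.v t < 1) : M.v (1 + t) = 1 := by
  rw [M.v.map_add_eq_of_lt_left, map_one]
  rwa [map_one]

theorem VM.r_one_add (M : VM.{u}) {t : M.K} (h : M.v t < 1) : M.r (1 + t) = 1 := by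
  rw [M.r_add _ _ (by simp) h.le, M.r_one, (M.r_eq_zero t h.le).2 h, add_zero]

theorem Un.one_add (hR : IsR gr) {t : M.K × N.K} (h1 : M.v t.1 < 1) (h2 : N.v t.2 < 1) :
    Un M N gr (1 + t) where
  v1 := by rw [Prod.fst_add, Prod.fst_one]; exact M.v_one_add h1
  v2 := by rw [Prod.snd_add, Prod.snd_one]; exact N.v_one_add h2
  r := by
    rw [Prod.fst_add, Prod.fst_one, Prod.snd_add, Prod.snd_one, M.r_one_add h1, N.r_one_add h2]
    exact hR.one

theorem IsV.zpow (hV : IsV gv) {γ : M.Γ} {δ : N.Γ} (h : (γ, δ) ∈ gv) (n : ℤ) :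
    (γ ^ n, δ ^ n) ∈ gv := by
  have hn : ∀ n : ℕ, (γ ^ n, δ ^ n) ∈ gv := by
    intro n
    induction n with
    | zero => rw [pow_zero, pow_zero]; exact hV.one
    | succ n ih => rw [pow_succ, pow_succ]; exact hV.mul _ ih _ h
  obtain ⟨m, rfl | rfl⟩ := n.eq_nat_or_neg
  · rw [zpow_natCast, zpow_natCast]; exact hn m
  · rw [zpow_neg, zpow_neg, zpow_natCast, zpow_natCast]; exact hV.inv _ (hn m)

/-- the powers of the new element -/
def em (S : CS M) (T : CS N) (γ : M.Γ) (δ : N.Γ) (n : ℤ) : M.K × N.K := (S.s (γ ^ n), T.s (δ ^ n))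

/-- the new monomials -/
def AV (S : CS M) (T : CS N) (p : Subring (M.K × N.K)) (γ : M.Γ) (δ : N.Γ) : Set (M.K × N.K) :=
  {a | ∃ b ∈ p, b ≠ 0 ∧ ∃ n : ℤ, a = b * em S T γ δ n}

variable {p : Subring (M.K × N.K)} {γ : M.Γ} {δ : N.Γ}

theorem em_add (hγ : γ ≠ 0) (hδ : δ ≠ 0) (m n : ℤ) :
    em S T γ δ (m + n) = em S T γ δ m * em S T γ δ n := by
  simp only [em, Prod.mk_mul_mk, zpow_add₀ hγ, zpow_add₀ hδ, map_mul]

theorem em_zero : em S T γ δ 0 = 1 := by
  simp only [em, zpow_zero, map_one]; rfl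

theorem em_neg (n : ℤ) : em S T γ δ (-n) = (em S T γ δ n)⁻¹ := by
  simp only [em, zpow_neg, map_inv₀, Prod.inv_mk]

theorem em_fst (n : ℤ) : M.v (em S T γ δ n).1 = γ ^ n := S.vs _

theorem em_snd (n : ℤ) : N.v (em S T γ δ n).2 = δ ^ n := T.vs _

/-- a monomial of value one is in the old field -/
theorem em_unit (hV : IsV gv) (hp : PI S T gr gv p) (hgv : (γ, δ) ∈ gv) {b : M.K × N.K}
    (hb : b ∈ p) (hb0 : b ≠ 0) {n : ℤ} (h1 : M.v b.1 * γ ^ n = 1) : b * em S T γ δ n ∈ p := by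
  have hi := hp.inv b hb
  have e1 : γ ^ n = M.v (b⁻¹).1 := by
    rw [Prod.fst_inv, map_inv₀]
    exact eq_inv_of_mul_eq_one_right h1
  have e2 : δ ^ n = N.v (b⁻¹).2 := by
    have h2 := hV.zpow hgv n
    have h3 := hp.val _ hi
    rw [e1] at h2
    exact hV.inj h2 h3
  have e3 : em S T γ δ n ∈ p := by
    unfold em
    rw [e1, e2]
    exact hp.sec _ hi
  exact p.mul_mem hb e3

theorem AV_mul (hV : IsV gv) (hp : PI S T gr gv p) (hγ : γ ≠ 0) (hδ : δ ≠ 0)
    {a b : M.K × N.K} (ha : a ∈ AV S T p γ δ) (hb : b ∈ AV S T p γ δ) : a * b ∈ AV S T p γ δ := by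
  obtain ⟨x, hx, hx0, n, rfl⟩ := ha
  obtain ⟨y, hy, hy0, m, rfl⟩ := hb
  refine ⟨x * y, p.mul_mem hx hy, ?_, n + m, ?_⟩
  · have h1 := (hp.zero_or hV hx).resolve_left hx0
    have h2 := (hp.zero_or hV hy).resolve_left hy0
    intro e
    exact mul_ne_zero h1.1 h2.1 (congrArg Prod.fst e)
  · rw [em_add hγ hδ]; ring

theorem AV_inv (hV : IsV gv) (hp : PI S T gr gv p)
    {a : M.K × N.K} (ha : a ∈ AV S T p γ δ) : a⁻¹ ∈ AV S T p γ δ := by
  obtain ⟨x, hx, hx0, n, rfl⟩ := ha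
  refine ⟨x⁻¹, hp.inv x hx, ?_, -n, ?_⟩
  · have h1 := (hp.zero_or hV hx).resolve_left hx0
    intro e
    exact inv_ne_zero h1.1 (congrArg Prod.fst e)
  · rw [em_neg, mul_inv]

theorem AV_ne (hV : IsV gv) (hp : PI S T gr gv p) (hγ : γ ≠ 0) 
    {a : M.K × N.K} (ha : a ∈ AV S T p γ δ) : a.1 ≠ 0 := by
  obtain ⟨x, hx, hx0, n, rfl⟩ := ha
  have h1 := (hp.zero_or hV hx).resolve_left hx0
  refine mul_ne_zero h1.1 ?_
  have : (em S T γ δ n).1 = S.s (γ ^ n) := rfl
  rw [this]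
  exact (_root_.map_ne_zero _).2 (zpow_ne_zero _ hγ)

theorem AV_val (hV : IsV gv) (hp : PI S T gr gv p) (hgv : (γ, δ) ∈ gv)
    {a : M.K × N.K} (ha : a ∈ AV S T p γ δ) : (M.v a.1, N.v a.2) ∈ gv := by
  obtain ⟨x, hx, hx0, n, rfl⟩ := ha
  rw [Prod.fst_mul, Prod.snd_mul, map_mul, map_mul, em_fst, em_snd]
  exact hV.mul _ (hp.val x hx) _ (hV.zpow hgv n)

theorem AV_unit (hV : IsV gv) (hp : PI S T gr gv p) (hgv : (γ, δ) ∈ gv)
    {a : M.K × N.K} (ha : a ∈ AV S T p γ δ) (h1 : M.v a.1 = 1) : a ∈ p := by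
  obtain ⟨x, hx, hx0, n, rfl⟩ := ha
  rw [Prod.fst_mul, map_mul, em_fst] at h1
  exact em_unit hV hp hgv hx hx0 h1

theorem AV_add (hV : IsV gv) (hp : PI S T gr gv p) (hgv : (γ, δ) ∈ gv) (hγ : γ ≠ 0) (hδ : δ ≠ 0)
    {a b : M.K × N.K} (ha : a ∈ AV S T p γ δ) (hb : b ∈ AV S T p γ δ) (h : M.v b.1 = M.v a.1) :
    a + b = 0 ∨ a + b ∈ AV S T p γ δ := by
  have hne := AV_ne hV hp hγ ha
  have hne2 : a.2 ≠ 0 := by
    intro e
    have := (hV.eq_zero (AV_val hV hp hgv ha)).2 (by rw [e, map_zero])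
    exact hne (by simpa using this)
  have ht : b * a⁻¹ ∈ p := by
    apply AV_unit hV hp hgv (AV_mul hV hp hγ hδ hb (AV_inv hV hp ha))
    rw [Prod.fst_mul, Prod.fst_inv, map_mul, map_inv₀, h]
    exact mul_inv_cancel₀ (by simpa using hne)
  have e1 : a + b = a * (1 + b * a⁻¹) := by
    have : a * (1 + b * a⁻¹) = a + b * (a * a⁻¹) := by ring
    rw [this, prod_mul_inv hne hne2, mul_one]
  by_cases h0 : 1 + b * a⁻¹ = 0
  · left; rw [e1, h0, mul_zero]
  · right
    rw [e1]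
    obtain ⟨x, hx, hx0, n, rfl⟩ := ha
    refine ⟨x * (1 + b * (x * em S T γ δ n)⁻¹), p.mul_mem hx (p.add_mem p.one_mem ht), ?_, n, ?_⟩
    · have h1 := (hp.zero_or hV hx).resolve_left hx0
      have h2 := (hp.zero_or hV (p.add_mem p.one_mem ht)).resolve_left h0
      intro e
      exact mul_ne_zero h1.1 h2.1 (congrArg Prod.fst e)
    · ring

theorem ms_sum1 {m : Multiset (M.K × N.K)} {g : M.Γ} (hg : g ≠ 0)
    (h : ∀ b ∈ m, M.v b.1 < g) : M.v m.sum.1 < g := by
  induction m using Multiset.induction_on with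
  | empty => rw [Multiset.sum_zero, Prod.fst_zero, map_zero]; exact zero_lt_iff.2 hg
  | cons b m ih =>
    rw [Multiset.sum_cons, Prod.fst_add]
    refine (M.v.map_add _ _).trans_lt (max_lt (h b (Multiset.mem_cons_self _ _)) ?_)
    exact ih fun c hc => h c (Multiset.mem_cons_of_mem hc)

theorem ms_sum2 {m : Multiset (M.K × N.K)} {g : N.Γ} (hg : g ≠ 0)
    (h : ∀ b ∈ m, N.v b.2 < g) : N.v m.sum.2 < g := by
  induction m using Multiset.induction_on with
  | empty => rw [Multiset.sum_zero, Prod.snd_zero, map_zero]; exact zero_lt_iff.2 hg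
  | cons b m ih =>
    rw [Multiset.sum_cons, Prod.snd_add]
    refine (N.v.map_add _ _).trans_lt (max_lt (h b (Multiset.mem_cons_self _ _)) ?_)
    exact ih fun c hc => h c (Multiset.mem_cons_of_mem hc)

theorem AV_rep (hV : IsV gv) (hp : PI S T gr gv p) (hγ : γ ≠ 0) (hδ : δ ≠ 0)
    {x : M.K × N.K} (hx : x ∈ Subring.closure (AV S T p γ δ)) :
    ∃ m : Multiset (M.K × N.K), (∀ a ∈ m, a ∈ AV S T p γ δ) ∧ m.sum = x := by
  let A' : Submonoid (M.K × N.K) :=
    { carrier := AV S T p γ δ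
      mul_mem' := fun ha hb => AV_mul hV hp hγ hδ ha hb
      one_mem' := ⟨1, p.one_mem, one_ne_zero, 0, by rw [em_zero, mul_one]⟩ }
  have hA : (Submonoid.closure (AV S T p γ δ) : Set (M.K × N.K)) = AV S T p γ δ := by
    have : Submonoid.closure (A' : Set (M.K × N.K)) = A' := Submonoid.closure_eq A'
    exact congrArg (fun s : Submonoid (M.K × N.K) => (s : Set (M.K × N.K))) this
  rw [Subring.mem_closure_iff, hA] at hx
  induction hx using AddSubgroup.closure_induction with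
  | mem x hx => exact ⟨{x}, by simpa using hx, by simp⟩
  | zero => exact ⟨0, by simp, by simp⟩
  | add x y _ _ hx hy =>
    obtain ⟨m, hm, rfl⟩ := hx
    obtain ⟨m', hm', rfl⟩ := hy
    refine ⟨m + m', fun a ha => ?_, by simp⟩
    rcases Multiset.mem_add.1 ha with h | h
    · exact hm a h
    · exact hm' a h
  | neg x _ hx =>
    obtain ⟨m, hm, rfl⟩ := hx
    refine ⟨m.map Neg.neg, fun a ha => ?_, Multiset.sum_map_neg' m⟩
    obtain ⟨b, hb, rfl⟩ := Multiset.mem_map.1 ha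
    obtain ⟨x, hx, hx0, n, rfl⟩ := hm b hb
    exact ⟨-x, p.neg_mem hx, neg_ne_zero.2 hx0, n, by ring⟩

theorem AV_nf (hV : IsV gv) (hR : IsR gr) (hp : PI S T gr gv p) (hgv : (γ, δ) ∈ gv) (hγ : γ ≠ 0)
    (hδ : δ ≠ 0) {x : M.K × N.K} (hx : x ∈ Subring.closure (AV S T p γ δ)) :
    x = 0 ∨ ∃ a ∈ AV S T p γ δ, ∃ u, Un M N gr u ∧ x = a * u := by
  classical
  have hex : ∃ n : ℕ, ∃ m : Multiset (M.K × N.K), (∀ a ∈ m, a ∈ AV S T p γ δ) ∧ m.sum = x ∧
      Multiset.card m = n := by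
    obtain ⟨m, hm, hs⟩ := AV_rep hV hp hγ hδ hx
    exact ⟨_, m, hm, hs, rfl⟩
  obtain ⟨m, hm, hs, hcard⟩ := Nat.find_spec hex
  have hmin : ∀ m' : Multiset (M.K × N.K), (∀ a ∈ m', a ∈ AV S T p γ δ) → m'.sum = x →
      Multiset.card m ≤ Multiset.card m' := by
    intro m' h1 h2
    rw [hcard]
    exact Nat.find_min' hex ⟨m', h1, h2, rfl⟩
  by_cases h0 : m = 0
  · left; rw [← hs, h0, Multiset.sum_zero]
  right
  obtain ⟨a₀, ha₀⟩ := Multiset.exists_mem_of_ne_zero h0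
  obtain ⟨a, ha, hmax⟩ := Finset.exists_max_image m.toFinset (fun a => M.v a.1)
    ⟨a₀, Multiset.mem_toFinset.2 ha₀⟩
  rw [Multiset.mem_toFinset] at ha
  obtain ⟨m', rfl⟩ := Multiset.exists_cons_of_mem ha
  have haA := hm a (Multiset.mem_cons_self _ _)
  have hlt : ∀ b ∈ m', M.v b.1 < M.v a.1 := by
    intro b hb
    refine lt_of_le_of_ne (hmax b (Multiset.mem_toFinset.2 (Multiset.mem_cons_of_mem hb))) ?_
    intro heq
    obtain ⟨m'', rfl⟩ := Multiset.exists_cons_of_mem hb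
    have hbA := hm b (Multiset.mem_cons_of_mem hb)
    have hm'' : ∀ c ∈ m'', c ∈ AV S T p γ δ := fun c hc =>
      hm c (Multiset.mem_cons_of_mem (Multiset.mem_cons_of_mem hc))
    rcases AV_add hV hp hgv hγ hδ haA hbA heq with h1 | h1
    · have := hmin m'' hm'' (by
        rw [← hs, Multiset.sum_cons, Multiset.sum_cons, ← add_assoc, h1, zero_add])
      simp only [Multiset.card_cons] at this
      omega
    · have := hmin ((a + b) ::ₘ m'') (fun c hc => by
          rcases Multiset.mem_cons.1 hc with rfl | hc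
          · exact h1
          · exact hm'' c hc) (by
        rw [← hs, Multiset.sum_cons, Multiset.sum_cons, Multiset.sum_cons, ← add_assoc])
      simp only [Multiset.card_cons] at this
      omega
  have hne := AV_ne hV hp hγ haA
  have hav := AV_val hV hp hgv haA
  have hne2 : a.2 ≠ 0 := by
    intro e
    have := (hV.eq_zero hav).2 (by rw [e, map_zero])
    exact hne (by simpa using this)
  have h1 : M.v m'.sum.1 < M.v a.1 := ms_sum1 (by simpa using hne) hlt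
  have h2 : N.v m'.sum.2 < N.v a.2 := ms_sum2 (by simpa using hne2) fun b hb =>
    (hV.lt (AV_val hV hp hgv (hm b (Multiset.mem_cons_of_mem hb))) hav).1 (hlt b hb)
  refine ⟨a, haA, 1 + m'.sum * a⁻¹, Un.one_add hR ?_ ?_, ?_⟩
  · rw [Prod.fst_mul, Prod.fst_inv, map_mul, map_inv₀, ← div_eq_mul_inv,
      div_lt_one₀ (zero_lt_iff.2 (by simpa using hne))]
    exact h1
  · rw [Prod.snd_mul, Prod.snd_inv, map_mul, map_inv₀, ← div_eq_mul_inv,
      div_lt_one₀ (zero_lt_iff.2 (by simpa using hne2))]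
    exact h2
  · have : a * (1 + m'.sum * a⁻¹) = a + m'.sum * (a * a⁻¹) := by ring
    rw [this, prod_mul_inv hne hne2, mul_one, ← hs, Multiset.sum_cons]

/-- extension of the value group -/
theorem stepV (hV : IsV gv) (hR : IsR gr) (hp : PI S T gr gv p) (E : Subfield M.K)
    (hE : ∀ z ∈ p, z.1 ∈ E) (hs : ∀ x ∈ E, S.s (M.v x) ∈ E)
    (hgv : (γ, δ) ∈ gv) (hγ : γ ≠ 0) (hγE : ∃ x ∈ E, M.v x = γ) :
    ∃ p' : Subring (M.K × N.K), p ≤ p' ∧ PI S T gr gv p' ∧ (∀ z ∈ p', z.1 ∈ E) ∧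
      ∃ z ∈ p', M.v z.1 = γ := by
  have hδ : δ ≠ 0 := fun h => hγ ((hV.eq_zero hgv).2 h)
  have hMo : Mo S T gr gv (Subring.closure (AV S T p γ δ)) (AV S T p γ δ) :=
    { mul := fun a ha b hb => AV_mul hV hp hγ hδ ha hb
      inv := fun a ha => AV_inv hV hp ha
      ne := fun a ha => AV_ne hV hp hγ ha
      val := fun a ha => AV_val hV hp hgv ha
      res := fun a ha => by
        by_cases h1 : M.v a.1 = 1
        · exact hp.res a (AV_unit hV hp hgv ha h1)
        · exact res_mem_of_ne hR hV (AV_val hV hp hgv ha) h1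
      sec := by
        rintro _ ⟨x, hx, hx0, n, rfl⟩
        apply Subring.subset_closure
        have h1 := (hp.zero_or hV hx).resolve_left hx0
        refine ⟨(S.s (M.v x.1), T.s (N.v x.2)), hp.sec x hx, ?_, n, ?_⟩
        · intro e
          have := congrArg Prod.fst e
          have h2 : S.s (M.v x.1) = 0 := this
          rw [map_eq_zero, map_eq_zero] at h2
          exact h1.1 h2
        · have e1 : M.v (x * em S T γ δ n).1 = M.v x.1 * γ ^ n := by
            rw [Prod.fst_mul, map_mul, em_fst]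
          have e2 : N.v (x * em S T γ δ n).2 = N.v x.2 * δ ^ n := by
            rw [Prod.snd_mul, map_mul, em_snd]
          rw [e1, e2, map_mul, map_mul]
          rfl
      nf := fun x hx => AV_nf hV hR hp hgv hγ hδ hx }
  have hpR : p ≤ Subring.closure (AV S T p γ δ) := by
    intro z hz
    by_cases h0 : z = 0
    · rw [h0]; exact Subring.zero_mem _
    · apply Subring.subset_closure
      exact ⟨z, hz, h0, 0, by rw [em_zero, mul_one]⟩
  refine ⟨fr hV hMo, hpR.trans (le_fr hV hMo), pi_fr hV hR hMo, ?_, ?_⟩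
  · obtain ⟨x₀, hx₀, hvx⟩ := hγE
    have hsγ : S.s γ ∈ E := by rw [← hvx]; exact hs x₀ hx₀
    have hA : ∀ z ∈ Subring.closure (AV S T p γ δ), z.1 ∈ E := by
      intro z hz
      have : Subring.closure (AV S T p γ δ) ≤ E.toSubring.comap (RingHom.fst M.K N.K) := by
        rw [Subring.closure_le]
        rintro _ ⟨x, hx, hx0, n, rfl⟩
        show (x * em S T γ δ n).1 ∈ E
        rw [Prod.fst_mul]
        refine E.mul_mem (hE x hx) ?_
        show S.s (γ ^ n) ∈ E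
        rw [map_zpow₀]
        exact E.zpow_mem hsγ n
      exact this hz
    rintro _ ⟨x, hx, y, hy, hy0, rfl⟩
    exact E.mul_mem (hA x hx) (E.inv_mem (hA y hy))
  · refine ⟨em S T γ δ 1, le_fr hV hMo (Subring.subset_closure ⟨1, p.one_mem, one_ne_zero, 1, by
      rw [one_mul]⟩), ?_⟩
    rw [em_fst, zpow_one]

end

end Pool.Agent.J6H67.AK
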