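import Mathlib

/-!
# The languages of rings, of ordered abelian groups and of valued fields, and their standard fragments

A valued field is given by a field `K` and a valuation ring `O` of `K`. The three sorts are `K`, the
residue field `IsLocalRing.ResidueField O` and the value group together with infinity, for which we
take the type `O.ValueGroup` of Mathlib. Mathlib writes it multiplicatively, with `0` for infinity,
and with the reverse order (`x` lies in `O` iff `O.valuation x ≤ 1`). The value group itself is the
group `(O.ValueGroup)ˣ`. So in the interpretation of the symbols of the language of ordered abelian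
groups `+` is the product, `0` is `1`, `-` is the inverse and `s ≤ t` means that the value of `t` is
at most the value of `s` in the order of Mathlib.
-/

set_option autoImplicit false

universe u v w

namespace Pool.Agent.J6H67.AK

/-! ### Quantifier-free formulas of the language of rings -/

/-- Terms of the language of rings with variables from `X`. -/
inductive RTm (X : Type) : Type
  | var (x : X) | zero | one | add (s t : RTm X) | neg (s : RTm X) | mul (s t : RTm X)

/-- Quantifier-free formulas of the language of rings with variables from `X`. -/
inductive RQF (X : Type) : Type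
  | eq (s t : RTm X) | not (φ : RQF X) | and (φ ψ : RQF X) | or (φ ψ : RQF X)

/-- The value of a term of the language of rings. -/
def RTm.eval {X : Type} {R : Type u} [Ring R] (x : X → R) : RTm X → R
  | .var i => x i
  | .zero => 0
  | .one => 1
  | .add s t => s.eval x + t.eval x
  | .neg s => - s.eval x
  | .mul s t => s.eval x * t.eval x

/-- Truth of a quantifier-free formula of the language of rings. -/
def RQF.Holds {X : Type} {R : Type u} [Ring R] (x : X → R) : RQF X → Prop
  | .eq s t => s.eval x = t.eval x
  | .not φ => ¬ φ.Holds x
  | .and φ ψ => φ.Holds x ∧ ψ.Holds x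
  | .or φ ψ => φ.Holds x ∨ ψ.Holds x

/-! ### Quantifier-free formulas of the language of ordered abelian groups -/

/-- Terms of the language of (additively written) ordered abelian groups. -/
inductive GTm (X : Type) : Type
  | var (x : X) | zero | add (s t : GTm X) | neg (s : GTm X)

/-- Quantifier-free formulas of the language of ordered abelian groups. -/
inductive GQF (X : Type) : Type
  | eq (s t : GTm X) | le (s t : GTm X) | not (φ : GQF X) | and (φ ψ : GQF X) | or (φ ψ : GQF X)

/-- The value of a term of the language of ordered abelian groups in a multiplicatively written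
group. -/
def GTm.eval {X : Type} {G : Type u} [CommGroup G] (x : X → G) : GTm X → G
  | .var i => x i
  | .zero => 1
  | .add s t => s.eval x * t.eval x
  | .neg s => (s.eval x)⁻¹

/-- Truth of a quantifier-free formula of the language of ordered abelian groups in a
multiplicatively written group with the reverse order. -/
def GQF.Holds {X : Type} {G : Type u} [CommGroup G] [LE G] (x : X → G) : GQF X → Prop
  | .eq s t => s.eval x = t.eval x
  | .le s t => t.eval x ≤ s.eval x
  | .not φ => ¬ φ.Holds x
  | .and φ ψ => φ.Holds x ∧ ψ.Holds x
  | .or φ ψ => φ.Holds x ∨ ψ.Holds x

/-! ### Blocks of quantifiers, one sort -/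

/-- The formulas with `n` alternating blocks of quantifiers, the last one existential, in front of a
quantifier-free formula from `Q`. The blocks may be empty. -/
def Frag (Q : Type → Type) : ℕ → Type → Type
  | 0, X => Q X
  | n + 1, X => Σ a : ℕ, Frag Q n (X ⊕ Fin a)

/-- Truth of a formula: the `n`-th block, counted from the inside, is existential if `n` is odd and
universal if `n` is even. -/
def Frag.Holds {Q : Type → Type} {M : Type u} (H : {X : Type} → (X → M) → Q X → Prop) :
    (n : ℕ) → {X : Type} → Frag Q n X → (X → M) → Prop
  | 0, _, φ, x => H x φ
  | n + 1, _, ⟨a, φ⟩, x =>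
    if Odd (n + 1) then ∃ x' : Fin a → M, Frag.Holds H n φ (Sum.elim x x')
    else ∀ x' : Fin a → M, Frag.Holds H n φ (Sum.elim x x')

/-- `Th_Φ(R)` for a ring `R` and the standard fragment `Φ` with `n` blocks. -/
def ringTh (n : ℕ) (R : Type u) [Ring R] : Set (Frag RQF n Empty) :=
  {φ | Frag.Holds (M := R) RQF.Holds n φ Empty.elim}

/-- `Th_Φ(G)` for a multiplicatively written ordered abelian group `G` with the reverse order and
the standard fragment `Φ` with `n` blocks. -/
def groupTh (n : ℕ) (G : Type u) [CommGroup G] [LE G] : Set (Frag GQF n Empty) :=
  {φ | Frag.Holds (M := G) GQF.Holds n φ Empty.elim}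

/-! ### The three-sorted language of valued fields -/

/-- Terms of the residue-field sort; `X`, `Y` are the variables of the field sort and of the
residue-field sort. -/
inductive KTm (X Y : Type) : Type
  | var (y : Y) | zero | one | add (s t : KTm X Y) | neg (s : KTm X Y) | mul (s t : KTm X Y)
  /-- the residue of an element of the field -/
  | res (s : RTm X)

/-- Terms of the value-group sort; `X`, `Z` are the variables of the field sort and of the
value-group sort. -/
inductive VTm (X Z : Type) : Type
  | var (z : Z) | zero | infty | add (s t : VTm X Z) | neg (s : VTm X Z)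
  /-- the value of an element of the field -/
  | val (s : RTm X)

/-- Quantifier-free formulas of the three-sorted language of valued fields: equality in the field
sort, in the residue-field sort and in the value-group sort, the order of the value-group sort, and
the propositional connectives. -/
inductive VQF (X Y Z : Type) : Type
  | eqF (s t : RTm X) | eqK (s t : KTm X Y) | eqV (s t : VTm X Z) | leV (s t : VTm X Z)
  | not (φ : VQF X Y Z) | and (φ ψ : VQF X Y Z) | or (φ ψ : VQF X Y Z)

/-- The formulas with `n` alternating blocks of quantifiers, the last one existential, in front of a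
quantifier-free formula. The blocks may be empty, and a block may contain variables of all sorts. -/
def VFrag : ℕ → Type → Type → Type → Type
  | 0, X, Y, Z => VQF X Y Z
  | n + 1, X, Y, Z => Σ a b c : ℕ, VFrag n (X ⊕ Fin a) (Y ⊕ Fin b) (Z ⊕ Fin c)

section

variable {K : Type u} {k : Type v} {Γ : Type w} [Ring K] [Ring k] [LinearOrderedCommGroupWithZero Γ]
  (r : K → k) (val : K → Γ) {X Y Z : Type}

/-- The value of a term of the residue-field sort; `r` is the residue map. -/
def KTm.eval (x : X → K) (y : Y → k) : KTm X Y → k
  | .var i => y i
  | .zero => 0
  | .one => 1
  | .add s t => s.eval x y + t.eval x y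
  | .neg s => - s.eval x y
  | .mul s t => s.eval x y * t.eval x y
  | .res s => r (s.eval x)

/-- The value of a term of the value-group sort; `val` is the valuation. -/
def VTm.eval (x : X → K) (z : Z → Γ) : VTm X Z → Γ
  | .var i => z i
  | .zero => 1
  | .infty => 0
  | .add s t => s.eval x z * t.eval x z
  | .neg s => (s.eval x z)⁻¹
  | .val s => val (s.eval x)

/-- Truth of a quantifier-free formula of the language of valued fields. -/
def VQF.Holds (x : X → K) (y : Y → k) (z : Z → Γ) : VQF X Y Z → Prop
  | .eqF s t => s.eval x = t.eval x
  | .eqK s t => s.eval r x y = t.eval r x y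
  | .eqV s t => s.eval val x z = t.eval val x z
  | .leV s t => t.eval val x z ≤ s.eval val x z
  | .not φ => ¬ φ.Holds x y z
  | .and φ ψ => φ.Holds x y z ∧ ψ.Holds x y z
  | .or φ ψ => φ.Holds x y z ∨ ψ.Holds x y z

/-- Truth of a formula: the `n`-th block, counted from the inside, is existential if `n` is odd and
universal if `n` is even. -/
def VFrag.Holds : (n : ℕ) → {X Y Z : Type} → VFrag n X Y Z → (X → K) → (Y → k) → (Z → Γ) → Prop
  | 0, _, _, _, φ, x, y, z => VQF.Holds r val x y z φ
  | n + 1, _, _, _, ⟨a, b, c, φ⟩, x, y, z =>
    if Odd (n + 1) then
      ∃ (x' : Fin a → K) (y' : Fin b → k) (z' : Fin c → Γ),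
        VFrag.Holds n φ (Sum.elim x x') (Sum.elim y y') (Sum.elim z z')
    else
      ∀ (x' : Fin a → K) (y' : Fin b → k) (z' : Fin c → Γ),
        VFrag.Holds n φ (Sum.elim x x') (Sum.elim y y') (Sum.elim z z')

end

section

variable {K : Type u} [Field K] (O : ValuationSubring K)

open Classical in
/-- The residue of an element of the field; it is zero for the elements outside of the valuation
ring. -/
noncomputable def resMap (a : K) : IsLocalRing.ResidueField O :=
  if h : a ∈ O then IsLocalRing.residue O ⟨a, h⟩ else 0

/-- `Th_Φ(K, v)` for the standard fragment `Φ` with `n` blocks, where `(K, v)` is the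
three-sorted structure given by the valuation ring `O` of `K`. -/
def valTh (n : ℕ) : Set (VFrag n Empty Empty Empty) :=
  {φ | VFrag.Holds (resMap O) O.valuation n φ Empty.elim Empty.elim Empty.elim}

end

end Pool.Agent.J6H67.AK
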